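import Pool.Agent.Lib.MP_0f7bfe_al.QT.Defs
import Pool.Agent.Lib.MP_0f7bfe_al.OE.F8

open scoped Pointwise

namespace Pool.Agent.Lib.MP_0f7bfe_al.QT

open Pool.Agent.Lib.MP_0f7bfe_al.OE

universe u v

section
variable {G : Type u} [Group G] {S : Finset G}

theorem allCliques_of_fatClique' (hgen : Subgroup.closure (S : Set G) = ⊤) (h : ∀ κ n, FatClique (Cay S) κ n) :
    AllCliques G := by
  have hh := cayley_homog (S : Set G) S.finite_toSet hgen
  refine ⟨S, S.finite_toSet, fun n F hF => ?_⟩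
  obtain ⟨κ, hκ⟩ : ∃ κ, ∀ x ∈ F, (Cay S).dist 1 x ≤ κ := by
    obtain ⟨R, hR⟩ := (hF.image (fun t => (Cay S).dist 1 t)).bddAbove
    exact ⟨R, fun t ht => hR ⟨t, ht, rfl⟩⟩
  have hfar : ∀ A B : Set G, Far (Cay S) κ A B → ∀ x ∈ A, ∀ y ∈ B, x⁻¹ * y ∉ F := by
    intro A B hAB x hx y hy hxy
    have h1 := hAB x hx y hy
    rw [fm1_dist_one hh] at h1
    exact absurd (hκ _ hxy) (not_le.2 h1)
  have hlink : ∀ A : Set G, FC (Cay S) A → ∀ x ∈ A, ∀ y ∈ A, Linked (S : Set G) A x y := by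
    intro A hA x hx y hy
    obtain ⟨p, hp⟩ := hA.walk hx hy
    exact oef8_linked p hp
  obtain ⟨A, P, hA, hP, hAA, hPP, hPA⟩ := h κ n
  have hd : ∀ u v : Fin n, u < v → ¬ (s(u, v) : Sym2 (Fin n)).IsDiag := by
    intro u v huv
    rw [Sym2.mk_isDiag_iff]
    exact huv.ne
  refine ⟨⟨A, fun u v => P s(u, v), ?_, ?_, ?_, ?_, ?_, ?_⟩⟩
  · intro v
    obtain ⟨x⟩ := (hA v).conn.nonempty
    exact ⟨x, x.2⟩
  · exact fun v => hlink _ (hA v)
  · intro u v huv
    obtain ⟨h1, h2⟩ := hP _ (hd u v huv)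
    obtain ⟨x, hx, hx'⟩ := h2 u (by simp)
    obtain ⟨y, hy, hy'⟩ := h2 v (by simp)
    exact ⟨x, hx', y, hy', hx, hy, hlink _ h1 x hx y hy⟩
  · exact fun u v huv => hfar _ _ (hAA u v huv)
  · intro u v u' v' huv huv' hne
    refine hfar _ _ (hPP _ _ (hd u v huv) (hd u' v' huv') ?_)
    intro he
    rw [Sym2.eq_iff] at he
    rcases he with ⟨rfl, rfl⟩ | ⟨rfl, rfl⟩
    · exact hne rfl
    · exact absurd huv (not_lt.2 huv'.le)
  · intro u v w huv hwu hwv
    refine hfar _ _ (hPA _ (hd u v huv) w ?_)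
    simp [hwu, hwv]

theorem act_cay (hgen : Subgroup.closure (S : Set G) = ⊤) {Q : Type v} [CommGroup Q]
    (j : Q →* G) (hj : Function.Injective j) :
    letI := MulAction.compHom G j
    Act (Cay S) Q (fun κ => {y | (Cay S).dist 1 y ≤ κ}.ncard) := by
  have hh := cayley_homog (S : Set G) S.finite_toSet hgen
  letI := MulAction.compHom G j
  have hiso : ∀ g x y : G, (Cay S).dist (g * x) (g * y) = (Cay S).dist x y :=
    fun g x y => hh.dist_smul g x y
  refine ⟨⟨hh.conn, fun x n => hh.ball_finite x n⟩, ?_, ?_, ?_⟩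
  · intro x κ
    have he : {y | (Cay S).dist x y ≤ κ} = (fun y => x * y) '' {y | (Cay S).dist 1 y ≤ κ} := by
      ext y
      constructor
      · intro hy
        refine ⟨x⁻¹ * y, ?_, by simp⟩
        have := hiso x 1 (x⁻¹ * y)
        rw [mul_one, mul_inv_cancel_left] at this
        change (Cay S).dist 1 (x⁻¹ * y) ≤ κ
        rw [← this]
        exact hy
      · rintro ⟨z, hz, rfl⟩
        change (Cay S).dist x (x * z) ≤ κ
        have := hiso x 1 z
        rw [mul_one] at this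
        rw [this]
        exact hz
    rw [he]
    exact Set.ncard_image_le (hh.ball_finite 1 κ)
  · intro a x y
    exact hiso (j a) x y
  · intro a x hx
    have h1 : j a * x = x := hx
    have h2 : j a = 1 := by simpa using h1
    exact hj (by rw [h2, map_one])

end

end Pool.Agent.Lib.MP_0f7bfe_al.QT
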