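import Pool.Agent.Lib.MP_0f7bfe_al.QT.Defs
import Pool.Agent.Lib.MP_0f7bfe_al.OE.F8

open scoped Pointwise

namespace Pool.Agent.Lib.MP_0f7bfe_al.QT

open Pool.Agent.Lib.MP_0f7bfe_al.OE

universe u v

section
variable {G : Type u} [Group G] {S : Finset G}

/-- HINT: `b κ` = the sum (or maximum) of `Nat.card (closure Y)` over the subsets `Y` of the finite
ball of radius `κ` around `1` in `G`. For `x : G` the injective homomorphism
`a ↦ x⁻¹ * j a * x` maps `{a | dist x (j a * x) ≤ κ}` onto a subset `Y` of that ball
(`dist x (j a * x) = dist 1 (x⁻¹ * j a * x)`), hence the closures have the same cardinality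
(`Subgroup.map_closure`, `Subgroup.equivMapOfInjective`). -/
theorem ordB_cay (hgen : Subgroup.closure (S : Set G) = ⊤) {Q : Type v} [CommGroup Q]
    (j : Q →* G) (hj : Function.Injective j) :
    letI := MulAction.compHom G j
    ∃ b, OrdB (Cay S) Q b := by
  letI := MulAction.compHom G j
  have hh : Homog G (Cay S) := cayley_homog (S : Set G) S.finite_toSet hgen
  classical
  have hfin : ∀ κ : ℕ, {y : G | (Cay S).dist 1 y ≤ κ}.Finite := fun κ => hh.ball_finite 1 κ
  refine ⟨fun κ => ∑ Y ∈ (hfin κ).toFinset.powerset,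
    Nat.card (Subgroup.closure ((Y : Finset G) : Set G)), ?_⟩
  intro x κ
  -- the injective homomorphism
  let f : Q →* G := (MulAut.conj x⁻¹).toMonoidHom.comp j
  have hf : ∀ a, f a = x⁻¹ * j a * x := fun a => by simp [f]
  have hfi : Function.Injective f := by
    intro a b hab
    rw [hf, hf] at hab
    exact hj (mul_left_cancel (mul_right_cancel hab))
  set D : Set Q := {a : Q | (Cay S).dist x (a • x) ≤ κ} with hD
  have hsub : f '' D ⊆ {y : G | (Cay S).dist 1 y ≤ κ} := by
    rintro _ ⟨a, ha, rfl⟩
    have ha' : (Cay S).dist x (j a * x) ≤ κ := ha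
    rw [fm1_dist_one hh] at ha'
    rw [Set.mem_ofPred_eq, hf, mul_assoc]
    exact ha'
  have hYf : (f '' D).Finite := (hfin κ).subset hsub
  have hY : hYf.toFinset ∈ (hfin κ).toFinset.powerset := by
    rw [Finset.mem_powerset]
    intro y hy
    rw [Set.Finite.mem_toFinset] at hy ⊢
    exact hsub hy
  have hcard : Nat.card (Subgroup.closure D) =
      Nat.card (Subgroup.closure ((hYf.toFinset : Finset G) : Set G)) := by
    rw [Set.Finite.coe_toFinset, ← MonoidHom.map_closure]
    exact Nat.card_congr (Subgroup.equivMapOfInjective _ f hfi).toEquiv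
  rw [hcard]
  exact Finset.single_le_sum
    (f := fun Y : Finset G => Nat.card (Subgroup.closure ((Y : Finset G) : Set G)))
    (fun _ _ => Nat.zero_le _) hY

/-- HINT: Mathlib has e.g. `CommGroup.finite_of_fg_torsion` (the closure of a finite set is
finitely generated). -/
theorem finite_closure {Q : Type v} [CommGroup Q] (ht : ∀ q : Q, IsOfFinOrder q) (s : Set Q)
    (hs : s.Finite) : Finite (Subgroup.closure s) := by
  have : Finite s := hs
  have : Group.FG (Subgroup.closure s) := Group.closure_finite_fg s
  apply CommGroup.finite_of_fg_isMulTorsion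
  intro q
  exact Submonoid.isOfFinOrder_coe.1 (ht q)

end

end Pool.Agent.Lib.MP_0f7bfe_al.QT
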