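import Pool.Agent.Lib.MP_0f7bfe_al.OE.B1

/-!
Definitions for the wave QT (problem MP_0f7bfe_al): groups with an infinite abelian torsion
subgroup.
-/

open scoped Pointwise

namespace Pool.Agent.Lib.MP_0f7bfe_al.QT

open Pool.Agent.Lib.MP_0f7bfe_al.OE

universe u v

section
variable {X : Type u} (Gr : SimpleGraph X) (A : Type v) [CommGroup A] [MulAction A X]

/-- free isometric action of `A` on a connected graph whose balls of radius `κ` have at most `w κ`
elements -/
structure Act (w : ℕ → ℕ) : Prop where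
  nice : Nice Gr
  ball : ∀ x κ, {y | Gr.dist x y ≤ κ}.ncard ≤ w κ
  iso : ∀ (a : A) (x y : X), Gr.dist (a • x) (a • y) = Gr.dist x y
  free : ∀ (a : A) (x : X), a • x = x → a = 1

/-- the elements which move `J` by at most `κ` (at some place) -/
def Dm (J : Set X) (κ : ℕ) : Set A := {a | ∃ x ∈ J, ∃ y ∈ J, Gr.dist x (a • y) ≤ κ}

/-- the subgroup generated by the elements which move `J` by at most `κ` -/
def Mm (J : Set X) (κ : ℕ) : Subgroup A := Subgroup.closure (Dm Gr A J κ)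

/-- the subgroups generated by elements moving a vertex by at most `κ` have order at most `b κ` -/
def OrdB (b : ℕ → ℕ) : Prop :=
  ∀ x κ, Nat.card (Subgroup.closure {a : A | Gr.dist x (a • x) ≤ κ}) ≤ b κ

/-- no long independent sequences of elements which move a finite connected set by little -/
def NoChain (K I : ℕ) : Prop :=
  ∀ σ : Set X, FC Gr σ → ∀ N0 : Subgroup A, Dm Gr A σ K ⊆ N0 → ∀ g : ℕ → A,
    (∀ i < I, g i ∈ Dm Gr A σ (2 * K * (I + 1))) →
    ∃ i < I, g i ∈ N0 ⊔ Subgroup.closure (g '' Set.Iio i)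

/-- a ray all of whose translates are synchronised: close points have close parameters -/
structure Spine (P : ℕ → X) : Prop where
  step : ∀ s, Gr.dist (P s) (P (s + 1)) ≤ 1
  lev : ∀ (a : A) (s s' : ℕ), s ≤ s' + Gr.dist (P s) (a • P s')

/-- distance from the orbit of `o` -/
noncomputable def lv (o x : X) : ℕ := ⨅ a : A, Gr.dist x (a • o)

/-- Decomposition of the spine `P` into pieces `P [a t, b t]`, separated by zones of length `z`;
the subgroup `Mm` of a piece does not change between the scales `2 * h t` and `2 * h t + 2 * K`,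
has index at least `N` and at most `N2`. -/
structure Pieces (P : ℕ → X) (K z N N2 : ℕ) where
  a : ℕ → ℕ
  b : ℕ → ℕ
  h : ℕ → ℕ
  a0 : a 0 = 0
  hab : ∀ t, a t + z ≤ b t
  hba : ∀ t, a (t + 1) = b t + z
  hz : ∀ t t', h t + h t' + K < z
  gap : ∀ t, Mm Gr A (P '' Set.Icc (a t) (b t)) (2 * h t + 2 * K) =
    Mm Gr A (P '' Set.Icc (a t) (b t)) (2 * h t)
  big : ∀ t, N * Nat.card (Mm Gr A (P '' Set.Icc (a t) (b t)) (2 * h t)) ≤ Nat.card A
  small : ∀ t, Nat.card A ≤ N2 * Nat.card (Mm Gr A (P '' Set.Icc (a t) (b t)) (2 * h t))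

/-- A tooth of the comb with spine `P`: a connector `C` from `P j` to the path `T`, the last part
`T''` of which reaches the pod `L`, which is invariant under `A`. -/
structure Tooth (P : ℕ → X) (o : X) (K κ lo hi : ℕ) where
  j : ℕ
  hlo : lo ≤ j
  hhi : j ≤ hi
  C : Set X
  T : Set X
  T' : Set X
  T'' : Set X
  L : Set X
  fcC : FC Gr C
  fcT : FC Gr T
  fcT' : FC Gr T'
  fcT'' : FC Gr T''
  fcL : FC Gr L
  mem : P j ∈ C
  near : ∀ x ∈ C, Gr.dist (P j) x ≤ κ + 1
  CT' : (C ∩ T').Nonempty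
  TT : (T' ∩ T'').Nonempty
  TL : (T'' ∩ L).Nonempty
  sub' : T' ⊆ T
  sub'' : T'' ⊆ T
  inv : ∀ (a : A), ∀ x ∈ L, a • x ∈ L
  farTP : ∀ x ∈ T, ∀ (a : A) (s : ℕ), κ < Gr.dist x (a • P s)
  farLP : ∀ x ∈ L, ∀ (a : A) (s : ℕ), 2 * κ + K + 1 < Gr.dist x (a • P s)
  farLT : ∀ x ∈ L, ∀ y ∈ T', K < Gr.dist x y
  close : ∀ x ∈ T, ∀ (a : A), ∀ z ∈ C, Gr.dist x (a • z) ≤ K → Gr.dist x (P j) ≤ 3 * κ + K + 1
  lev : ∀ x ∈ C ∪ T ∪ L, lo ≤ lv Gr A o x ∧ lv Gr A o x ≤ hi

variable {A}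

/-- the `r`-neighbourhood of the `c`-translates of `J`, for a coset `c` of `M` -/
def Blk (M : Subgroup A) (J : Set X) (r : ℕ) (c : A ⧸ M) : Set X :=
  {x | ∃ f : A, (f : A ⧸ M) = c ∧ x ∈ nb Gr r (f • J)}

end

end Pool.Agent.Lib.MP_0f7bfe_al.QT
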