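import Pool.Agent.Lib.MP_0f7bfe_al.QT.Defs

open scoped Pointwise

namespace Pool.Agent.Lib.MP_0f7bfe_al.QT

open Pool.Agent.Lib.MP_0f7bfe_al.OE

universe u v

section
variable {X : Type u} {Gr : SimpleGraph X} {A : Type v} [CommGroup A] [MulAction A X]
  {w b : ℕ → ℕ}

private theorem qt_f1_aux {N : ℕ} (R : Fin N → Fin N → Prop) (d : ℕ)
    (hR : ∀ i, {j | R i j}.ncard ≤ d) :
    ∀ (m : ℕ) (s : Finset (Fin N)), (2 * d + 1) * m ≤ s.card →
      ∃ t : Finset (Fin N), t ⊆ s ∧ t.card = m ∧ ∀ i ∈ t, ∀ j ∈ t, i ≠ j → ¬ R i j := by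
  classical
  have hout : ∀ (s : Finset (Fin N)) (i : Fin N), (s.filter (fun j => R i j)).card ≤ d := by
    intro s i
    have h1 : ((s.filter (fun j => R i j) : Finset (Fin N)) : Set (Fin N)) ⊆ {j | R i j} := by
      intro j hj
      simp only [Finset.coe_filter, Set.mem_ofPred_eq] at hj
      exact hj.2
    have h2 := Set.ncard_le_ncard h1 (Set.toFinite _)
    rw [Set.ncard_coe_finset] at h2
    exact h2.trans (hR i)
  intro m
  induction m with
  | zero =>
    intro s _
    exact ⟨∅, by simp, by simp, by simp⟩
  | succ m ih =>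
    intro s hs
    have hsne : s.Nonempty := by
      rw [← Finset.card_pos]
      have : 0 < (2 * d + 1) * (m + 1) := by positivity
      omega
    have hex : ∃ j ∈ s, (s.filter (fun i => R i j)).card ≤ d := by
      by_contra hcon
      push Not at hcon
      have h1 : ∑ j ∈ s, (s.filter (fun i => R i j)).card
          = ∑ i ∈ s, (s.filter (fun j => R i j)).card := by
        simp only [Finset.card_filter]
        exact Finset.sum_comm
      have h2 : ∑ i ∈ s, (s.filter (fun j => R i j)).card ≤ ∑ i ∈ s, d :=
        Finset.sum_le_sum (fun i _ => hout s i)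
      have h3 : ∑ j ∈ s, d < ∑ j ∈ s, (s.filter (fun i => R i j)).card :=
        Finset.sum_lt_sum_of_nonempty hsne (fun j hj => hcon j hj)
      omega
    obtain ⟨j, hjs, hj⟩ := hex
    set r : Finset (Fin N) := insert j (s.filter (fun i => R i j) ∪ s.filter (fun i => R j i))
      with hr
    have hrcard : r.card ≤ 2 * d + 1 := by
      rw [hr]
      refine (Finset.card_insert_le _ _).trans ?_
      have h1 := Finset.card_union_le (s.filter (fun i => R i j)) (s.filter (fun i => R j i))
      have h2 := hout s j
      omega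
    have hs' : (2 * d + 1) * m ≤ (s \ r).card := by
      have h1 := Finset.le_card_sdiff r s
      have h2 : (2 * d + 1) * (m + 1) = (2 * d + 1) * m + (2 * d + 1) := by ring
      omega
    obtain ⟨t, hts, htc, ht⟩ := ih (s \ r) hs'
    have hjt : j ∉ t := by
      intro h
      have := hts h
      simp [hr] at this
    refine ⟨insert j t, ?_, ?_, ?_⟩
    · intro x hx
      rcases Finset.mem_insert.1 hx with rfl | hx
      · exact hjs
      · exact (Finset.mem_sdiff.1 (hts hx)).1
    · rw [Finset.card_insert_of_notMem hjt, htc]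
    · intro x hx y hy hxy hRxy
      have hx1 := Finset.mem_insert.1 hx
      have hy1 := Finset.mem_insert.1 hy
      clear hx hy
      rcases hx1 with hxj | hx
      · rcases hy1 with hyj | hy
        · exact hxy (hxj.trans hyj.symm)
        · have h1 := Finset.mem_sdiff.1 (hts hy)
          apply h1.2
          rw [hxj] at hRxy
          simp [hr, h1.1, hRxy]
      · rcases hy1 with hyj | hy
        · have h1 := Finset.mem_sdiff.1 (hts hx)
          apply h1.2
          rw [hyj] at hRxy
          simp [hr, h1.1, hRxy]
        · exact ht x hx y hy hxy hRxy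

/-- HINT: induction on `m`: some vertex has in-degree `≤ d` (averaging: the number of pairs with
`R i j` is at most `N * d`); choose it, delete it and its at most `2 * d` in- and out-neighbours.
State the induction for a `Finset` of `Fin N`: if `(2 * d + 1) * m ≤ s.card` there is a subset of
`s` with `m` elements without `R`-related pairs. -/
theorem indep {N : ℕ} (R : Fin N → Fin N → Prop) (d m : ℕ) (hR : ∀ i, {j | R i j}.ncard ≤ d)
    (hN : (2 * d + 1) * m ≤ N) : ∃ e : Fin m ↪ Fin N, ∀ i j, i ≠ j → ¬ R (e i) (e j) := by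
  classical
  obtain ⟨t, _, htc, ht⟩ := qt_f1_aux R d hR m Finset.univ (by simpa using hN)
  refine ⟨(t.orderEmbOfFin htc).toEmbedding, ?_⟩
  intro i j hij
  apply ht
  · exact Finset.orderEmbOfFin_mem t htc i
  · exact Finset.orderEmbOfFin_mem t htc j
  · intro h
    exact hij ((t.orderEmbOfFin htc).injective h)

end

end Pool.Agent.Lib.MP_0f7bfe_al.QT
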