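import Pool.Agent.Lib.MP_0f7bfe_al.QT.Defs

open scoped Pointwise

namespace Pool.Agent.Lib.MP_0f7bfe_al.QT

open Pool.Agent.Lib.MP_0f7bfe_al.OE

universe u v

section
variable {X : Type u} {Gr : SimpleGraph X} {A : Type v} [CommGroup A] [MulAction A X]
  {w b : ℕ → ℕ}

private theorem qt_f2_one {m N : ℕ} {γ : Type*} (g : Fin N → γ) (hN : m * m ≤ N) :
    ∃ e : Fin m ↪ Fin N,
      (∀ i j, g (e i) = g (e j)) ∨ (∀ i j, i ≠ j → g (e i) ≠ g (e j)) := by
  classical
  rcases Nat.eq_zero_or_pos m with hm | hm
  · subst hm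
    exact ⟨⟨fun i => i.elim0, fun i => i.elim0⟩, Or.inl (fun i => i.elim0)⟩
  by_cases hex : ∃ y : γ, m ≤ (Finset.univ.filter (fun i => g i = y)).card
  · obtain ⟨y, hy⟩ := hex
    have : Nonempty (Fin m ↪ {i // i ∈ Finset.univ.filter (fun i => g i = y)}) := by
      apply Function.Embedding.nonempty_of_card_le
      rw [Fintype.card_fin, Fintype.card_coe]
      exact hy
    obtain ⟨e⟩ := this
    refine ⟨e.trans (Function.Embedding.subtype _), Or.inl ?_⟩
    intro i j
    have h1 := (Finset.mem_filter.mp (e i).2).2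
    have h2 := (Finset.mem_filter.mp (e j).2).2
    exact h1.trans h2.symm
  · push Not at hex
    have h1 : (Finset.univ : Finset (Fin N)).card ≤ m * (Finset.univ.image g).card := by
      refine Finset.card_le_mul_card_image _ m ?_
      intro y _
      exact (hex y).le
    have h2 : m ≤ (Finset.univ.image g).card := by
      rw [Finset.card_univ, Fintype.card_fin] at h1
      exact Nat.le_of_mul_le_mul_left (hN.trans h1) hm
    have : Nonempty (Fin m ↪ {y // y ∈ Finset.univ.image g}) := by
      apply Function.Embedding.nonempty_of_card_le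
      rw [Fintype.card_fin, Fintype.card_coe]
      exact h2
    obtain ⟨e⟩ := this
    have hs : ∀ i : Fin m, ∃ x : Fin N, g x = (e i).1 := by
      intro i
      obtain ⟨x, _, hx⟩ := Finset.mem_image.mp (e i).2
      exact ⟨x, hx⟩
    choose s hs using hs
    have hinj : Function.Injective s := by
      intro i j hij
      apply e.injective
      apply Subtype.ext
      rw [← hs i, ← hs j, hij]
    refine ⟨⟨s, hinj⟩, Or.inr ?_⟩
    intro i j hij heq
    apply hij
    apply e.injective
    apply Subtype.ext
    rw [← hs i, ← hs j]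
    exact heq

/-- HINT: induction on `k`. For `k = 0` use `Fin.castLE`. For `k + 1`: `N ≥ (n ^ 2^k) ^ 2`, so either
`c (last)` takes at least `n ^ 2^k` values (choose representatives: an embedding
`Fin (n ^ 2^k) ↪ Fin N` on which it is injective) or some value is taken at least `n ^ 2^k` times
(an embedding on which it is constant); restrict the other `c t` to it and use the induction
hypothesis. -/
theorem const_or_inj {n k N : ℕ} {γ : Fin k → Type*} (c : ∀ t, Fin N → γ t)
    (hN : n ^ (2 ^ k) ≤ N) : ∃ e : Fin n ↪ Fin N,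
      ∀ t, (∀ i j, c t (e i) = c t (e j)) ∨ (∀ i j, i ≠ j → c t (e i) ≠ c t (e j)) := by
  induction k generalizing N with
  | zero =>
    refine ⟨Fin.castLEEmb (by simpa using hN), fun t => t.elim0⟩
  | succ k ih =>
    have hN' : n ^ (2 ^ k) * n ^ (2 ^ k) ≤ N := by
      rw [← pow_add]
      have : 2 ^ k + 2 ^ k = 2 ^ (k + 1) := by ring
      rw [this]
      exact hN
    obtain ⟨e1, he1⟩ := qt_f2_one (c (Fin.last k)) hN'
    obtain ⟨e2, he2⟩ := ih (γ := fun t : Fin k => γ t.castSucc)
      (fun t i => c t.castSucc (e1 i)) le_rfl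
    refine ⟨e2.trans e1, ?_⟩
    intro t
    refine Fin.lastCases ?_ ?_ t
    · rcases he1 with he1 | he1
      · exact Or.inl fun i j => he1 _ _
      · exact Or.inr fun i j hij => he1 _ _ (fun h => hij (e2.injective h))
    · intro t
      rcases he2 t with he | he
      · exact Or.inl fun i j => he _ _
      · exact Or.inr fun i j hij => he _ _ hij

end

end Pool.Agent.Lib.MP_0f7bfe_al.QT
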