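import Pool.Agent.Lib.MP_0f7bfe_al.QT.Defs

open scoped Pointwise

namespace Pool.Agent.Lib.MP_0f7bfe_al.QT

open Pool.Agent.Lib.MP_0f7bfe_al.OE

universe u v

section
variable {X : Type u} {Gr : SimpleGraph X} {A : Type v} [CommGroup A] [MulAction A X]
  {w b : ℕ → ℕ}

/-- HINT: finite union of finite sets; connectivity by induction on the `ReflTransGen` chain (any
point of `S i` is reachable from a point of `S i0` inside the union; `SimpleGraph.Reachable` in
`Gr.induce (⋃ i, S i)`). `FC.union` of OE/B1 may help: induct on the chain with a finite union. -/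
theorem fc_iUnion {ι : Type*} [Finite ι] (S : ι → Set X) (i0 : ι) (hS : ∀ i, FC Gr (S i))
    (hc : ∀ i, Relation.ReflTransGen (fun i j => (S i ∩ S j).Nonempty) i0 i) :
    FC Gr (⋃ i, S i) := by
  classical
  refine ⟨Set.finite_iUnion fun i => (hS i).fin, ?_⟩
  have hsub : ∀ i, S i ⊆ ⋃ i, S i := fun i => Set.subset_iUnion S i
  -- points of the same piece are connected in the union
  have h1 : ∀ i (x y : X) (hx : x ∈ S i) (hy : y ∈ S i),
      (Gr.induce (⋃ i, S i)).Reachable ⟨x, hsub i hx⟩ ⟨y, hsub i hy⟩ := by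
    intro i x y hx hy
    have h := (hS i).conn.preconnected ⟨x, hx⟩ ⟨y, hy⟩
    exact h.map (SimpleGraph.induceHomOfLE Gr (hsub i)).toHom
  obtain ⟨⟨x0, hx0⟩⟩ := (hS i0).conn.nonempty
  have h2 : ∀ i, ∃ (x : X) (hx : x ∈ S i),
      (Gr.induce (⋃ i, S i)).Reachable ⟨x0, hsub i0 hx0⟩ ⟨x, hsub i hx⟩ := by
    intro i
    induction hc i with
    | refl => exact ⟨x0, hx0, SimpleGraph.Reachable.refl _⟩
    | tail _ hbc ih =>
      obtain ⟨x, hx, hr⟩ := ih
      obtain ⟨y, hy1, hy2⟩ := hbc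
      exact ⟨y, hy2, hr.trans (h1 _ x y hx hy1)⟩
  have h3 : ∀ z : (⋃ i, S i : Set X),
      (Gr.induce (⋃ i, S i)).Reachable ⟨x0, hsub i0 hx0⟩ z := by
    rintro ⟨z, hz⟩
    obtain ⟨i, hi⟩ := Set.mem_iUnion.mp hz
    obtain ⟨x, hx, hr⟩ := h2 i
    exact hr.trans (h1 i x z hx hi)
  have : Nonempty (⋃ i, S i : Set X) := ⟨⟨x0, hsub i0 hx0⟩⟩
  exact SimpleGraph.Connected.mk fun a b => (h3 a).symm.trans (h3 b)

end

end Pool.Agent.Lib.MP_0f7bfe_al.QT
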