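import Pool.Agent.Lib.MP_0f7bfe_al.QT.G2

open scoped Pointwise

namespace Pool.Agent.Lib.MP_0f7bfe_al.QT

open Pool.Agent.Lib.MP_0f7bfe_al.OE

universe u v

section
variable {X : Type u} {Gr : SimpleGraph X} {A : Type v} [CommGroup A] [MulAction A X]
  {w b : ℕ → ℕ}

/-- HINT: `nb Gr r J` is the union of `J` and the balls `{y | dist x y ≤ r}`, `x ∈ J`
(`fc_ball`, `fc_iUnion` with index type `Option J` or `J` plus connectivity of `J`; or directly:
every point of the neighbourhood is joined to a point of `J` inside a ball). -/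
theorem fc_nb (hN : Nice Gr) {J : Set X} (hJ : FC Gr J) (r : ℕ) : FC Gr (nb Gr r J) := by
  have key : ∀ F : Set X, F.Finite → F ⊆ J → FC Gr (J ∪ ⋃ x ∈ F, {y | Gr.dist x y ≤ r}) := by
    intro F hF
    induction F, hF using Set.Finite.induction_on with
    | empty =>
      intro _
      simpa using hJ
    | @insert a F _ _ ih =>
      intro hsub
      have h1 := ih ((Set.subset_insert a F).trans hsub)
      have haJ : a ∈ J := hsub (Set.mem_insert a F)
      have h2 : J ∪ ⋃ x ∈ insert a F, {y | Gr.dist x y ≤ r} =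
          (J ∪ ⋃ x ∈ F, {y | Gr.dist x y ≤ r}) ∪ {y | Gr.dist a y ≤ r} := by
        rw [Set.biUnion_insert, Set.union_comm {y | Gr.dist a y ≤ r}, ← Set.union_assoc]
      rw [h2]
      exact h1.union (fc_ball hN a r) ⟨a, Or.inl haJ, by simp⟩
  have h3 := key J hJ.fin subset_rfl
  have h4 : nb Gr r J = J ∪ ⋃ x ∈ J, {y | Gr.dist x y ≤ r} := by
    ext y
    simp only [nb, Set.mem_setOf_eq, Set.mem_union, Set.mem_iUnion, exists_prop]
    constructor
    · intro h
      exact Or.inr h
    · rintro (h | h)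
      · exact ⟨y, h, by simp⟩
      · exact h
  rw [h4]
  exact h3

end

end Pool.Agent.Lib.MP_0f7bfe_al.QT
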