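import Pool.Agent.Lib.MP_0f7bfe_al.QT.G1
import Pool.Agent.Lib.MP_0f7bfe_al.QT.G2
import Pool.Agent.Lib.MP_0f7bfe_al.QT.G3

open scoped Pointwise

namespace Pool.Agent.Lib.MP_0f7bfe_al.QT

open Pool.Agent.Lib.MP_0f7bfe_al.OE

universe u v

section
variable {X : Type u} {Gr : SimpleGraph X} {A : Type v} [CommGroup A] [MulAction A X]
  {w b : ℕ → ℕ}

private theorem qt_g4_mid (hN : Nice Gr) {x y : X} {r : ℕ} (hd : Gr.dist x y ≤ 2 * r) :
    ∃ z, Gr.dist x z ≤ r ∧ Gr.dist y z ≤ r := by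
  obtain ⟨p, hp⟩ := hN.conn.exists_walk_length_eq_dist x y
  refine ⟨p.getVert r, ?_, ?_⟩
  · have := SimpleGraph.dist_le (p.take r)
    refine this.trans ?_
    rw [SimpleGraph.Walk.take_length]
    exact min_le_left _ _
  · have := SimpleGraph.dist_le (p.drop r)
    rw [SimpleGraph.Walk.drop_length] at this
    rw [SimpleGraph.dist_comm]
    omega

/-- HINT: choose `f0` with `(f0 : A ⧸ M) = c`. Then `Blk = ⋃ g : M, nb Gr r ((f0 * g) • J)`
(cosets: `QuotientGroup.eq`, `f0⁻¹ * f ∈ M`). Use `fc_iUnion` with index type `M` (finite), each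
member is `FC` by `fc_nb` and `fc_smul`. Chain: `M = closure (Dm J κ)`; for `g ∈ M` and
`d ∈ Dm J κ` the sets of `g` and of `g * d` meet: there are `x y ∈ J` with
`dist x (d • y) ≤ κ ≤ 2 * r`, so some `z` (on a geodesic) has `dist x z ≤ r`,
`dist z (d • y) ≤ r`, and `(f0 * g) • z` is in both neighbourhoods. Then
`Subgroup.closure_induction_right` (or `closure_induction`) gives the chain; `Dm` is closed under
inverses (isometry), or treat `d⁻¹` by symmetry of the relation. -/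
theorem fc_blk (h : Act Gr A w) [Finite A] {J : Set X} (hJ : FC Gr J) {r κ : ℕ}
    (hκ : κ ≤ 2 * r) (M : Subgroup A) (hM : M = Mm Gr A J κ) (c : A ⧸ M) :
    FC Gr (Blk Gr M J r c) := by
  obtain ⟨f0, rfl⟩ := QuotientGroup.mk_surjective c
  have h1 : Blk Gr M J r (f0 : A ⧸ M) = ⋃ g : M, nb Gr r ((f0 * (g : A)) • J) := by
    ext x
    simp only [Blk, Set.mem_ofPred_eq, Set.mem_iUnion]
    constructor
    · rintro ⟨f, hf, hx⟩
      rw [eq_comm, QuotientGroup.eq] at hf
      exact ⟨⟨f0⁻¹ * f, hf⟩, by simpa using hx⟩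
    · rintro ⟨g, hx⟩
      exact ⟨f0 * g, by simp, hx⟩
  rw [h1]
  refine fc_iUnion _ (1 : M) (fun g => fc_nb h.nice (fc_smul h hJ _) r) ?_
  have key : ∀ (g d : A), d ∈ Dm Gr A J κ →
      (nb Gr r ((f0 * g) • J) ∩ nb Gr r ((f0 * (g * d)) • J)).Nonempty := by
    rintro g d ⟨x, hx, y, hy, hd⟩
    obtain ⟨z, hz1, hz2⟩ := qt_g4_mid h.nice (hd.trans hκ)
    refine ⟨(f0 * g) • z, ⟨(f0 * g) • x, Set.smul_mem_smul_set hx, ?_⟩,
      ⟨(f0 * (g * d)) • y, Set.smul_mem_smul_set hy, ?_⟩⟩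
    · rw [h.iso]; exact hz1
    · rw [← mul_assoc, mul_smul (f0 * g) d y, h.iso]; exact hz2
  have main : ∀ g (_ : g ∈ Subgroup.closure (Dm Gr A J κ)), ∀ hg : g ∈ M,
      Relation.ReflTransGen (fun i j : M => (nb Gr r ((f0 * (i : A)) • J) ∩
        nb Gr r ((f0 * (j : A)) • J)).Nonempty) 1 ⟨g, hg⟩ := by
    intro g hg
    have hMc : ∀ x, x ∈ Subgroup.closure (Dm Gr A J κ) → x ∈ M := by
      intro x hx; rw [hM]; exact hx
    induction hg using Subgroup.closure_induction_right with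
    | one => intro _; exact Relation.ReflTransGen.refl
    | mul_right x hx y hy ih =>
      intro hg
      refine (ih (hMc x hx)).tail ?_
      exact key x y hy
    | mul_inv_cancel x hx y hy ih =>
      intro hg
      refine (ih (hMc x hx)).tail ?_
      have := key (x * y⁻¹) y hy
      rw [inv_mul_cancel_right, Set.inter_comm] at this
      exact this
  intro g
  have hg : (g : A) ∈ Subgroup.closure (Dm Gr A J κ) := (hM.le : M ≤ Mm Gr A J κ) g.2
  exact main g hg g.2

end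

end Pool.Agent.Lib.MP_0f7bfe_al.QT
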