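import Pool.Agent.Lib.MP_0f7bfe_al.QT.Defs

open scoped Pointwise

namespace Pool.Agent.Lib.MP_0f7bfe_al.QT

open Pool.Agent.Lib.MP_0f7bfe_al.OE

universe u v

section
variable {X : Type u} {Gr : SimpleGraph X} {A : Type v} [CommGroup A] [MulAction A X]
  {w b : ℕ → ℕ}

theorem lv_le (o x : X) (a : A) : lv Gr A o x ≤ Gr.dist x (a • o) := by
  unfold lv
  exact ciInf_le (OrderBot.bddBelow _) a

theorem le_lv {o x : X} {d : ℕ} (hd : ∀ a : A, d ≤ Gr.dist x (a • o)) : d ≤ lv Gr A o x := by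
  unfold lv
  exact le_ciInf hd

private theorem qt_t3_exists (o x : X) : ∃ a : A, Gr.dist x (a • o) = lv Gr A o x := by
  unfold lv
  exact Nat.sInf_mem (Set.range_nonempty _)

theorem lv_lip (h : Act Gr A w) (o x y : X) : lv Gr A o x ≤ lv Gr A o y + Gr.dist x y := by
  obtain ⟨a, ha⟩ := qt_t3_exists (Gr := Gr) (A := A) o y
  have h1 := lv_le (Gr := Gr) (A := A) o x a
  have h2 : Gr.dist x (a • o) ≤ Gr.dist x y + Gr.dist y (a • o) := h.nice.conn.dist_triangle
  omega

theorem lv_smul (h : Act Gr A w) (o x : X) (a : A) : lv Gr A o (a • x) = lv Gr A o x := by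
  refine le_antisymm ?_ ?_
  · obtain ⟨c, hc⟩ := qt_t3_exists (Gr := Gr) (A := A) o x
    have h1 := lv_le (Gr := Gr) (A := A) o (a • x) (a * c)
    rw [mul_smul, h.iso, hc] at h1
    exact h1
  · obtain ⟨c, hc⟩ := qt_t3_exists (Gr := Gr) (A := A) o (a • x)
    have h1 := lv_le (Gr := Gr) (A := A) o x (a⁻¹ * c)
    rw [mul_smul, ← h.iso a, smul_inv_smul, hc] at h1
    exact h1

theorem act_sub {Q : Type v} [CommGroup Q] [MulAction Q X] (h : Act Gr Q w) (F : Subgroup Q) :
    Act Gr F w := by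
  refine ⟨h.nice, h.ball, fun a x y => h.iso (a : Q) x y, fun a x hx => ?_⟩
  exact Subtype.ext (h.free (a : Q) x hx)

private theorem qt_t3_fin {Q : Type v} [CommGroup Q] [MulAction Q X] (h : Act Gr Q w) (x : X)
    (κ : ℕ) : {a : Q | Gr.dist x (a • x) ≤ κ}.Finite := by
  refine Set.Finite.of_finite_image (f := fun a : Q => a • x)
    ((h.nice.ball x κ).subset ?_) ?_
  · rintro y ⟨a, ha, rfl⟩
    exact ha
  · intro a _ c _ hac
    have h1 : (c⁻¹ * a) • x = x := by
      rw [mul_smul]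
      have h2 : a • x = c • x := hac
      rw [h2, inv_smul_smul]
    have h3 := h.free _ _ h1
    exact (inv_mul_eq_one.1 h3).symm

/-- HINT: the closure in `F` of `{a : F | ..}` embeds into the closure in `Q` of
`{a : Q | dist x (a • x) ≤ κ}`, which is a finite set (freeness), so its closure is finite by
`hT`. -/
theorem ordB_sub {Q : Type v} [CommGroup Q] [MulAction Q X] (h : Act Gr Q w)
    (hT : ∀ s : Set Q, s.Finite → Finite (Subgroup.closure s)) (hb : OrdB Gr Q b)
    (F : Subgroup Q) : OrdB Gr F b := by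
  intro x κ
  refine le_trans ?_ (hb x κ)
  have : Finite (Subgroup.closure {a : Q | Gr.dist x (a • x) ≤ κ}) := hT _ (qt_t3_fin h x κ)
  have hle : ∀ a ∈ Subgroup.closure {a : F | Gr.dist x (a • x) ≤ κ},
      (a : Q) ∈ Subgroup.closure {a : Q | Gr.dist x (a • x) ≤ κ} := by
    intro a ha
    have h1 : Subgroup.closure {a : F | Gr.dist x (a • x) ≤ κ} ≤
        (Subgroup.closure {a : Q | Gr.dist x (a • x) ≤ κ}).comap F.subtype := by
      rw [Subgroup.closure_le]
      intro c hc
      exact Subgroup.subset_closure hc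
    exact h1 ha
  refine Nat.card_le_card_of_injective
    (fun a : Subgroup.closure {a : F | Gr.dist x (a • x) ≤ κ} =>
      (⟨((a : F) : Q), hle a a.2⟩ : Subgroup.closure {a : Q | Gr.dist x (a • x) ≤ κ})) ?_
  intro a c hac
  have h2 : (((a : F) : Q)) = ((c : F) : Q) := by
    have h3 := Subtype.ext_iff.1 hac
    exact h3
  exact Subtype.ext (Subtype.ext h2)

end

end Pool.Agent.Lib.MP_0f7bfe_al.QT
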