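import Pool.Agent.Lib.MP_0f7bfe_al.QT.G1
import Pool.Agent.Lib.MP_0f7bfe_al.QT.G4
import Pool.Agent.Lib.MP_0f7bfe_al.QT.T3

open scoped Pointwise

namespace Pool.Agent.Lib.MP_0f7bfe_al.QT

open Pool.Agent.Lib.MP_0f7bfe_al.OE

universe u v

section
variable {X : Type u} {Gr : SimpleGraph X} {A : Type v} [CommGroup A] [MulAction A X]
  {w b : ℕ → ℕ}

/-- HINT: `E i = {f i • P T.j}`, `P' i = f i • T.C`, `H = Blk Gr (Mm Gr A T.T K) T.T K c`, `c` the
common class of the `f i` (`fc_blk` with `κ := K`, `r := K`). All points of `P' i` are within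
`κ + 1` of `f i • P T.j ∈ V i`. Far: `P' i, E i` vs `P' j, E j, V j` by `hball`; `H` vs `V i`: a
point of `H` is within `K` of some `f • t`, `t ∈ T.T`, a point of `V i` within `hI` of `a • P s`, and
`dist (f • t) (a • P s) > κ ≥ hI + 2 * K` by `farTP`; `H` vs `E i` is similar. `P' i` meets `H` in a
point of `f i • (T.C ∩ T.T)` (`CT'`, `sub'`). Levels: `T.lev`, `lv_smul`, `lv_lip`. -/
theorem tooth_tokens_const (h : Act Gr A w) [Finite A] {P : ℕ → X} (hP : Spine Gr A P) {o : X}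
    {K κ lo hi : ℕ} (T : Tooth Gr A P o K κ lo hi) {hI n : ℕ} (hn : 0 < n)
    (hκ : hI + 2 * K ≤ κ)
    (V : Fin n → Set X) (hVP : ∀ i, ∀ x ∈ V i, ∃ (a : A) (s : ℕ), Gr.dist x (a • P s) ≤ hI)
    (f : Fin n → A) (hf : ∀ i, f i • P T.j ∈ V i)
    (hball : ∀ i j, i ≠ j → ∀ x ∈ V j, 4 * κ + 3 * K + 3 < Gr.dist (f i • P T.j) x)
    (hM : ∀ i j, (f i : A ⧸ Mm Gr A T.T K) = f j) :
    ∃ (E P' : Fin n → Set X) (H : Set X), (∀ i, FC Gr (E i)) ∧ (∀ i, f i • P T.j ∈ E i) ∧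
      (∀ i, FC Gr (P' i)) ∧ FC Gr H ∧ (∀ i, (P' i ∩ E i).Nonempty) ∧
      (∀ i, (P' i ∩ H).Nonempty) ∧
      (∀ i j, i ≠ j → Far Gr K (E i) (E j) ∧ Far Gr K (E i) (V j) ∧ Far Gr K (P' i) (P' j) ∧
        Far Gr K (P' i) (V j) ∧ Far Gr K (P' i) (E j)) ∧
      (∀ i, Far Gr K H (V i) ∧ Far Gr K H (E i)) ∧
      (∀ x, (∃ i, x ∈ E i) ∨ (∃ i, x ∈ P' i) ∨ x ∈ H →
        lo ≤ lv Gr A o x + K ∧ lv Gr A o x ≤ hi + K) := by
  have tri : ∀ x y z : X, Gr.dist x z ≤ Gr.dist x y + Gr.dist y z := fun x y z =>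
    h.nice.conn.dist_triangle
  have sym : ∀ x y : X, Gr.dist x y = Gr.dist y x := fun x y => SimpleGraph.dist_comm
  -- points of `f i • C`
  have hPnear : ∀ i, ∀ x ∈ f i • T.C, Gr.dist (f i • P T.j) x ≤ κ + 1 := by
    intro i x hx
    obtain ⟨y, hy, rfl⟩ := Set.mem_smul_set.1 hx
    rw [h.iso]
    exact T.near y hy
  have hPmem : ∀ i, f i • P T.j ∈ f i • T.C := fun i => Set.smul_mem_smul_set T.mem
  let c : A ⧸ Mm Gr A T.T K := (f ⟨0, hn⟩ : A ⧸ Mm Gr A T.T K)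
  have hHmem : ∀ x ∈ Blk Gr (Mm Gr A T.T K) T.T K c, ∃ (g : A) (t : X), t ∈ T.T ∧
      Gr.dist (g • t) x ≤ K := by
    rintro x ⟨g, -, y, hy, hxy⟩
    obtain ⟨t, ht, rfl⟩ := Set.mem_smul_set.1 hy
    exact ⟨g, t, ht, hxy⟩
  have hHfar : ∀ x ∈ Blk Gr (Mm Gr A T.T K) T.T K c, ∀ (a : A) (s : ℕ),
      κ < Gr.dist x (a • P s) + K := by
    intro x hx a s
    obtain ⟨g, t, ht, hd⟩ := hHmem x hx
    have h1 := T.farTP t ht (g⁻¹ * a) s
    rw [← h.iso g, smul_smul, mul_inv_cancel_left] at h1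
    have h2 := tri (g • t) x (a • P s)
    omega
  refine ⟨fun i => {f i • P T.j}, fun i => f i • T.C, Blk Gr (Mm Gr A T.T K) T.T K c,
    fun i => fc_singleton _, fun i => rfl, fun i => fc_smul h T.fcC _,
    fc_blk h T.fcT (by omega) _ rfl c, fun i => ⟨_, hPmem i, rfl⟩, ?_, ?_, ?_, ?_⟩
  · intro i
    obtain ⟨x, hx1, hx2⟩ := T.CT'
    refine ⟨f i • x, Set.smul_mem_smul_set hx1, f i, hM _ _, f i • x,
      Set.smul_mem_smul_set (T.sub' hx2), ?_⟩
    simp
  · intro i j hij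
    have hij' := hball i j hij
    have hE : 4 * κ + 3 * K + 3 < Gr.dist (f i • P T.j) (f j • P T.j) := hij' _ (hf j)
    refine ⟨?_, ?_, ?_, ?_, ?_⟩
    · rintro x rfl y rfl
      omega
    · rintro x rfl y hy
      have := hij' y hy
      omega
    · intro x hx y hy
      have h1 := hPnear i x hx
      have h2 := hPnear j y hy
      have h3 := tri (f i • P T.j) x (f j • P T.j)
      have h4 := tri x y (f j • P T.j)
      rw [sym y] at h4
      omega
    · intro x hx y hy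
      have h1 := hPnear i x hx
      have h2 := hij' y hy
      have h3 := tri (f i • P T.j) x y
      omega
    · rintro x hx y rfl
      have h1 := hPnear i x hx
      have h3 := tri (f i • P T.j) x (f j • P T.j)
      omega
  · intro i
    constructor
    · intro x hx y hy
      obtain ⟨a, s, hd⟩ := hVP i y hy
      have h1 := hHfar x hx a s
      have h2 := tri x y (a • P s)
      omega
    · rintro x hx y rfl
      have h1 := hHfar x hx (f i) T.j
      omega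
  · rintro x (⟨i, rfl⟩ | ⟨i, hx⟩ | hx)
    · rw [lv_smul h]
      have := T.lev (P T.j) (Or.inl (Or.inl T.mem))
      omega
    · obtain ⟨y, hy, rfl⟩ := Set.mem_smul_set.1 hx
      rw [lv_smul h]
      have := T.lev y (Or.inl (Or.inl hy))
      omega
    · obtain ⟨g, t, ht, hd⟩ := hHmem x hx
      have h1 := T.lev t (Or.inl (Or.inr ht))
      have h2 := lv_lip h o (g • t) x
      have h3 := lv_lip h o x (g • t)
      rw [lv_smul h] at h2 h3
      rw [sym x] at h3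
      omega

end

end Pool.Agent.Lib.MP_0f7bfe_al.QT
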