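import Pool.Agent.Lib.MP_0f7bfe_al.QT.G1
import Pool.Agent.Lib.MP_0f7bfe_al.QT.T3

open scoped Pointwise

namespace Pool.Agent.Lib.MP_0f7bfe_al.QT

open Pool.Agent.Lib.MP_0f7bfe_al.OE

universe u v

section
variable {X : Type u} {Gr : SimpleGraph X} {A : Type v} [CommGroup A] [MulAction A X]
  {w b : ℕ → ℕ}

/-- HINT: `E i = f i • (T.C ∪ T.T')` (`FC.union`, `fc_smul`), `P' i = f i • T.T''`, `H = T.L`.
Far for `i ≠ j`: `f i • C` vs `f j • C`, `V j`: by `near` and `hball` (`f j • P T.j ∈ V j`);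
`f i • T` (`T'`, `T''` are subsets) vs `f j • C`: by `close` the point of `f i • T` is within
`3κ+K+1` of `f i • P T.j`, so `dist (f i • P T.j) (f j • P T.j) ≤ 3κ+K+1 + K + κ+1`, contradiction;
`f i • T` vs `f j • T`: `(f i)⁻¹ * f j ∈ Dm T K` would give equal classes; `f i • T` vs `V j`:
`farTP` and `hVP`. `H = L` vs `V i`: `farLP` and `hVP`; `L` vs `f i • C`: `farLP` and `near`
(`f i • P T.j`), `L` vs `f i • T'`: `farLT` and `inv`. `P' i` meets `H`: `TL`, `inv`. -/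
theorem tooth_tokens_inj (h : Act Gr A w) [Finite A] {P : ℕ → X} (hP : Spine Gr A P) {o : X}
    {K κ lo hi : ℕ} (T : Tooth Gr A P o K κ lo hi) {hI n : ℕ} (hn : 0 < n)
    (hκ : hI + 2 * K ≤ κ)
    (V : Fin n → Set X) (hVP : ∀ i, ∀ x ∈ V i, ∃ (a : A) (s : ℕ), Gr.dist x (a • P s) ≤ hI)
    (f : Fin n → A) (hf : ∀ i, f i • P T.j ∈ V i)
    (hball : ∀ i j, i ≠ j → ∀ x ∈ V j, 4 * κ + 3 * K + 3 < Gr.dist (f i • P T.j) x)
    (hM : ∀ i j, i ≠ j → (f i : A ⧸ Mm Gr A T.T K) ≠ f j) :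
    ∃ (E P' : Fin n → Set X) (H : Set X), (∀ i, FC Gr (E i)) ∧ (∀ i, f i • P T.j ∈ E i) ∧
      (∀ i, FC Gr (P' i)) ∧ FC Gr H ∧ (∀ i, (P' i ∩ E i).Nonempty) ∧
      (∀ i, (P' i ∩ H).Nonempty) ∧
      (∀ i j, i ≠ j → Far Gr K (E i) (E j) ∧ Far Gr K (E i) (V j) ∧ Far Gr K (P' i) (P' j) ∧
        Far Gr K (P' i) (V j) ∧ Far Gr K (P' i) (E j)) ∧
      (∀ i, Far Gr K H (V i) ∧ Far Gr K H (E i)) ∧
      (∀ x, (∃ i, x ∈ E i) ∨ (∃ i, x ∈ P' i) ∨ x ∈ H →
        lo ≤ lv Gr A o x + K ∧ lv Gr A o x ≤ hi + K) := by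
  have hconn : Gr.Connected := h.nice.conn
  -- translates
  have tr : ∀ (a a' : A) (x y : X), Gr.dist (a • x) (a' • y) = Gr.dist x ((a⁻¹ * a') • y) := by
    intro a a' x y
    rw [← h.iso a x ((a⁻¹ * a') • y), smul_smul, mul_inv_cancel_left]
  have tr1 : ∀ (a : A) (x y : X), Gr.dist (a • x) y = Gr.dist x (a⁻¹ • y) := by
    intro a x y
    rw [← h.iso a x (a⁻¹ • y), smul_inv_smul]
  have tri : ∀ x y z : X, Gr.dist x z ≤ Gr.dist x y + Gr.dist y z := fun x y z =>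
    hconn.dist_triangle
  have sy : ∀ x y : X, Gr.dist x y = Gr.dist y x := fun x y => SimpleGraph.dist_comm
  -- basic facts
  have cc : ∀ i j, i ≠ j → ∀ c ∈ T.C, ∀ c' ∈ T.C, K < Gr.dist (f i • c) (f j • c') := by
    intro i j hij c hc c' hc'
    have h1 := hball i j hij _ (hf j)
    have h2 := T.near c hc
    have h3 := T.near c' hc'
    rw [← h.iso (f i)] at h2
    rw [← h.iso (f j)] at h3
    have h4 := tri (f i • P T.j) (f i • c) (f j • P T.j)
    have h5 := tri (f i • c) (f j • c') (f j • P T.j)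
    rw [sy (f j • c')] at h5
    omega
  have tc : ∀ i j, i ≠ j → ∀ t ∈ T.T, ∀ c ∈ T.C, K < Gr.dist (f i • t) (f j • c) := by
    intro i j hij t ht c hc
    by_contra hcon
    push Not at hcon
    have h0 := hcon
    rw [tr] at h0
    have h1 := T.close t ht _ c hc h0
    rw [← h.iso (f i)] at h1
    have h2 := hball i j hij _ (hf j)
    have h3 := T.near c hc
    rw [← h.iso (f j)] at h3
    have h4 := tri (f i • P T.j) (f i • t) (f j • P T.j)
    have h5 := tri (f i • t) (f j • c) (f j • P T.j)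
    rw [sy (f j • c)] at h5
    rw [sy (f i • P T.j) (f i • t)] at h4
    omega
  have tt : ∀ i j, i ≠ j → ∀ t ∈ T.T, ∀ t' ∈ T.T, K < Gr.dist (f i • t) (f j • t') := by
    intro i j hij t ht t' ht'
    by_contra hcon
    push Not at hcon
    rw [tr] at hcon
    apply hM i j hij
    apply QuotientGroup.eq.mpr
    exact Subgroup.subset_closure ⟨t, ht, t', ht', hcon⟩
  have cv : ∀ i j, i ≠ j → ∀ c ∈ T.C, ∀ y ∈ V j, K < Gr.dist (f i • c) y := by
    intro i j hij c hc y hy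
    have h1 := hball i j hij _ hy
    have h2 := T.near c hc
    rw [← h.iso (f i)] at h2
    have h4 := tri (f i • P T.j) (f i • c) y
    omega
  have tv : ∀ i j, ∀ t ∈ T.T, ∀ y ∈ V j, K < Gr.dist (f i • t) y := by
    intro i j t ht y hy
    obtain ⟨a, s, has⟩ := hVP j y hy
    have h1 := T.farTP t ht ((f i)⁻¹ * a) s
    rw [← tr] at h1
    have h2 := tri (f i • t) y (a • P s)
    omega
  refine ⟨fun i => f i • (T.C ∪ T.T'), fun i => f i • T.T'', T.L, ?_, ?_, ?_, T.fcL, ?_, ?_, ?_,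
    ?_, ?_⟩
  · intro i
    exact fc_smul h (FC.union T.fcC T.fcT' T.CT') (f i)
  · intro i
    exact Set.smul_mem_smul_set (Or.inl T.mem)
  · intro i
    exact fc_smul h T.fcT'' (f i)
  · intro i
    obtain ⟨x, hx1, hx2⟩ := T.TT
    exact ⟨f i • x, Set.smul_mem_smul_set hx2, Set.smul_mem_smul_set (Or.inr hx1)⟩
  · intro i
    obtain ⟨x, hx1, hx2⟩ := T.TL
    exact ⟨f i • x, Set.smul_mem_smul_set hx1, T.inv _ _ hx2⟩
  · intro i j hij
    refine ⟨?_, ?_, ?_, ?_, ?_⟩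
    · rintro _ ⟨x, hx, rfl⟩ _ ⟨y, hy, rfl⟩
      show K < Gr.dist (f i • x) (f j • y)
      rcases hx with hx | hx
      · rcases hy with hy | hy
        · exact cc i j hij x hx y hy
        · rw [sy]
          exact tc j i hij.symm y (T.sub' hy) x hx
      · rcases hy with hy | hy
        · exact tc i j hij x (T.sub' hx) y hy
        · exact tt i j hij x (T.sub' hx) y (T.sub' hy)
    · rintro _ ⟨x, hx, rfl⟩ y hy
      show K < Gr.dist (f i • x) y
      rcases hx with hx | hx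
      · exact cv i j hij x hx y hy
      · exact tv i j x (T.sub' hx) y hy
    · rintro _ ⟨x, hx, rfl⟩ _ ⟨y, hy, rfl⟩
      exact tt i j hij x (T.sub'' hx) y (T.sub'' hy)
    · rintro _ ⟨x, hx, rfl⟩ y hy
      exact tv i j x (T.sub'' hx) y hy
    · rintro _ ⟨x, hx, rfl⟩ _ ⟨y, hy, rfl⟩
      show K < Gr.dist (f i • x) (f j • y)
      rcases hy with hy | hy
      · exact tc i j hij x (T.sub'' hx) y hy
      · exact tt i j hij x (T.sub'' hx) y (T.sub' hy)
  · intro i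
    refine ⟨?_, ?_⟩
    · intro x hx y hy
      obtain ⟨a, s, has⟩ := hVP i y hy
      have h1 := T.farLP x hx a s
      have h2 := tri x y (a • P s)
      omega
    · rintro x hx _ ⟨y, hy, rfl⟩
      show K < Gr.dist x (f i • y)
      rcases hy with hy | hy
      · have h1 := T.farLP x hx (f i) T.j
        have h2 := tri x (f i • y) (f i • P T.j)
        have h3 := T.near y hy
        rw [← h.iso (f i), sy] at h3
        omega
      · have h1 := T.farLT _ (T.inv (f i)⁻¹ x hx) y hy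
        rw [sy, tr1, sy]
        exact h1
  · intro x hx
    have hl : ∀ y ∈ T.C ∪ T.T ∪ T.L, ∀ a : A, lo ≤ lv Gr A o (a • y) ∧ lv Gr A o (a • y) ≤ hi := by
      intro y hy a
      rw [lv_smul h]
      exact T.lev y hy
    have : lo ≤ lv Gr A o x ∧ lv Gr A o x ≤ hi := by
      rcases hx with ⟨i, y, hy, rfl⟩ | ⟨i, y, hy, rfl⟩ | hx
      · rcases hy with hy | hy
        · exact hl y (Or.inl (Or.inl hy)) _
        · exact hl y (Or.inl (Or.inr (T.sub' hy))) _
      · exact hl y (Or.inl (Or.inr (T.sub'' hy))) _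
      · exact T.lev x (Or.inr hx)
    omega

end

end Pool.Agent.Lib.MP_0f7bfe_al.QT
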