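import Pool.Agent.Lib.MP_0f7bfe_al.QT.F3
import Pool.Agent.Lib.MP_0f7bfe_al.QT.F4

open scoped Pointwise

namespace Pool.Agent.Lib.MP_0f7bfe_al.QT

open Pool.Agent.Lib.MP_0f7bfe_al.OE

universe u v

section
variable {X : Type u} {Gr : SimpleGraph X} {A : Type v} [CommGroup A] [MulAction A X]
  {w b : ℕ → ℕ}

theorem tooth_tokens (h : Act Gr A w) [Finite A] {P : ℕ → X} (hP : Spine Gr A P) {o : X}
    {K κ lo hi : ℕ} (T : Tooth Gr A P o K κ lo hi) {hI n : ℕ} (hn : 0 < n)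
    (hκ : hI + 2 * K ≤ κ)
    (V : Fin n → Set X) (hVP : ∀ i, ∀ x ∈ V i, ∃ (a : A) (s : ℕ), Gr.dist x (a • P s) ≤ hI)
    (f : Fin n → A) (hf : ∀ i, f i • P T.j ∈ V i)
    (hball : ∀ i j, i ≠ j → ∀ x ∈ V j, 4 * κ + 3 * K + 3 < Gr.dist (f i • P T.j) x)
    (hM : (∀ i j, (f i : A ⧸ Mm Gr A T.T K) = f j) ∨
      (∀ i j, i ≠ j → (f i : A ⧸ Mm Gr A T.T K) ≠ f j)) :
    ∃ (E P' : Fin n → Set X) (H : Set X), (∀ i, FC Gr (E i)) ∧ (∀ i, f i • P T.j ∈ E i) ∧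
      (∀ i, FC Gr (P' i)) ∧ FC Gr H ∧ (∀ i, (P' i ∩ E i).Nonempty) ∧
      (∀ i, (P' i ∩ H).Nonempty) ∧
      (∀ i j, i ≠ j → Far Gr K (E i) (E j) ∧ Far Gr K (E i) (V j) ∧ Far Gr K (P' i) (P' j) ∧
        Far Gr K (P' i) (V j) ∧ Far Gr K (P' i) (E j)) ∧
      (∀ i, Far Gr K H (V i) ∧ Far Gr K H (E i)) ∧
      (∀ x, (∃ i, x ∈ E i) ∨ (∃ i, x ∈ P' i) ∨ x ∈ H →
        lo ≤ lv Gr A o x + K ∧ lv Gr A o x ≤ hi + K) :=by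
  rcases hM with hM | hM
  · exact tooth_tokens_const h hP T hn hκ V hVP f hf hball hM
  · exact tooth_tokens_inj h hP T hn hκ V hVP f hf hball hM

end

end Pool.Agent.Lib.MP_0f7bfe_al.QT
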