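import Pool.Agent.Lib.MP_0f7bfe_al.QT.Defs

open scoped Pointwise

namespace Pool.Agent.Lib.MP_0f7bfe_al.QT

open Pool.Agent.Lib.MP_0f7bfe_al.OE

universe u v

section
variable {X : Type u} {Gr : SimpleGraph X} {A : Type v} [CommGroup A] [MulAction A X]
  {w b : ℕ → ℕ}

private theorem qt_f6_union {n : ℕ} {Y : Set X} (hY : FC Gr Y) (E : Fin n → Set X)
    (hE : ∀ k, FC Gr (E k)) (hEY : ∀ k, (E k ∩ Y).Nonempty) :
    FC Gr (Y ∪ ⋃ k, E k) := by
  classical
  have key : ∀ s : Finset (Fin n), FC Gr (Y ∪ ⋃ k ∈ s, E k) := by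
    intro s
    induction s using Finset.induction_on with
    | empty => simpa using hY
    | insert k s _ ih =>
      have h1 : Y ∪ ⋃ k' ∈ insert k s, E k' = (Y ∪ ⋃ k ∈ s, E k) ∪ E k := by
        ext x
        simp only [Set.mem_union, Set.mem_iUnion, Finset.mem_insert, exists_prop]
        constructor
        · rintro (h | ⟨k', rfl | h, hx⟩)
          · exact Or.inl (Or.inl h)
          · exact Or.inr hx
          · exact Or.inl (Or.inr ⟨k', h, hx⟩)
        · rintro ((h | ⟨k', h, hx⟩) | hx)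
          · exact Or.inl h
          · exact Or.inr ⟨k', Or.inr h, hx⟩
          · exact Or.inr ⟨k, Or.inl rfl, hx⟩
      rw [h1]
      refine FC.union ih (hE k) ?_
      obtain ⟨x, hx1, hx2⟩ := hEY k
      exact ⟨x, Or.inl hx2, hx1⟩
  have h := key Finset.univ
  simpa using h

/-- HINT: branch sets `B i = V i ∪ (⋃ k, E k i) ∪ P' i i ∪ H i` (`FC.union`, finite union over
`k : Fin n`), linking set for `i < j`: `P' j i` (meets `E j i ⊆ B i` and `H j ⊆ B j`). Far: sets with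
different first index `k ≠ k'` are far by their levels (`hlev`, `hsep`, `hlvl`); otherwise use
`hfar`, `hHf`, `hVV`. For `P : Sym2 (Fin n) → Set X` use `fun e => P' (e.sup) (e.inf)`
(`Sym2.sup`, `Sym2.inf`) or `Sym2.lift`. -/
theorem assemble_clique {n K : ℕ} (lvl : X → ℕ) (hlvl : ∀ x y, lvl x ≤ lvl y + Gr.dist x y)
    (V : Fin n → Set X) (E P' : Fin n → Fin n → Set X) (H : Fin n → Set X)
    (hV : ∀ i, FC Gr (V i)) (hE : ∀ k i, FC Gr (E k i)) (hP : ∀ k i, FC Gr (P' k i))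
    (hH : ∀ k, FC Gr (H k)) (hEV : ∀ k i, (E k i ∩ V i).Nonempty)
    (hPE : ∀ k i, (P' k i ∩ E k i).Nonempty) (hPH : ∀ k i, (P' k i ∩ H k).Nonempty)
    (hVV : ∀ i j, i ≠ j → Far Gr K (V i) (V j))
    (hfar : ∀ k i j, i ≠ j → Far Gr K (E k i) (E k j) ∧ Far Gr K (E k i) (V j) ∧
      Far Gr K (P' k i) (P' k j) ∧ Far Gr K (P' k i) (V j) ∧ Far Gr K (P' k i) (E k j))
    (hHf : ∀ k i, Far Gr K (H k) (V i) ∧ Far Gr K (H k) (E k i)) (lo hi : Fin n → ℕ)
    (hlev : ∀ k x, (∃ i, x ∈ E k i) ∨ (∃ i, x ∈ P' k i) ∨ x ∈ H k →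
      lo k ≤ lvl x + K ∧ lvl x ≤ hi k + K)
    (hsep : ∀ k k', k < k' → hi k + 3 * K < lo k') : FatClique Gr K n := by
  classical
  have hlv : ∀ k k', k ≠ k' → ∀ x y,
      ((∃ i, x ∈ E k i) ∨ (∃ i, x ∈ P' k i) ∨ x ∈ H k) →
      ((∃ i, y ∈ E k' i) ∨ (∃ i, y ∈ P' k' i) ∨ y ∈ H k') → K < Gr.dist x y := by
    have aux : ∀ k k', k < k' → ∀ x y,
        ((∃ i, x ∈ E k i) ∨ (∃ i, x ∈ P' k i) ∨ x ∈ H k) →
        ((∃ i, y ∈ E k' i) ∨ (∃ i, y ∈ P' k' i) ∨ y ∈ H k') → K < Gr.dist x y := by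
      intro k k' hk x y hx hy
      by_contra hle
      push Not at hle
      have h1 := (hlev k x hx).2
      have h2 := (hlev k' y hy).1
      have h3 := hsep k k' hk
      have h4 := hlvl y x
      rw [SimpleGraph.dist_comm] at h4
      omega
    intro k k' hk x y hx hy
    rcases lt_or_gt_of_ne hk with h | h
    · exact aux k k' h x y hx hy
    · rw [SimpleGraph.dist_comm]
      exact aux k' k h y x hy hx
  -- level descriptions
  have iE : ∀ {k i x}, x ∈ E k i → ((∃ i, x ∈ E k i) ∨ (∃ i, x ∈ P' k i) ∨ x ∈ H k) :=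
    fun h => Or.inl ⟨_, h⟩
  have iP : ∀ {k i x}, x ∈ P' k i → ((∃ i, x ∈ E k i) ∨ (∃ i, x ∈ P' k i) ∨ x ∈ H k) :=
    fun h => Or.inr (Or.inl ⟨_, h⟩)
  have iH : ∀ {k x}, x ∈ H k → ((∃ i, x ∈ E k i) ∨ (∃ i, x ∈ P' k i) ∨ x ∈ H k) :=
    fun h => Or.inr (Or.inr h)
  have cm : ∀ {x y : X}, K < Gr.dist x y → K < Gr.dist y x := fun h => by
    rwa [SimpleGraph.dist_comm]
  let B : Fin n → Set X := fun i => ((V i ∪ ⋃ k, E k i) ∪ P' i i) ∪ H i
  have hB : ∀ i x, x ∈ B i ↔ x ∈ V i ∨ (∃ k, x ∈ E k i) ∨ x ∈ P' i i ∨ x ∈ H i := by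
    intro i x
    simp only [B, Set.mem_union, Set.mem_iUnion]
    tauto
  have hBfc : ∀ i, FC Gr (B i) := by
    intro i
    have h1 := qt_f6_union (hV i) (fun k => E k i) (fun k => hE k i) (fun k => hEV k i)
    refine FC.union (FC.union h1 (hP i i) ?_) (hH i) ?_
    · obtain ⟨x, hx1, hx2⟩ := hPE i i
      exact ⟨x, Or.inr (Set.mem_iUnion.2 ⟨i, hx2⟩), hx1⟩
    · obtain ⟨x, hx1, hx2⟩ := hPH i i
      exact ⟨x, Or.inr hx1, hx2⟩
  have hsup : ∀ i j : Fin n, i < j → (s(i, j)).sup = j ∧ (s(i, j)).inf = i := by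
    intro i j hij
    simp [Sym2.sup_mk, Sym2.inf_mk, hij.le]
  have hcase : ∀ e : Sym2 (Fin n), ¬ e.IsDiag → ∃ i j, i < j ∧ e = s(i, j) := by
    intro e
    refine Sym2.inductionOn e fun i j he => ?_
    rw [Sym2.mk_isDiag_iff] at he
    rcases lt_or_gt_of_ne he with h | h
    · exact ⟨i, j, h, rfl⟩
    · exact ⟨j, i, h, Sym2.eq_swap⟩
  refine ⟨B, fun e => P' e.sup e.inf, hBfc, ?_, ?_, ?_, ?_⟩
  · intro e he
    obtain ⟨i, j, hij, rfl⟩ := hcase e he
    obtain ⟨h1, h2⟩ := hsup i j hij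
    simp only [h1, h2]
    refine ⟨hP j i, fun l hl => ?_⟩
    rcases Sym2.mem_iff.1 hl with rfl | rfl
    · obtain ⟨x, hx1, hx2⟩ := hPE j l
      exact ⟨x, hx1, (hB _ _).2 (Or.inr (Or.inl ⟨_, hx2⟩))⟩
    · obtain ⟨x, hx1, hx2⟩ := hPH l i
      exact ⟨x, hx1, (hB _ _).2 (Or.inr (Or.inr (Or.inr hx2)))⟩
  · intro i j hij x hx y hy
    rcases (hB i x).1 hx with hx | ⟨k, hx⟩ | hx | hx <;>
      rcases (hB j y).1 hy with hy | ⟨k', hy⟩ | hy | hy
    · exact hVV i j hij x hx y hy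
    · exact cm ((hfar k' j i hij.symm).2.1 y hy x hx)
    · exact cm ((hfar j j i hij.symm).2.2.2.1 y hy x hx)
    · exact cm ((hHf j i).1 y hy x hx)
    · exact (hfar k i j hij).2.1 x hx y hy
    · by_cases hk : k = k'
      · subst hk
        exact (hfar k i j hij).1 x hx y hy
      · exact hlv k k' hk x y (iE hx) (iE hy)
    · by_cases hk : k = j
      · subst hk
        exact cm ((hfar k k i hij.symm).2.2.2.2 y hy x hx)
      · exact hlv k j hk x y (iE hx) (iP hy)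
    · by_cases hk : k = j
      · subst hk
        exact cm ((hHf k i).2 y hy x hx)
      · exact hlv k j hk x y (iE hx) (iH hy)
    · exact (hfar i i j hij).2.2.2.1 x hx y hy
    · by_cases hk : i = k'
      · subst hk
        exact (hfar i i j hij).2.2.2.2 x hx y hy
      · exact hlv i k' hk x y (iP hx) (iE hy)
    · exact hlv i j hij x y (iP hx) (iP hy)
    · exact hlv i j hij x y (iP hx) (iH hy)
    · exact (hHf i j).1 x hx y hy
    · by_cases hk : i = k'
      · subst hk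
        exact (hHf i j).2 x hx y hy
      · exact hlv i k' hk x y (iH hx) (iE hy)
    · exact hlv i j hij x y (iH hx) (iP hy)
    · exact hlv i j hij x y (iH hx) (iH hy)
  · intro e f he hf hef
    obtain ⟨i, j, hij, rfl⟩ := hcase e he
    obtain ⟨i', j', hij', rfl⟩ := hcase f hf
    obtain ⟨h1, h2⟩ := hsup i j hij
    obtain ⟨h1', h2'⟩ := hsup i' j' hij'
    simp only [h1, h2, h1', h2']
    intro x hx y hy
    by_cases hj : j = j'
    · subst hj
      have hi : i ≠ i' := fun h => hef (by rw [h])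
      exact (hfar j i i' hi).2.2.1 x hx y hy
    · exact hlv j j' hj x y (iP hx) (iP hy)
  · intro e he l hl
    obtain ⟨i, j, hij, rfl⟩ := hcase e he
    obtain ⟨h1, h2⟩ := hsup i j hij
    simp only [h1, h2]
    have hli : i ≠ l := fun h => hl (by rw [← h]; exact Sym2.mem_mk_left _ _)
    have hlj : j ≠ l := fun h => hl (by rw [← h]; exact Sym2.mem_mk_right _ _)
    intro x hx y hy
    rcases (hB l y).1 hy with hy | ⟨k', hy⟩ | hy | hy
    · exact (hfar j i l hli).2.2.2.1 x hx y hy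
    · by_cases hk : j = k'
      · subst hk
        exact (hfar j i l hli).2.2.2.2 x hx y hy
      · exact hlv j k' hk x y (iP hx) (iE hy)
    · exact hlv j l hlj x y (iP hx) (iP hy)
    · exact hlv j l hlj x y (iP hx) (iH hy)


end

end Pool.Agent.Lib.MP_0f7bfe_al.QT
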