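import Pool.Agent.Lib.MP_0f7bfe_al.QT.Defs

open scoped Pointwise

namespace Pool.Agent.Lib.MP_0f7bfe_al.QT

open Pool.Agent.Lib.MP_0f7bfe_al.OE

universe u v

section
variable {X : Type u} {Gr : SimpleGraph X} {A : Type v} [CommGroup A] [MulAction A X]
  {w b : ℕ → ℕ}

theorem fatClique_zero (K : ℕ) : FatClique Gr K 0 := by
  refine ⟨fun i => i.elim0, fun _ => ∅, fun i => i.elim0, ?_, fun i => i.elim0, ?_, ?_⟩
  · intro e
    induction e using Sym2.ind with
    | _ a b => exact a.elim0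
  · intro e
    induction e using Sym2.ind with
    | _ a b => exact a.elim0
  · intro e
    induction e using Sym2.ind with
    | _ a b => exact a.elim0

theorem FatClique.mono {K K' n : ℕ} (hK : K ≤ K') (h : FatClique Gr K' n) :
    FatClique Gr K n := by
  obtain ⟨A, P, h1, h2, h3, h4, h5⟩ := h
  exact ⟨A, P, h1, h2, fun i j hij a ha b hb => lt_of_le_of_lt hK (h3 i j hij a ha b hb),
    fun e f he hf hef a ha b hb => lt_of_le_of_lt hK (h4 e f he hf hef a ha b hb),
    fun e he i hi a ha b hb => lt_of_le_of_lt hK (h5 e he i hi a ha b hb)⟩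

/-- HINT: for every `k` the map sending `j` to a point of `V j` in the ball of radius `ρ` around
`y k` is injective (the sets `V j` are pairwise disjoint because they are far apart), so at most
`w ρ` indices `j` occur for this `k`. -/
theorem conflict_count (h : Act Gr A w) {K n N ρ : ℕ} (V : Fin N → Set X)
    (hVV : ∀ i j, i ≠ j → Far Gr K (V i) (V j)) (y : Fin n → X) :
    {j | ∃ k, ∃ x ∈ V j, Gr.dist (y k) x ≤ ρ}.ncard ≤ n * w ρ := by
  classical
  have hk : ∀ k : Fin n, {j : Fin N | ∃ x ∈ V j, Gr.dist (y k) x ≤ ρ}.ncard ≤ w ρ := by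
    intro k
    refine le_trans ?_ (h.ball (y k) ρ)
    have hch : ∀ j : Fin N, ∃ x : X, (∃ x ∈ V j, Gr.dist (y k) x ≤ ρ) →
        x ∈ V j ∧ Gr.dist (y k) x ≤ ρ := by
      intro j
      by_cases hj : ∃ x ∈ V j, Gr.dist (y k) x ≤ ρ
      · obtain ⟨x, hx1, hx2⟩ := hj
        exact ⟨x, fun _ => ⟨hx1, hx2⟩⟩
      · exact ⟨y k, fun h' => absurd h' hj⟩
    choose f hf using hch
    refine Set.ncard_le_ncard_of_injOn f ?_ ?_ ?_
    · intro j hj
      exact (hf j hj).2
    · intro i hi j hj hij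
      by_contra hne
      have h1 := hVV i j hne (f i) (hf i hi).1 (f i) (hij ▸ (hf j hj).1)
      rw [SimpleGraph.dist_self] at h1
      exact absurd h1 (Nat.not_lt_zero _)
    · exact h.nice.ball (y k) ρ
  have hsub : {j : Fin N | ∃ k, ∃ x ∈ V j, Gr.dist (y k) x ≤ ρ}.toFinset ⊆
      Finset.univ.biUnion (fun k : Fin n =>
        {j : Fin N | ∃ x ∈ V j, Gr.dist (y k) x ≤ ρ}.toFinset) := by
    intro j hj
    rw [Set.mem_toFinset] at hj
    obtain ⟨k, hk⟩ := hj
    rw [Finset.mem_biUnion]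
    exact ⟨k, Finset.mem_univ _, by rw [Set.mem_toFinset]; exact hk⟩
  rw [Set.ncard_eq_toFinset_card']
  refine (Finset.card_le_card hsub).trans (Finset.card_biUnion_le.trans ?_)
  refine (Finset.sum_le_sum (g := fun _ => w ρ) fun k _ => ?_).trans ?_
  · rw [← Set.ncard_eq_toFinset_card']
    exact hk k
  · simp

theorem large_finite_subgroup {Q : Type v} [CommGroup Q] [Infinite Q]
    (hT : ∀ s : Set Q, s.Finite → Finite (Subgroup.closure s)) (N : ℕ) :
    ∃ F : Subgroup Q, Finite F ∧ N ≤ Nat.card F := by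
  classical
  obtain ⟨s, hs⟩ := Infinite.exists_subset_card_eq Q N
  have hfin := hT (s : Set Q) s.finite_toSet
  refine ⟨Subgroup.closure (s : Set Q), hfin, ?_⟩
  have h1 : (s : Set Q).ncard ≤ (Subgroup.closure (s : Set Q) : Set Q).ncard :=
    Set.ncard_le_ncard Subgroup.subset_closure (Set.toFinite _)
  rw [Set.ncard_coe_finset, hs] at h1
  exact h1

end

end Pool.Agent.Lib.MP_0f7bfe_al.QT
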