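import Pool.Agent.Lib.MP_0f7bfe_al.QT.F1
import Pool.Agent.Lib.MP_0f7bfe_al.QT.F2
import Pool.Agent.Lib.MP_0f7bfe_al.QT.F5
import Pool.Agent.Lib.MP_0f7bfe_al.QT.F6
import Pool.Agent.Lib.MP_0f7bfe_al.QT.F7

open scoped Pointwise

namespace Pool.Agent.Lib.MP_0f7bfe_al.QT

open Pool.Agent.Lib.MP_0f7bfe_al.OE

universe u v

section
variable {X : Type u} {Gr : SimpleGraph X} {A : Type v} [CommGroup A] [MulAction A X]
  {w b : ℕ → ℕ}

theorem assemble (h : Act Gr A w) [Finite A] {P : ℕ → X} (hP : Spine Gr A P) {o : X}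
    {K n κ hI N : ℕ} (hn : 0 < n) (hK : 1 ≤ K) (hκ : hI + 2 * K ≤ κ) (lo hi : Fin n → ℕ)
    (hsep : ∀ k k', k < k' → hi k + 3 * K < lo k')
    (teeth : ∀ k, Tooth Gr A P o K κ (lo k) (hi k)) (V : Fin N → Set X)
    (hV : ∀ i, FC Gr (V i)) (hVV : ∀ i j, i ≠ j → Far Gr K (V i) (V j))
    (hVP : ∀ i, ∀ x ∈ V i, ∃ (a : A) (s : ℕ), Gr.dist x (a • P s) ≤ hI)
    (hVj : ∀ i k, ∃ a : A, a • P (teeth k).j ∈ V i)
    (hN : (2 * (n * w (4 * κ + 3 * K + 3)) + 1) * n ^ (2 ^ n) ≤ N) : FatClique Gr K n := by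
  choose f hf using hVj
  -- sparse set of tokens
  obtain ⟨e, he⟩ := indep (N := N)
    (fun i j => i ≠ j ∧ ∃ k, ∃ x ∈ V j, Gr.dist (f i k • P (teeth k).j) x ≤ 4 * κ + 3 * K + 3)
    (n * w (4 * κ + 3 * K + 3)) (n ^ (2 ^ n)) (by
      intro i
      refine le_trans (Set.ncard_le_ncard ?_ (Set.toFinite _))
        (conflict_count h V hVV (fun k => f i k • P (teeth k).j) (ρ := 4 * κ + 3 * K + 3))
      rintro j ⟨_, k, x, hx, hd⟩
      exact ⟨k, x, hx, hd⟩) hN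
  obtain ⟨e', he'⟩ := const_or_inj (n := n) (k := n) (N := n ^ (2 ^ n))
    (γ := fun k => A ⧸ Mm Gr A (teeth k).T K) (fun k i => (f (e i) k : A ⧸ _)) le_rfl
  have hinj : ∀ i j, i ≠ j → e (e' i) ≠ e (e' j) := fun i j hij h1 =>
    hij (e'.injective (e.injective h1))
  have hT := fun k => tooth_tokens h hP (teeth k) hn hκ (fun i => V (e (e' i)))
    (fun i => hVP _) (fun i => f (e (e' i)) k) (fun i => hf _ _) (by
      intro i j hij x hx
      by_contra hcon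
      push Not at hcon
      exact he (e' i) (e' j) (fun h1 => hij (e'.injective h1)) ⟨hinj i j hij, k, x, hx, hcon⟩)
    (he' k)
  choose E P' H h1 h2 h3 h4 h5 h6 h7 h8 h9 using hT
  exact assemble_clique (lv Gr A o) (lv_lip h o) (fun i => V (e (e' i))) E P' H
    (fun i => hV _) h1 h3 h4 (fun k i => ⟨_, h2 k i, hf _ _⟩) h5 h6
    (fun i j hij => hVV _ _ (hinj i j hij)) h7 h8 lo hi h9 hsep

end

end Pool.Agent.Lib.MP_0f7bfe_al.QT
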