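import Pool.Agent.Lib.MP_0f7bfe_al.QT.Main
import Pool.Agent.Lib.MP_0f7bfe_al.QT.C1
import Pool.Agent.Lib.MP_0f7bfe_al.QT.C2

open scoped Pointwise

namespace Pool.Agent.Lib.MP_0f7bfe_al.QT

open Pool.Agent.Lib.MP_0f7bfe_al.OE

universe u v

/-- finitely generated groups with an infinite abelian torsion subgroup have all asymptotic
cliques -/
theorem allCliques_of_torsion {G : Type u} [Group G] (hG : Group.FG G) {Q : Type v} [CommGroup Q]
    [Infinite Q] (ht : ∀ q : Q, IsOfFinOrder q) (j : Q →* G) (hj : Function.Injective j) :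
    AllCliques G := by
  obtain ⟨S, hS⟩ := hG.out
  letI := MulAction.compHom G j
  obtain ⟨b, hb⟩ := ordB_cay hS j hj
  exact allCliques_of_fatClique' hS fun κ n =>
    main_general (act_cay hS j hj) hb (fun s hs => finite_closure ht s hs) 1 κ n

end Pool.Agent.Lib.MP_0f7bfe_al.QT
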