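import Pool.Agent.Lib.MP_0f7bfe_al.QT.Defs

open scoped Pointwise

namespace Pool.Agent.Lib.MP_0f7bfe_al.QT

open Pool.Agent.Lib.MP_0f7bfe_al.OE

universe u v

section
variable {X : Type u} {Gr : SimpleGraph X} {A : Type v} [CommGroup A] [MulAction A X]
  {w b : ℕ → ℕ}

theorem qt_g1_adj (h : Act Gr A w) (a : A) {x y : X} (hxy : Gr.Adj x y) :
    Gr.Adj (a • x) (a • y) := by
  rw [← SimpleGraph.dist_eq_one_iff_adj] at hxy ⊢
  rw [h.iso, hxy]

theorem fc_smul (h : Act Gr A w) {J : Set X} (hJ : FC Gr J) (a : A) : FC Gr (a • J) := by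
  refine ⟨hJ.fin.smul_set, ?_⟩
  let e : Gr.induce J ≃g Gr.induce (a • J) :=
    { toEquiv := (MulAction.toPerm a).image J
      map_rel_iff' := by
        intro x y
        constructor
        · intro hxy
          have := qt_g1_adj h a⁻¹ (show Gr.Adj (a • (x : X)) (a • (y : X)) from hxy)
          simpa using this
        · intro hxy
          exact qt_g1_adj h a (show Gr.Adj (x : X) (y : X) from hxy) }
  exact (e.connected_iff).1 hJ.conn

theorem far_smul (h : Act Gr A w) {κ : ℕ} {J J' : Set X} (a : A) :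
    Far Gr κ (a • J) (a • J') ↔ Far Gr κ J J' := by
  constructor
  · intro hf x hx y hy
    have := hf (a • x) (Set.smul_mem_smul_set hx) (a • y) (Set.smul_mem_smul_set hy)
    rwa [h.iso] at this
  · rintro hf _ ⟨x, hx, rfl⟩ _ ⟨y, hy, rfl⟩
    simp only
    rw [h.iso]
    exact hf x hx y hy

theorem nb_smul (h : Act Gr A w) (κ : ℕ) (J : Set X) (a : A) :
    nb Gr κ (a • J) = a • nb Gr κ J := by
  ext x
  constructor
  · rintro ⟨_, ⟨y, hy, rfl⟩, hd⟩
    refine ⟨a⁻¹ • x, ⟨y, hy, ?_⟩, by simp⟩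
    have := h.iso a y (a⁻¹ • x)
    rw [smul_inv_smul] at this
    rw [← this]
    exact hd
  · rintro ⟨y, ⟨z, hz, hd⟩, rfl⟩
    refine ⟨a • z, Set.smul_mem_smul_set hz, ?_⟩
    simp only
    rw [h.iso]
    exact hd

end

end Pool.Agent.Lib.MP_0f7bfe_al.QT
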