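import Pool.Agent.Lib.MP_0f7bfe_al.QT.Defs

open scoped Pointwise

namespace Pool.Agent.Lib.MP_0f7bfe_al.QT

open Pool.Agent.Lib.MP_0f7bfe_al.OE

universe u v

section
variable {X : Type u} {Gr : SimpleGraph X} {A : Type v} [CommGroup A] [MulAction A X]
  {w b : ℕ → ℕ}

theorem far_blk (h : Act Gr A w) {J : Set X} {r K : ℕ} (M : Subgroup A)
    (hM : Dm Gr A J (2 * r + K) ⊆ M) {c c' : A ⧸ M} (hc : c ≠ c') :
    Far Gr K (Blk Gr M J r c) (Blk Gr M J r c') := by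
  rintro x ⟨f, rfl, y, ⟨z, hz, rfl⟩, hy⟩ x' ⟨f', rfl, y', ⟨z', hz', rfl⟩, hy'⟩
  by_contra hcon
  push Not at hcon
  apply hc
  rw [QuotientGroup.eq]
  apply hM
  refine ⟨z, hz, z', hz', ?_⟩
  have h1 := h.iso f z ((f⁻¹ * f') • z')
  rw [mul_smul, smul_inv_smul] at h1
  rw [mul_smul, ← h1]
  have h2 := h.nice.conn.dist_triangle (u := f • z) (v := x) (w := x')
  have h3 := h.nice.conn.dist_triangle (u := f • z) (v := x') (w := f' • z')
  rw [SimpleGraph.dist_comm (u := x') (v := f' • z')] at h3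
  simp only at hy hy'
  omega

end

end Pool.Agent.Lib.MP_0f7bfe_al.QT
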