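import Pool.Agent.Lib.MP_0f7bfe_al.QT.T4
import Pool.Agent.Lib.MP_0f7bfe_al.QT.G1

open scoped Pointwise

namespace Pool.Agent.Lib.MP_0f7bfe_al.QT

open Pool.Agent.Lib.MP_0f7bfe_al.OE

universe u v

section
variable {X : Type u} {Gr : SimpleGraph X} {Q : Type v} [CommGroup Q] [MulAction Q X]
  {w b : ℕ → ℕ}

private theorem qt_t5_bound (F : Subgroup Q) [Finite F] (o : X) :
    ∃ Rp : ℕ, ∀ f : F, Gr.dist o ((f : Q) • o) ≤ Rp := by
  obtain ⟨M, hM⟩ := (Set.finite_range (fun f : F => Gr.dist o ((f : Q) • o))).bddAbove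
  exact ⟨M, fun f => hM ⟨f, rfl⟩⟩

private theorem qt_t5_max {p : ℕ → Prop} {r e : ℕ} (hr : r ≤ e) (hp : p r) :
    ∃ s, r ≤ s ∧ s ≤ e ∧ p s ∧ ∀ t, s < t → t ≤ e → ¬ p t := by
  classical
  refine ⟨Nat.findGreatest p e, Nat.le_findGreatest hr hp, Nat.findGreatest_le e,
    Nat.findGreatest_spec hr hp, fun t ht hte => Nat.findGreatest_is_greatest ht hte⟩

private theorem qt_t5_step {o : X} {L : ℕ} (l : Leg Gr Q o L) (s : ℕ) : Gr.dist (l.p s) (l.p (s + 1)) ≤ 1 := by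
  by_cases hs : s + 1 ≤ l.len
  · have := l.geo s (s + 1) (by omega) hs
    omega
  · rw [l.pconst (s + 1) (by omega), l.pconst s (by omega)]
    simp

private theorem qt_t5_geo {o : X} {L : ℕ} (l : Leg Gr Q o L) {s t : ℕ} (hst : s ≤ t) (ht : t ≤ l.len) :
    Gr.dist (l.p s) (l.p t) = t - s := by
  have := l.geo s t hst ht
  omega

/-- HINT. Let `Rp` bound `dist o (f • o)`, `f ∈ F` (finite). Let `R' = lo + 2 * κ + 2`. Choose `L`
(by `hP`) with `(l L).p = P` on `[0, R']` and `L` larger than all of: `Rp` (then `F ≤ (l L).E` by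
`mem`), `R'`, and `2 * Rp + 4 * κ + 2 * K + 10 + lo` or so. Let `ℓ = (l L).len > L`, `e = ℓ - Rp`.
`s0` := the largest `s ≤ e` such that `dist ((l L).p s) (a • P s') ≤ κ` for some `a : F`, `s'`;
`s0 ≥ R'` (`a = 1`, `s' = R'`) and `2 * s0 ≤ ℓ + 2 * κ` (`leg_close`), so `s0 + 1 ≤ e - K - 1`.
Let `a`, `j = s'` be witnesses for `s0`. Put `T = a⁻¹ • (l L).p '' Ioc s0 e` (as `Icc (s0+1) e`),
`T' = a⁻¹ • (l L).p '' Icc (s0+1) (e-K-1)`, `T'' = a⁻¹ • (l L).p '' Icc (e-K-1) e`,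
`L = pod (l L) F Rp`, `C` = a geodesic from `P j` to `a⁻¹ • (l L).p s0` together with
`a⁻¹ • (l L).p (s0+1)` (`fc_geod`). `hi = ℓ + Rp + 2 * κ` or so. Fields:
`farTP` by maximality of `s0` (`s > s0`; translate by `a`); `farLP` by `pod_far_lim`; `farLT` by
`pod_far_leg` and `pod_inv`; `TL`: `(l L).p e` is at distance `Rp` from `q • o`, and the pod is
invariant; `lev` by `lv_leg`, `lv_smul`, `lv_lip`, `pod_lv`; `close`: for `x = a⁻¹ • (l L).p s`,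
`lv x = s`, `lv z ≤ j + κ + 1 ≤ s0 + 2 * κ + 1`, so `s ≤ s0 + 2 * κ + 1 + K` and
`dist x (P j) ≤ (s - s0) + κ`. (`act_sub h F` gives `Act Gr F w`.) -/
theorem tooth_exists (h : Act Gr Q w) {o : X} {l : ∀ L, Leg Gr Q o L} {P : ℕ → X}
    (hP : IsLim l P) (F : Subgroup Q) [Finite F] (K κ lo : ℕ) :
    ∃ hi, Nonempty (Tooth Gr F P o K κ lo hi) := by
  obtain ⟨Rp, hRp⟩ := qt_t5_bound (Gr := Gr) F o
  have hA : Act Gr F w := act_sub h F
  have hN : Nice Gr := h.nice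
  obtain ⟨L, hL, hLP⟩ := hP (lo + 2 * κ + 2) (3 * Rp + 8 * κ + 4 * K + 20 + 2 * lo)
  have hlen : L < (l L).len := (l L).L_lt
  have hFE : F ≤ (l L).E := by
    intro f hf
    exact (l L).mem f (by have := hRp ⟨f, hf⟩; simp only at this; omega)
  set ℓ := (l L).len with hℓ
  have hiso : ∀ (a : F) (x y : X), Gr.dist (a⁻¹ • x) y = Gr.dist x (a • y) := by
    intro a x y
    have := hA.iso a (a⁻¹ • x) y
    rw [smul_inv_smul] at this
    exact this.symm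
  obtain ⟨s0, hs0, hs0e, ⟨a, j, haj⟩, hmax⟩ := qt_t5_max
    (p := fun s => ∃ (a : F) (s' : ℕ), Gr.dist ((l L).p s) (a • P s') ≤ κ)
    (r := lo + 2 * κ + 2) (e := ℓ - Rp) (by omega)
    ⟨1, lo + 2 * κ + 2, by rw [hLP _ le_rfl, one_smul, SimpleGraph.dist_self]; omega⟩
  obtain ⟨hc1, hc2, hc3⟩ := leg_close h hP hFE a (by omega) haj
  have hs0K : s0 + 1 ≤ ℓ - Rp - K - 1 := by omega
  let r : ℕ → X := fun s => a⁻¹ • (l L).p s
  have hrdist : ∀ s t, Gr.dist (r s) (r t) = Gr.dist ((l L).p s) ((l L).p t) := fun s t => hA.iso a⁻¹ _ _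
  have hr1 : ∀ s, Gr.dist (r s) (r (s + 1)) ≤ 1 := fun s => by
    rw [hrdist]
    exact qt_t5_step (l L) s
  have hrs0 : Gr.dist (r s0) (P j) ≤ κ := by
    change Gr.dist (a⁻¹ • (l L).p s0) (P j) ≤ κ
    rw [hiso]
    exact haj
  have hrlv : ∀ s ≤ ℓ, lv Gr F o (r s) = s := by
    intro s hs
    change lv Gr F o (a⁻¹ • (l L).p s) = s
    rw [lv_smul hA]
    exact lv_leg h (l L) hFE hs
  obtain ⟨C0, hC0, hC1, hC2, hC3, -⟩ := fc_geod hN (P j) (r s0)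
  have hCfc : FC Gr (C0 ∪ r '' Set.Icc s0 (s0 + 1)) :=
    hC0.union (fc_seg hN hr1 (Nat.le_succ s0)) ⟨r s0, hC2, ⟨s0, ⟨le_rfl, Nat.le_succ _⟩, rfl⟩⟩
  have hnear : ∀ x ∈ C0 ∪ r '' Set.Icc s0 (s0 + 1), Gr.dist (P j) x ≤ κ + 1 := by
    rintro x (hx | ⟨t, ht, rfl⟩)
    · have h1 := hC3 x hx
      rw [SimpleGraph.dist_comm] at hrs0
      omega
    · have h1 : Gr.dist (r s0) (r t) ≤ 1 := by
        rcases Nat.eq_or_lt_of_le ht.1 with h2 | h2
        · rw [← h2, SimpleGraph.dist_self]; omega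
        · have : t = s0 + 1 := by have := ht.2; omega
          rw [this]
          exact hr1 s0
      have h2 := hN.conn.dist_triangle (u := P j) (v := r s0) (w := r t)
      rw [SimpleGraph.dist_comm] at hrs0
      omega
  have hlvP : ∀ s, lv Gr F o (P s) = s := lv_lim h hP F
  have hlvC : ∀ x ∈ C0 ∪ r '' Set.Icc s0 (s0 + 1), lv Gr F o x ≤ j + κ + 1 ∧ j ≤ lv Gr F o x + κ + 1 := by
    intro x hx
    have h1 := hnear x hx
    have h2 := lv_lip hA o x (P j)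
    have h3 := lv_lip hA o (P j) x
    rw [hlvP] at h2 h3
    rw [SimpleGraph.dist_comm] at h2
    omega
  refine ⟨ℓ + Rp + 2 * κ + 1, ⟨{
    j := j
    hlo := by omega
    hhi := by omega
    C := C0 ∪ r '' Set.Icc s0 (s0 + 1)
    T := r '' Set.Icc (s0 + 1) (ℓ - Rp)
    T' := r '' Set.Icc (s0 + 1) (ℓ - Rp - K - 1)
    T'' := r '' Set.Icc (ℓ - Rp - K - 1) (ℓ - Rp)
    L := pod (l L) F Rp
    fcC := hCfc
    fcT := fc_seg hN hr1 (by omega)
    fcT' := fc_seg hN hr1 hs0K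
    fcT'' := fc_seg hN hr1 (by omega)
    fcL := pod_fc h (l L) F hRp
    mem := Or.inl hC1
    near := hnear
    CT' := ⟨r (s0 + 1), Or.inr ⟨s0 + 1, ⟨Nat.le_succ _, le_rfl⟩, rfl⟩, ⟨s0 + 1, ⟨le_rfl, hs0K⟩, rfl⟩⟩
    TT := ⟨r (ℓ - Rp - K - 1), ⟨_, ⟨hs0K, le_rfl⟩, rfl⟩, ⟨_, ⟨le_rfl, by omega⟩, rfl⟩⟩
    TL := ?_
    sub' := ?_
    sub'' := ?_
    inv := fun a x hx => pod_inv h (l L) hx a
    farTP := ?_
    farLP := ?_
    farLT := ?_
    close := ?_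
    lev := ?_ }⟩⟩
  · refine ⟨r (ℓ - Rp), ⟨_, ⟨by omega, le_rfl⟩, rfl⟩, a⁻¹, ?_⟩
    have h1 : Gr.dist (a⁻¹ • (l L).q • o) (a⁻¹ • (l L).p (ℓ - Rp)) = Gr.dist ((l L).q • o) ((l L).p (ℓ - Rp)) :=
      hA.iso a⁻¹ _ _
    change Gr.dist (a⁻¹ • (l L).q • o) (a⁻¹ • (l L).p (ℓ - Rp)) ≤ Rp
    rw [h1, ← (l L).pl, SimpleGraph.dist_comm, qt_t5_geo (l L) (by omega) le_rfl]
    omega
  · exact Set.image_mono (Set.Icc_subset_Icc le_rfl (by omega))
  · exact Set.image_mono (Set.Icc_subset_Icc (by omega) le_rfl)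
  · rintro _ ⟨t, ht, rfl⟩ a' s
    by_contra hcon
    push Not at hcon
    refine hmax t (by have := ht.1; omega) ht.2 ⟨a * a', s, ?_⟩
    rw [← smul_smul, ← hiso]
    exact hcon
  · intro x hx a' s
    have := pod_far_lim h hP hFE hx a' s
    omega
  · rintro x hx _ ⟨t, ht, rfl⟩
    have h1 := pod_far_leg h (l L) hFE hx a⁻¹ (s := t) (by have := ht.2; omega)
    have h2 := ht.2
    change K < Gr.dist x (a⁻¹ • (l L).p t)
    omega
  · rintro _ ⟨t, ht, rfl⟩ a' z hz hd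
    have h1 := (hlvC z hz).1
    have h2 := lv_lip hA o (r t) (a' • z)
    rw [lv_smul hA o z a', hrlv t (by have := ht.2; omega)] at h2
    have h3 := hN.conn.dist_triangle (u := r t) (v := r s0) (w := P j)
    rw [SimpleGraph.dist_comm (u := r t) (v := r s0), hrdist, qt_t5_geo (l L) (by have := ht.1; omega) (by have := ht.2; omega)] at h3
    omega
  · rintro x ((hx | ⟨t, ht, rfl⟩) | hx)
    · have := hlvC x hx
      omega
    · rw [hrlv t (by have := ht.2; omega)]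
      have h1 := ht.1
      have h2 := ht.2
      omega
    · have := pod_lv h (l L) hFE hx
      omega

end

end Pool.Agent.Lib.MP_0f7bfe_al.QT
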