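import Pool.Agent.Lib.MP_0f7bfe_al.QT.S15
import Pool.Agent.Lib.MP_0f7bfe_al.QT.T5
import Pool.Agent.Lib.MP_0f7bfe_al.QT.F8

open scoped Pointwise

namespace Pool.Agent.Lib.MP_0f7bfe_al.QT

open Pool.Agent.Lib.MP_0f7bfe_al.OE

universe u v

/-- the main theorem -/
theorem main_general {X : Type u} {Gr : SimpleGraph X} {Q : Type v} [CommGroup Q]
    [MulAction Q X] [Infinite Q] {w b : ℕ → ℕ} (h : Act Gr Q w) (hb : OrdB Gr Q b)
    (hT : ∀ s : Set Q, s.Finite → Finite (Subgroup.closure s)) (o : X) (K n : ℕ) :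
    FatClique Gr K n := by
  rcases Nat.eq_zero_or_pos n with rfl | hn
  · exact fatClique_zero K
  suffices H : ∀ K : ℕ, 1 ≤ K → FatClique Gr K n from
    FatClique.mono (Nat.le_succ K) (H (K + 1) (Nat.le_add_left _ _))
  clear K
  intro K hK
  by_contra hno
  obtain ⟨hI, hspine⟩ := spine_lemma.{u, v} hK n w b
  obtain ⟨κ, hκ⟩ : ∃ κ, κ = hI + 2 * K := ⟨_, rfl⟩
  obtain ⟨N, hN⟩ : ∃ N, N = (2 * (n * w (4 * κ + 3 * K + 3)) + 1) * n ^ (2 ^ n) := ⟨_, rfl⟩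
  obtain ⟨N3, hN3⟩ := hspine N
  obtain ⟨F, hF, hFc⟩ := large_finite_subgroup hT N3
  obtain ⟨l⟩ : Nonempty (∀ L, Leg Gr Q o L) := ⟨fun L => (leg_exists h hT o L).some⟩
  obtain ⟨P, hP⟩ := ray_exists h l
  have hsp := spine_of_lim h (l := l) hP F
  obtain ⟨a0, ha0⟩ := hN3 X Gr F (act_sub h F) (ordB_sub h hT hb F) hno hFc P hsp
  -- the teeth
  have hteeth := fun lo => tooth_exists h (l := l) hP F K κ lo
  choose hi0 ht0 using hteeth
  let lo : ℕ → ℕ := fun k => Nat.rec a0 (fun _ r => hi0 r + 3 * K + 1) k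
  have hlo : ∀ k, lo (k + 1) = hi0 (lo k) + 3 * K + 1 := fun k => rfl
  have hlohi : ∀ k, lo k ≤ hi0 (lo k) := fun k => by
    obtain ⟨T⟩ := ht0 (lo k)
    exact T.hlo.trans T.hhi
  have hmono : ∀ k k', k ≤ k' → lo k ≤ lo k' := by
    intro k k' hkk
    induction k', hkk using Nat.le_induction with
    | base => exact le_rfl
    | succ k' _ ih =>
      rw [hlo]
      have := hlohi k'
      omega
  have hsep : ∀ k k', k < k' → hi0 (lo k) + 3 * K < lo k' := by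
    intro k k' hkk
    have := hmono (k + 1) k' hkk
    rw [hlo] at this
    omega
  let teeth : ∀ k : Fin n, Tooth Gr F P o K κ (lo k) (hi0 (lo k)) := fun k => (ht0 (lo k)).some
  obtain ⟨b1, hb1⟩ : ∃ b1, ∀ k : Fin n, hi0 (lo k) ≤ b1 := by
    obtain ⟨b1, hb1⟩ := (Set.finite_range fun k : Fin n => hi0 (lo k)).bddAbove
    exact ⟨b1, fun k => hb1 ⟨k, rfl⟩⟩
  obtain ⟨V, hV1, hV2, hV3, hV4⟩ := ha0 b1
  exact hno (assemble (act_sub h F) hsp hn hK hκ.ge (fun k => lo k) (fun k => hi0 (lo k))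
    (fun k k' hkk => hsep k k' hkk) teeth V hV1 hV2 hV3
    (fun i k => hV4 i _ ((hmono 0 k (Nat.zero_le _)).trans (teeth k).hlo)
      ((teeth k).hhi.trans (hb1 k))) hN.ge)

end Pool.Agent.Lib.MP_0f7bfe_al.QT
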