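import Pool.Agent.Lib.MP_0f7bfe_al.QT.Defs

open scoped Pointwise

namespace Pool.Agent.Lib.MP_0f7bfe_al.QT

open Pool.Agent.Lib.MP_0f7bfe_al.OE

universe u v

section
variable {X : Type u} {Gr : SimpleGraph X} {A : Type v} [CommGroup A] [MulAction A X]
  {w b : ℕ → ℕ}

/-- HINT: union bound. For each `e` the number of `y : ι → Y` with `bad e y` is at most
`β * |Y| ^ (|ι| - 1)` (fibre over the coordinates different from `k e`), so
`|E| * β * |Y| ^ (|ι| - 1) < |Y| ^ |ι|`. A slick way: double count pairs
`(y, z) : (ι → Y) × Y` with `bad e (update y (k e) z)`: on the one hand `≤ |Y|^|ι| * β`, on the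
other hand `(y, z) ↦ (update y (k e) z, y (k e))` is a bijection of `(ι → Y) × Y`, so the number is
`|Y| * #{y | bad e y}`. -/
theorem choose_tuple {ι Y E : Type*} [Fintype ι] [DecidableEq ι] [Fintype Y] [Fintype E]
    (k : E → ι) (bad : E → (ι → Y) → Prop) (β : ℕ)
    (hbad : ∀ e (y : ι → Y), Set.ncard {z | bad e (Function.update y (k e) z)} ≤ β)
    (hlt : Fintype.card E * β < Fintype.card Y) : ∃ y, ∀ e, ¬ bad e y := by
  classical
  by_contra hcon
  push Not at hcon
  have hY : 0 < Fintype.card Y := lt_of_le_of_lt (Nat.zero_le _) hlt
  have : Nonempty Y := Fintype.card_pos_iff.1 hY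
  have hpos : 0 < Fintype.card (ι → Y) := Fintype.card_pos
  have key : ∀ e, (Finset.univ.filter (bad e)).card * Fintype.card Y ≤
      Fintype.card (ι → Y) * β := by
    intro e
    have h1 : ((Finset.univ : Finset ((ι → Y) × Y)).filter
        (fun p => bad e (Function.update p.1 (k e) p.2))).card =
        ((Finset.univ : Finset ((ι → Y) × Y)).filter (fun p => bad e p.1)).card := by
      refine Finset.card_bij' (fun p _ => (Function.update p.1 (k e) p.2, p.1 (k e)))
        (fun p _ => (Function.update p.1 (k e) p.2, p.1 (k e))) ?_ ?_ ?_ ?_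
      · intro p hp
        simp only [Finset.mem_filter, Finset.mem_univ, true_and] at hp ⊢
        exact hp
      · intro p hp
        simp only [Finset.mem_filter, Finset.mem_univ, true_and] at hp ⊢
        rw [Function.update_idem, Function.update_eq_self]
        exact hp
      · intro p _
        simp only [Function.update_idem, Function.update_eq_self, Function.update_self]
      · intro p _
        simp only [Function.update_idem, Function.update_eq_self, Function.update_self]
    have h2 : ((Finset.univ : Finset ((ι → Y) × Y)).filter (fun p => bad e p.1)).card =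
        (Finset.univ.filter (bad e)).card * Fintype.card Y := by
      rw [← Finset.card_univ (α := Y), ← Finset.card_product]
      congr 1
      ext p
      simp
    have h3 : ((Finset.univ : Finset ((ι → Y) × Y)).filter
        (fun p => bad e (Function.update p.1 (k e) p.2))).card ≤ Fintype.card (ι → Y) * β := by
      rw [Finset.card_filter, Fintype.sum_prod_type]
      refine (Finset.sum_le_card_nsmul _ _ β fun y _ => ?_).trans ?_
      · rw [← Finset.card_filter]
        have h4 := hbad e y
        rw [Set.ncard_eq_toFinset_card'] at h4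
        refine le_trans (le_of_eq ?_) h4
        congr 1
        ext z
        simp
      · rw [Finset.card_univ, smul_eq_mul]
    rw [← h2, ← h1]
    exact h3
  have h5 : Fintype.card (ι → Y) ≤ ∑ e : E, (Finset.univ.filter (bad e)).card := by
    rw [← Finset.card_univ]
    refine le_trans (Finset.card_le_card (t := Finset.univ.biUnion fun e => Finset.univ.filter (bad e))
      ?_) Finset.card_biUnion_le
    intro y _
    obtain ⟨e, he⟩ := hcon y
    simp only [Finset.mem_biUnion, Finset.mem_univ, true_and, Finset.mem_filter]
    exact ⟨e, he⟩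
  have h6 : Fintype.card (ι → Y) * Fintype.card Y ≤
      Fintype.card E * (Fintype.card (ι → Y) * β) := by
    calc Fintype.card (ι → Y) * Fintype.card Y
        ≤ (∑ e : E, (Finset.univ.filter (bad e)).card) * Fintype.card Y :=
          Nat.mul_le_mul_right _ h5
      _ = ∑ e : E, (Finset.univ.filter (bad e)).card * Fintype.card Y := Finset.sum_mul _ _ _
      _ ≤ ∑ _e : E, Fintype.card (ι → Y) * β := Finset.sum_le_sum fun e _ => key e
      _ = Fintype.card E * (Fintype.card (ι → Y) * β) := by
          rw [Finset.sum_const, Finset.card_univ, smul_eq_mul]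
  have h7 : Fintype.card E * (Fintype.card (ι → Y) * β) =
      Fintype.card (ι → Y) * (Fintype.card E * β) := by ring
  rw [h7] at h6
  exact absurd (Nat.le_of_mul_le_mul_left h6 hpos) (not_le.2 hlt)

end

end Pool.Agent.Lib.MP_0f7bfe_al.QT
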