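import Pool.Agent.Lib.MP_0f7bfe_al.QT.R1

open scoped Pointwise

namespace Pool.Agent.Lib.MP_0f7bfe_al.QT

open Pool.Agent.Lib.MP_0f7bfe_al.OE

universe u v

section
variable {X : Type u} {Gr : SimpleGraph X} {A : Type v} [CommGroup A] [MulAction A X]
  {w b : ℕ → ℕ}

private theorem qt_r2_ncard {B Y : Type*} {β : ℕ} {Z : Set B} (hZf : Z.Finite) (hZ : Z.ncard ≤ β)
    (F : Y → B) (hF : Function.Injective F) (s : Set Y) (hs : ∀ z ∈ s, F z ∈ Z) : s.ncard ≤ β :=
  (Set.ncard_le_ncard_of_injOn F hs hF.injOn hZf).trans hZ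

/-- HINT: two applications of `choose_tuple`. First `y`: `ι = Fin n`, `Y = Finset (Fin m')`
(card `2 ^ m'`), events `E = Fin n × Fin n × Fin n × Finset (Fin m) × Finset (Fin m) × Fin (m'+1)`
(card `n ^ 3 * 2 ^ (2 * m) * (m' + 1)`), `k (i, j, k, ..) = k`, bad iff `k ≠ i`, `k ≠ j` and the
element is in `Z`; the other factors do not depend on `y k`, and `z ↦ a x2 * b z * c⁻¹` is
injective, so at most `Z.ncard ≤ β` values `z` are bad. Then `x : Fin n × Fin n → Finset (Fin m)`:
events `(Fin n × Fin n) × (Fin n × Fin n) × Fin (m'+1) × Fin (m'+1)`, free coordinate `(k, l)`. -/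
theorem core_count {B : Type*} [CommGroup B] {m m' n β : ℕ} (a : Finset (Fin m) → B)
    (b : Finset (Fin m') → B) (ha : Function.Injective a) (hb : Function.Injective b)
    (Z : Set B) (hZf : Z.Finite) (hZ : Z.ncard ≤ β)
    (mix : Fin (m' + 1) → Finset (Fin m') → Finset (Fin m') → Finset (Fin m'))
    (h2 : n ^ 3 * 2 ^ (2 * m) * (m' + 1) * β < 2 ^ m') (h3 : n ^ 4 * (m' + 1) ^ 2 * β < 2 ^ m) :
    ∃ (y : Fin n → Finset (Fin m')) (x : Fin n → Fin n → Finset (Fin m)),
      (∀ i j k, k ≠ i → k ≠ j → ∀ x1 x2 t,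
        a x2 * b (y k) * (a x1 * b (mix t (y i) (y j)))⁻¹ ∉ Z) ∧
      (∀ i j k l, (i, j) ≠ (k, l) → ∀ t t',
        a (x k l) * b (mix t' (y k) (y l)) * (a (x i j) * b (mix t (y i) (y j)))⁻¹ ∉ Z) := by
  classical
  obtain ⟨y, hy⟩ := choose_tuple (ι := Fin n) (Y := Finset (Fin m'))
    (E := Fin n × Fin n × Fin n × Finset (Fin m) × Finset (Fin m) × Fin (m' + 1))
    (fun e => e.2.2.1)
    (fun e y => e.2.2.1 ≠ e.1 ∧ e.2.2.1 ≠ e.2.1 ∧
      a e.2.2.2.2.1 * b (y e.2.2.1) * (a e.2.2.2.1 * b (mix e.2.2.2.2.2 (y e.1) (y e.2.1)))⁻¹ ∈ Z) β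
    (by
      rintro ⟨i, j, k, x1, x2, t⟩ y
      by_cases hk : k ≠ i ∧ k ≠ j
      · refine qt_r2_ncard hZf hZ (fun z => a x2 * b z * (a x1 * b (mix t (y i) (y j)))⁻¹) ?_ _ ?_
        · intro z z' hzz
          simp only [mul_left_inj, mul_right_inj] at hzz
          exact hb hzz
        · rintro z ⟨h1, h2, h3⟩
          simp only at h3
          rw [Function.update_self, Function.update_of_ne (Ne.symm hk.1),
            Function.update_of_ne (Ne.symm hk.2)] at h3
          exact h3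
      · have : {z | k ≠ i ∧ k ≠ j ∧ a x2 * b (Function.update y k z k) *
            (a x1 * b (mix t (Function.update y k z i) (Function.update y k z j)))⁻¹ ∈ Z} = ∅ := by
          ext z
          simp only [Set.mem_setOf_eq, Set.mem_empty_iff_false, iff_false]
          rintro ⟨h1, h2, -⟩
          exact hk ⟨h1, h2⟩
        simp only
        rw [this]
        simp)
    (by
      simp only [Fintype.card_prod, Fintype.card_fin, Fintype.card_finset]
      calc n * (n * (n * (2 ^ m * (2 ^ m * (m' + 1))))) * β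
          = n ^ 3 * 2 ^ (2 * m) * (m' + 1) * β := by ring
        _ < 2 ^ m' := h2)
  obtain ⟨x, hx⟩ := choose_tuple (ι := Fin n × Fin n) (Y := Finset (Fin m))
    (E := (Fin n × Fin n) × (Fin n × Fin n) × Fin (m' + 1) × Fin (m' + 1))
    (fun e => e.2.1)
    (fun e x => e.1 ≠ e.2.1 ∧
      a (x e.2.1) * b (mix e.2.2.2 (y e.2.1.1) (y e.2.1.2)) *
        (a (x e.1) * b (mix e.2.2.1 (y e.1.1) (y e.1.2)))⁻¹ ∈ Z) β
    (by
      rintro ⟨p, q, t, t'⟩ x
      by_cases hk : p ≠ q
      · refine qt_r2_ncard hZf hZ (fun z => a z * b (mix t' (y q.1) (y q.2)) *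
          (a (x p) * b (mix t (y p.1) (y p.2)))⁻¹) ?_ _ ?_
        · intro z z' hzz
          simp only [mul_left_inj] at hzz
          exact ha hzz
        · rintro z ⟨h1, h3⟩
          simp only at h3
          rw [Function.update_self, Function.update_of_ne hk] at h3
          exact h3
      · have : {z | p ≠ q ∧ a (Function.update x q z q) * b (mix t' (y q.1) (y q.2)) *
            (a (Function.update x q z p) * b (mix t (y p.1) (y p.2)))⁻¹ ∈ Z} = ∅ := by
          ext z
          simp only [Set.mem_setOf_eq, Set.mem_empty_iff_false, iff_false]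
          rintro ⟨h1, -⟩
          exact hk h1
        simp only
        rw [this]
        simp)
    (by
      simp only [Fintype.card_prod, Fintype.card_fin, Fintype.card_finset]
      calc n * n * (n * n * ((m' + 1) * (m' + 1))) * β
          = n ^ 4 * (m' + 1) ^ 2 * β := by ring
        _ < 2 ^ m := h3)
  refine ⟨y, fun i j => x (i, j), ?_, ?_⟩
  · intro i j k hki hkj x1 x2 t hmem
    exact hy (i, j, k, x1, x2, t) ⟨hki, hkj, hmem⟩
  · intro i j k l hne t t' hmem
    exact hx ((i, j), (k, l), t, t') ⟨hne, hmem⟩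

end

end Pool.Agent.Lib.MP_0f7bfe_al.QT
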