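import Pool.Agent.Lib.MP_0f7bfe_al.QT.Defs

open scoped Pointwise

namespace Pool.Agent.Lib.MP_0f7bfe_al.QT

open Pool.Agent.Lib.MP_0f7bfe_al.OE

universe u v

section
variable {X : Type u} {Gr : SimpleGraph X} {A : Type v} [CommGroup A] [MulAction A X]
  {w b : ℕ → ℕ}

/-- HINT: if `Far K S (u • S)` fails, `S = σ ∪ R`, there are `x, x' ∈ S` with
`dist x (u • x') ≤ K`. Cases: `x, x' ∈ σ`: `u ∈ N0` (class of `1`). `x ∈ R`, `x' ∈ σ`: the point
`y = u • x'` lies in the ball of radius `K` around `x`; for fixed `x, y` all such `u` lie in one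
coset of `N0` (if `u • x' = y = v • x''` with `x', x'' ∈ σ` then `dist x'' ((v⁻¹ * u) • x') = 0`,
so `v⁻¹ * u ∈ Dm σ K ⊆ N0`). `x ∈ σ`, `x' ∈ R`: same for `u⁻¹`. `x, x' ∈ R`: for fixed `x, x', y`
there is at most one `u` with `u • x' = y` (freeness). Total
`≤ 1 + 2 * |R| * w K + |R| ^ 2 * w K ≤ (|R| + 1) ^ 2 * w K` (`1 ≤ w K` since `σ` is nonempty and
balls contain their centre). For `Z` take the union of images, e.g.
`Z = {1} ∪ ⋃ x ∈ R, ⋃ y ∈ ball x, (at most one coset) ∪ ...`; choose the coset by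
`Classical.choice` when it exists. -/
theorem bad_cosets (h : Act Gr A w) {σ R : Set X} {K : ℕ} (hσ : σ.Nonempty) (hR : R.Finite)
    (N0 : Subgroup A) (hN : Dm Gr A σ K ⊆ N0) :
    ∃ Z : Set (A ⧸ N0), Z.Finite ∧ Z.ncard ≤ (R.ncard + 1) ^ 2 * w K ∧
      ∀ u : A, ¬ Far Gr K (σ ∪ R) (u • (σ ∪ R)) → (u : A ⧸ N0) ∈ Z := by
  classical
  -- one coset for every point
  have hf : ∀ y : X, ∃ q : A ⧸ N0, ∀ u : A, ∀ x' ∈ σ, u • x' = y → (u : A ⧸ N0) = q := by
    intro y
    by_cases hy : ∃ v : A, ∃ x'' ∈ σ, v • x'' = y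
    · obtain ⟨v, x'', hx'', hv⟩ := hy
      refine ⟨(v : A ⧸ N0), fun u x' hx' hu => ?_⟩
      refine (QuotientGroup.eq (s := N0) (a := u) (b := v)).2 ?_
      refine hN ⟨x', hx', x'', hx'', ?_⟩
      rw [mul_smul, hv, ← hu, inv_smul_smul, SimpleGraph.dist_self]
      exact Nat.zero_le _
    · push Not at hy
      exact ⟨1, fun u x' hx' hu => absurd hu (hy u x' hx')⟩
  choose f hf using hf
  have hg : ∀ p : X × X, ∃ q : A ⧸ N0, ∀ u : A, u • p.2 = p.1 → (u : A ⧸ N0) = q := by
    intro p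
    by_cases hp : ∃ v : A, v • p.2 = p.1
    · obtain ⟨v, hv⟩ := hp
      refine ⟨(v : A ⧸ N0), fun u hu => ?_⟩
      have h1 : (v⁻¹ * u) • p.2 = p.2 := by
        rw [mul_smul, hu, ← hv, inv_smul_smul]
      have h2 := h.free _ _ h1
      have h3 : u = v := (inv_mul_eq_one.1 h2).symm
      rw [h3]
    · push Not at hp
      exact ⟨1, fun u hu => absurd hu (hp u)⟩
  choose g hg using hg
  set B : X → Finset X := fun x => (h.nice.ball x K).toFinset with hB
  have hBmem : ∀ x y, y ∈ B x ↔ Gr.dist x y ≤ K := by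
    intro x y
    rw [hB, Set.Finite.mem_toFinset]
    rfl
  have hBcard : ∀ x, (B x).card ≤ w K := by
    intro x
    rw [hB, ← Set.ncard_eq_toFinset_card _ (h.nice.ball x K)]
    exact h.ball x K
  set Rf : Finset X := hR.toFinset with hRf
  have hRmem : ∀ x, x ∈ Rf ↔ x ∈ R := fun x => by rw [hRf, Set.Finite.mem_toFinset]
  have hRcard : Rf.card = R.ncard := (Set.ncard_eq_toFinset_card _ hR).symm
  set U : Finset X := Rf.biUnion B with hU
  have hUcard : U.card ≤ R.ncard * w K := by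
    rw [← hRcard]
    exact Finset.card_biUnion_le_card_mul _ _ _ fun x _ => hBcard x
  have hw : 1 ≤ w K := by
    obtain ⟨x, _⟩ := hσ
    refine le_trans ?_ (hBcard x)
    rw [Nat.one_le_iff_ne_zero, Finset.card_ne_zero]
    exact ⟨x, (hBmem x x).2 (by rw [SimpleGraph.dist_self]; exact Nat.zero_le _)⟩
  set Z : Finset (A ⧸ N0) := {1} ∪ U.image f ∪ U.image (fun y => (f y)⁻¹) ∪
    (U ×ˢ Rf).image g with hZ
  refine ⟨(Z : Set (A ⧸ N0)), Z.finite_toSet, ?_, ?_⟩
  · rw [Set.ncard_coe_finset]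
    have h1 : Z.card ≤ 1 + U.card + U.card + U.card * Rf.card := by
      rw [hZ]
      refine (Finset.card_union_le _ _).trans (Nat.add_le_add ?_ ?_)
      · refine (Finset.card_union_le _ _).trans (Nat.add_le_add ?_ Finset.card_image_le)
        refine (Finset.card_union_le _ _).trans (Nat.add_le_add ?_ Finset.card_image_le)
        rw [Finset.card_singleton]
      · refine Finset.card_image_le.trans ?_
        rw [Finset.card_product]
    rw [hRcard] at h1
    have h2 : U.card * R.ncard ≤ R.ncard * w K * R.ncard := Nat.mul_le_mul_right _ hUcard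
    have h3 : (R.ncard + 1) ^ 2 * w K = w K + R.ncard * w K + R.ncard * w K +
      R.ncard * w K * R.ncard := by ring
    omega
  · intro u hu
    have hu' : ∃ x ∈ σ ∪ R, ∃ x' ∈ σ ∪ R, Gr.dist x (u • x') ≤ K := by
      by_contra hcon
      push Not at hcon
      refine hu fun x hx y hy => ?_
      obtain ⟨x', hx', rfl⟩ := hy
      exact hcon x hx x' hx'
    obtain ⟨x, hx, x', hx', hd⟩ := hu'
    rw [Finset.mem_coe, hZ, Finset.mem_union, Finset.mem_union, Finset.mem_union]
    rcases hx with hx | hx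
    · rcases hx' with hx' | hx'
      · left; left; left
        rw [Finset.mem_singleton, QuotientGroup.eq_one_iff]
        exact hN ⟨x, hx, x', hx', hd⟩
      · left; right
        rw [Finset.mem_image]
        have hd' : Gr.dist x' (u⁻¹ • x) ≤ K := by
          have h1 := h.iso u⁻¹ x (u • x')
          rw [inv_smul_smul] at h1
          rw [SimpleGraph.dist_comm, h1]
          exact hd
        refine ⟨u⁻¹ • x, Finset.mem_biUnion.2 ⟨x', (hRmem x').2 hx', (hBmem _ _).2 hd'⟩, ?_⟩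
        rw [← hf (u⁻¹ • x) u⁻¹ x hx rfl]
        rw [QuotientGroup.mk_inv, inv_inv]
    · rcases hx' with hx' | hx'
      · left; left; right
        rw [Finset.mem_image]
        exact ⟨u • x', Finset.mem_biUnion.2 ⟨x, (hRmem x).2 hx, (hBmem _ _).2 hd⟩,
          (hf _ u x' hx' rfl).symm⟩
      · right
        rw [Finset.mem_image]
        exact ⟨(u • x', x'), Finset.mem_product.2 ⟨Finset.mem_biUnion.2 ⟨x, (hRmem x).2 hx,
          (hBmem _ _).2 hd⟩, (hRmem x').2 hx'⟩, (hg (u • x', x') u rfl).symm⟩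

end

end Pool.Agent.Lib.MP_0f7bfe_al.QT
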