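import Pool.Agent.Lib.MP_0f7bfe_al.QT.G2

open scoped Pointwise

namespace Pool.Agent.Lib.MP_0f7bfe_al.QT

open Pool.Agent.Lib.MP_0f7bfe_al.OE

universe u v

section
variable {X : Type u} {Gr : SimpleGraph X} {A : Type v} [CommGroup A] [MulAction A X]
  {w b : ℕ → ℕ}

theorem qt_r4_aux (h : Act Gr A w) {σ : Set X} (hσ : FC Gr σ) {lam : ℕ} (g : ℕ → A) (r : ℕ)
    (hg : ∀ i < r, g i ∈ Dm Gr A σ lam) :
    ∃ R : Set X, R.Finite ∧ R.ncard ≤ r * (lam + 1) ∧ FC Gr (σ ∪ R) ∧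
      ∀ i < r, ∃ y ∈ σ, g i • y ∈ R := by
  classical
  induction r with
  | zero =>
    refine ⟨∅, Set.finite_empty, by simp, by simpa using hσ, fun i hi => absurd hi (by omega)⟩
  | succ r ih =>
    obtain ⟨R, hRf, hRc, hRfc, hR⟩ := ih fun i hi => hg i (by omega)
    obtain ⟨x, hx, y, hy, hxy⟩ := hg r (by omega)
    obtain ⟨p, hp⟩ := h.nice.conn.exists_walk_length_eq_dist x (g r • y)
    set Q : Set X := {z | z ∈ p.support} with hQ
    have hQfc : FC Gr Q := fc_support p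
    have hQc : Q.ncard ≤ lam + 1 := by
      have h1 : Q = (p.support.toFinset : Set X) := by
        ext z; simp [hQ]
      rw [h1, Set.ncard_coe_finset]
      refine (List.toFinset_card_le _).trans ?_
      rw [SimpleGraph.Walk.length_support, hp]
      omega
    refine ⟨R ∪ Q, hRf.union hQfc.fin, ?_, ?_, ?_⟩
    · refine (Set.ncard_union_le _ _).trans ?_
      rw [Nat.succ_mul]
      omega
    · rw [← Set.union_assoc]
      refine FC.union hRfc hQfc ⟨x, Or.inl hx, ?_⟩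
      exact p.start_mem_support
    · intro i hi
      rcases Nat.lt_succ_iff_lt_or_eq.mp hi with h1 | h1
      · obtain ⟨z, hz, hz'⟩ := hR i h1
        exact ⟨z, hz, Or.inl hz'⟩
      · subst h1
        exact ⟨y, hy, Or.inr p.end_mem_support⟩

/-- HINT: for `i < r` there are `x, y ∈ σ` with `dist x (g i • y) ≤ lam`; take the support of a
shortest walk from `x` to `g i • y` (at most `lam + 1` vertices, `fc_support`); `R` is the union of
these supports. Its end `g i • y` lies in `R` and in `g i • σ`. -/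
theorem star_set (h : Act Gr A w) {σ : Set X} (hσ : FC Gr σ) {r lam : ℕ} (g : ℕ → A)
    (hg : ∀ i < r, g i ∈ Dm Gr A σ lam) :
    ∃ R : Set X, R.Finite ∧ R.ncard ≤ r * (lam + 1) ∧ FC Gr (σ ∪ R) ∧
      ∀ i < r, ((σ ∪ R) ∩ g i • (σ ∪ R)).Nonempty := by
  obtain ⟨R, h1, h2, h3, h4⟩ := qt_r4_aux h hσ g r hg
  refine ⟨R, h1, h2, h3, fun i hi => ?_⟩
  obtain ⟨y, hy, hy'⟩ := h4 i hi
  exact ⟨g i • y, Or.inr hy', Set.smul_mem_smul_set (Or.inl hy)⟩

end

end Pool.Agent.Lib.MP_0f7bfe_al.QT
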