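import Pool.Agent.Lib.MP_0f7bfe_al.QT.Defs

open scoped Pointwise

namespace Pool.Agent.Lib.MP_0f7bfe_al.QT

open Pool.Agent.Lib.MP_0f7bfe_al.OE

universe u v

section
variable {X : Type u} {Gr : SimpleGraph X} {A : Type v} [CommGroup A] [MulAction A X]
  {w b : ℕ → ℕ}

theorem qt_r5_aux (N0 : Subgroup A) {r : ℕ} (g : ℕ → A) (s t : Finset (Fin r)) (i : Fin r)
    (his : i ∈ s) (hit : i ∉ t) (hmax : ∀ j : Fin r, i < j → (j ∈ s ↔ j ∈ t))
    (h : ((∏ i ∈ s, g i : A) : A ⧸ N0) = ((∏ i ∈ t, g i : A) : A ⧸ N0)) :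
    g i ∈ N0 ⊔ Subgroup.closure (g '' Set.Iio (i : ℕ)) := by
  classical
  set L := N0 ⊔ Subgroup.closure (g '' Set.Iio (i : ℕ)) with hL
  have hlow : ∀ u : Finset (Fin r), ∏ j ∈ u.filter (fun j => j < i), g j ∈ L := by
    intro u
    refine Subgroup.prod_mem _ fun j hj => ?_
    rw [Finset.mem_filter] at hj
    refine (le_sup_right : Subgroup.closure (g '' Set.Iio (i : ℕ)) ≤ L)
      (Subgroup.subset_closure ⟨(j : ℕ), ?_, rfl⟩)
    exact hj.2
  have hs : ∏ j ∈ s, g j = (∏ j ∈ s.filter (fun j => j < i), g j) *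
      (g i * ∏ j ∈ s.filter (fun j => i < j), g j) := by
    rw [← Finset.prod_filter_mul_prod_filter_not s (fun j => j < i)]
    congr 1
    have h1 : s.filter (fun j => ¬ j < i) = insert i (s.filter (fun j => i < j)) := by
      ext j
      simp only [Finset.mem_filter, Finset.mem_insert, not_lt]
      constructor
      · rintro ⟨h1, h2⟩
        rcases eq_or_lt_of_le h2 with h3 | h3
        · exact Or.inl h3.symm
        · exact Or.inr ⟨h1, h3⟩
      · rintro (h1 | ⟨h1, h2⟩)
        · subst h1; exact ⟨his, le_rfl⟩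
        · exact ⟨h1, h2.le⟩
    rw [h1, Finset.prod_insert (by simp)]
  have ht : ∏ j ∈ t, g j = (∏ j ∈ t.filter (fun j => j < i), g j) *
      ∏ j ∈ s.filter (fun j => i < j), g j := by
    rw [← Finset.prod_filter_mul_prod_filter_not t (fun j => j < i)]
    congr 1
    have h1 : t.filter (fun j => ¬ j < i) = s.filter (fun j => i < j) := by
      ext j
      simp only [Finset.mem_filter, not_lt]
      constructor
      · rintro ⟨h1, h2⟩
        rcases eq_or_lt_of_le h2 with h3 | h3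
        · subst h3; exact absurd h1 hit
        · exact ⟨(hmax j h3).2 h1, h3⟩
      · rintro ⟨h1, h2⟩
        exact ⟨(hmax j h2).1 h1, h2.le⟩
    rw [h1]
  rw [QuotientGroup.eq, hs, ht] at h
  set Ps := ∏ j ∈ s.filter (fun j => j < i), g j with hPs
  set Pt := ∏ j ∈ t.filter (fun j => j < i), g j with hPt
  set U := ∏ j ∈ s.filter (fun j => i < j), g j with hU
  have h2 : g i = Ps⁻¹ * Pt * ((Ps * (g i * U))⁻¹ * (Pt * U))⁻¹ := by
    simp only [mul_inv_rev, inv_inv]
    calc g i = (Ps⁻¹ * Ps) * (Pt * Pt⁻¹) * (U⁻¹ * U) * g i := by simp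
      _ = Ps⁻¹ * Pt * (U⁻¹ * Pt⁻¹ * (Ps * (g i * U))) := by
          simp only [mul_comm, mul_left_comm, mul_assoc]
  rw [h2]
  refine Subgroup.mul_mem _ (Subgroup.mul_mem _ (Subgroup.inv_mem _ (hlow s)) (hlow t))
    (Subgroup.inv_mem _ ?_)
  exact (le_sup_left : N0 ≤ L) h

/-- HINT: let `s ≠ t` with equal images; let `i` be the largest element of the symmetric
difference. Then (in the commutative group `A ⧸ N0`) `g i` or its inverse is a product of elements
`(g j) ^ (±1)`, `j < i`, modulo `N0`, so `g i ∈ N0 ⊔ closure (g '' Iio i)`. -/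
theorem prod_inj (N0 : Subgroup A) {r : ℕ} (g : ℕ → A)
    (hg : ∀ i < r, g i ∉ N0 ⊔ Subgroup.closure (g '' Set.Iio i)) :
    Function.Injective (fun s : Finset (Fin r) => ((∏ i ∈ s, g i : A) : A ⧸ N0)) := by
  classical
  intro s t hst
  by_contra hne
  have hne' : (symmDiff s t).Nonempty := by
    rw [Finset.nonempty_iff_ne_empty]
    intro h
    exact hne (symmDiff_eq_bot.mp h)
  set i := (symmDiff s t).max' hne' with hi
  have himem : i ∈ symmDiff s t := Finset.max'_mem _ _
  have hmax : ∀ j : Fin r, i < j → (j ∈ s ↔ j ∈ t) := by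
    intro j hj
    by_contra hcon
    have : j ∈ symmDiff s t := by
      rw [Finset.mem_symmDiff]
      by_cases h1 : j ∈ s
      · left; exact ⟨h1, fun h2 => hcon ⟨fun _ => h2, fun _ => h1⟩⟩
      · right
        refine ⟨?_, h1⟩
        by_contra h2
        exact hcon ⟨fun h => absurd h h1, fun h => absurd h h2⟩
    have := Finset.le_max' _ _ this
    exact absurd (lt_of_lt_of_le hj this) (lt_irrefl _)
  rw [Finset.mem_symmDiff] at himem
  rcases himem with ⟨h1, h2⟩ | ⟨h1, h2⟩
  · exact hg i i.2 (qt_r5_aux N0 g s t i h1 h2 hmax hst)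
  · exact hg i i.2 (qt_r5_aux N0 g t s i h1 h2 (fun j hj => (hmax j hj).symm) hst.symm)

end

end Pool.Agent.Lib.MP_0f7bfe_al.QT
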