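import Pool.Agent.Lib.MP_0f7bfe_al.QT.G1
import Pool.Agent.Lib.MP_0f7bfe_al.QT.G2

open scoped Pointwise

namespace Pool.Agent.Lib.MP_0f7bfe_al.QT

open Pool.Agent.Lib.MP_0f7bfe_al.OE

universe u v

section
variable {X : Type u} {Gr : SimpleGraph X} {A : Type v} [CommGroup A] [MulAction A X]
  {w b : ℕ → ℕ}

theorem qt_r6_meet {S : Set X} {a : A} (h : (S ∩ a • S).Nonempty) (c : A) :
    (c • S ∩ (a * c) • S).Nonempty := by
  obtain ⟨z, hz1, hz2⟩ := h
  refine ⟨c • z, Set.smul_mem_smul_set hz1, ?_⟩
  rw [mul_comm, mul_smul]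
  exact Set.smul_mem_smul_set hz2

/-- HINT: `fc_iUnion` with `i0 = ∅`; chain by `Finset.induction_on`: the members for `x` and
`insert i x` are `c' • S` and `(g i * c') • S`, which meet because `S ∩ g i • S` is nonempty. -/
theorem fc_row (h : Act Gr A w) {S : Set X} (hS : FC Gr S) {m : ℕ} (g : Fin m → A)
    (hg : ∀ i, (S ∩ g i • S).Nonempty) (c : A) :
    FC Gr (⋃ x : Finset (Fin m), ((∏ i ∈ x, g i) * c) • S) := by
  classical
  refine fc_iUnion (fun x : Finset (Fin m) => ((∏ i ∈ x, g i) * c) • S) ∅
    (fun x => fc_smul h hS _) fun x => ?_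
  induction x using Finset.induction_on with
  | empty => exact Relation.ReflTransGen.refl
  | insert i x hi ih =>
    refine ih.tail ?_
    show (((∏ i ∈ x, g i) * c) • S ∩ ((∏ i ∈ insert i x, g i) * c) • S).Nonempty
    rw [Finset.prod_insert hi, mul_assoc]
    exact qt_r6_meet (hg i) _

/-- path in the cube from `y` to `y'` -/
def mix {m' : ℕ} (t : Fin (m' + 1)) (y y' : Finset (Fin m')) : Finset (Fin m') :=
  y'.filter (fun i => (i : ℕ) < t) ∪ y.filter (fun i => (t : ℕ) ≤ i)

theorem qt_r6_mem {m' : ℕ} (t : Fin (m' + 1)) (y y' : Finset (Fin m')) (i : Fin m') :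
    i ∈ mix t y y' ↔ (i ∈ y' ∧ (i : ℕ) < t) ∨ (i ∈ y ∧ (t : ℕ) ≤ i) := by
  simp [mix]

/-- HINT: `fc_iUnion` over `t : Fin (m' + 1)`; `mix t y y'` and `mix (t+1) y y'` are equal or
differ by the element `t`. -/
theorem fc_col (h : Act Gr A w) {S : Set X} (hS : FC Gr S) {m' : ℕ} (g : Fin m' → A)
    (hg : ∀ i, (S ∩ g i • S).Nonempty) (c : A) (y y' : Finset (Fin m')) :
    FC Gr (⋃ t : Fin (m' + 1), (c * ∏ i ∈ mix t y y', g i) • S) := by
  classical
  refine fc_iUnion (fun t : Fin (m' + 1) => (c * ∏ i ∈ mix t y y', g i) • S) 0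
    (fun x => fc_smul h hS _) fun t => ?_
  induction t using Fin.induction with
  | zero => exact Relation.ReflTransGen.refl
  | succ t ih =>
    refine ih.tail ?_
    show ((c * ∏ i ∈ mix t.castSucc y y', g i) • S ∩
      (c * ∏ i ∈ mix t.succ y y', g i) • S).Nonempty
    have hne : ∀ i : Fin m', i ≠ t → (i ∈ mix t.castSucc y y' ↔ i ∈ mix t.succ y y') := by
      intro i hi
      have hi' : (i : ℕ) ≠ t := fun h => hi (Fin.ext h)
      rw [qt_r6_mem, qt_r6_mem]
      simp only [Fin.val_castSucc, Fin.val_succ]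
      constructor
      · rintro (⟨h1, h2⟩ | ⟨h1, h2⟩)
        · exact Or.inl ⟨h1, by omega⟩
        · exact Or.inr ⟨h1, by omega⟩
      · rintro (⟨h1, h2⟩ | ⟨h1, h2⟩)
        · exact Or.inl ⟨h1, by omega⟩
        · exact Or.inr ⟨h1, by omega⟩
    by_cases h1 : t ∈ mix t.castSucc y y'
    · by_cases h2 : t ∈ mix t.succ y y'
      · have h3 : mix t.castSucc y y' = mix t.succ y y' := by
          ext i
          by_cases hi : i = t
          · subst hi; exact ⟨fun _ => h2, fun _ => h1⟩
          · exact hne i hi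
        rw [h3, Set.inter_self]
        exact (hg t).left.smul_set
      · have h3 : mix t.castSucc y y' = insert t (mix t.succ y y') := by
          ext i
          rw [Finset.mem_insert]
          by_cases hi : i = t
          · subst hi; exact ⟨fun _ => Or.inl rfl, fun _ => h1⟩
          · rw [hne i hi]
            exact ⟨Or.inr, fun h => h.resolve_left hi⟩
        rw [h3, Finset.prod_insert h2, mul_left_comm, Set.inter_comm]
        exact qt_r6_meet (hg t) _
    · by_cases h2 : t ∈ mix t.succ y y'
      · have h3 : mix t.succ y y' = insert t (mix t.castSucc y y') := by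
          ext i
          rw [Finset.mem_insert]
          by_cases hi : i = t
          · subst hi; exact ⟨fun _ => Or.inl rfl, fun _ => h2⟩
          · rw [← hne i hi]
            exact ⟨Or.inr, fun h => h.resolve_left hi⟩
        rw [h3, Finset.prod_insert h1, mul_left_comm]
        exact qt_r6_meet (hg t) _
      · have h3 : mix t.castSucc y y' = mix t.succ y y' := by
          ext i
          by_cases hi : i = t
          · subst hi; exact ⟨fun h => absurd h h1, fun h => absurd h h2⟩
          · exact hne i hi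
        rw [h3, Set.inter_self]
        exact (hg t).left.smul_set

end

end Pool.Agent.Lib.MP_0f7bfe_al.QT
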