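import Pool.Agent.Lib.MP_0f7bfe_al.QT.R2
import Pool.Agent.Lib.MP_0f7bfe_al.QT.R3
import Pool.Agent.Lib.MP_0f7bfe_al.QT.R4
import Pool.Agent.Lib.MP_0f7bfe_al.QT.R5
import Pool.Agent.Lib.MP_0f7bfe_al.QT.R6

open scoped Pointwise

namespace Pool.Agent.Lib.MP_0f7bfe_al.QT

open Pool.Agent.Lib.MP_0f7bfe_al.OE

universe u v

private theorem qt_r7_sym2 {n : ℕ} (e : Sym2 (Fin n)) (he : ¬ e.IsDiag) :
    ∃ i j, i < j ∧ e = s(i, j) := by
  induction e using Sym2.ind with
  | _ i j =>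
    rw [Sym2.mk_isDiag_iff] at he
    rcases lt_or_gt_of_ne he with h | h
    · exact ⟨i, j, h, rfl⟩
    · exact ⟨j, i, h, Sym2.eq_swap⟩

private theorem qt_r7_mix_self {m' : ℕ} (t : Fin (m' + 1)) (y : Finset (Fin m')) : mix t y y = y := by
  ext i
  simp only [mix, Finset.mem_union, Finset.mem_filter]
  constructor
  · rintro (h | h)
    · exact h.1
    · exact h.1
  · intro h
    rcases lt_or_ge (i : ℕ) (t : ℕ) with h' | h'
    · exact Or.inl ⟨h, h'⟩
    · exact Or.inr ⟨h, h'⟩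

private theorem qt_r7_mix_zero {m' : ℕ} (y y' : Finset (Fin m')) : mix 0 y y' = y := by
  ext i
  simp [mix]

private theorem qt_r7_mix_last {m' : ℕ} (y y' : Finset (Fin m')) : mix (Fin.last m') y y' = y' := by
  ext i
  simp only [mix, Finset.mem_union, Finset.mem_filter, Fin.val_last]
  constructor
  · rintro (h | h)
    · exact h.1
    · exact absurd i.2 (by omega)
  · intro h
    exact Or.inl ⟨h, i.2⟩

section
variable {X : Type u} {Gr : SimpleGraph X} {A : Type v} [CommGroup A] [MulAction A X]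
  {w b : ℕ → ℕ}

private theorem qt_r7_far (h : Act Gr A w) {K : ℕ} {S : Set X} {N0 : Subgroup A} {Z : Set (A ⧸ N0)}
    (hZ : ∀ u : A, ¬ Far Gr K S (u • S) → (u : A ⧸ N0) ∈ Z) (c c' : A)
    (hc : ((c' * c⁻¹ : A) : A ⧸ N0) ∉ Z) : Far Gr K (c • S) (c' • S) := by
  have e1 : c' • S = c • ((c' * c⁻¹) • S) := by
    rw [smul_smul]
    congr 1
    rw [mul_comm c, mul_assoc, inv_mul_cancel, mul_one]
  rw [e1, far_smul h]
  by_contra hcon
  exact hc (hZ _ hcon)

/-- HINT: let `R` be from `star_set` (`r = m + m'`), `S = σ ∪ R`, `Z` from `bad_cosets`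
(`R.ncard ≤ (m+m') * (lam+1)`). Let `a x = ∏ i ∈ x, g i` (`x : Finset (Fin m)`) and
`b y = ∏ j ∈ y, g (m + j)` (`y : Finset (Fin m')`), both injective modulo `N0` by `prod_inj` (for
`b` use the sequence `fun j => g (m + j)`; the hypothesis `hi` is stronger). `core_count` in
`A ⧸ N0` with `mix` gives `y`, `x`. Branch sets `B_i = ⋃ x, (a x * b (y i)) • S` (`fc_row`), linking
sets for `i < j`: `P_ij = ⋃ t, (a (x i j) * b (mix t (y i) (y j))) • S` (`fc_col`). They meet `B_i`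
(`t = 0`: `mix 0 (y i) (y j) = y i`) and `B_j` (`t = m'`: `mix _ = y j`). Far: two members
`c • S`, `c' • S` are `K`-far as soon as `((c' * c⁻¹ : A) : A ⧸ N0) ∉ Z` (isometry and
`bad_cosets`). Note `B_i` vs `B_k`: use the first property of `core_count` with `j = i`
(`mix t y y = y`). For `P : Sym2 (Fin n) → Set X` use `Sym2.lift` of a symmetric function, or
`fun e => P_ij` with `i = min`, `j = max` chosen by `if i < j`. -/
theorem lemmaR (h : Act Gr A w) {K n m m' lam : ℕ}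
    (h2 : n ^ 3 * 2 ^ (2 * m) * (m' + 1) * (((m + m') * (lam + 1) + 1) ^ 2 * w K) < 2 ^ m')
    (h3 : n ^ 4 * (m' + 1) ^ 2 * (((m + m') * (lam + 1) + 1) ^ 2 * w K) < 2 ^ m)
    {σ : Set X} (hσ : FC Gr σ) (N0 : Subgroup A) (hN : Dm Gr A σ K ⊆ N0) (g : ℕ → A)
    (hg : ∀ i < m + m', g i ∈ Dm Gr A σ lam)
    (hi : ∀ i < m + m', g i ∉ N0 ⊔ Subgroup.closure (g '' Set.Iio i)) : FatClique Gr K n := by
  obtain ⟨R, hRf, hRc, hS, hmeet⟩ := star_set h hσ g hg
  have hσne : σ.Nonempty := by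
    obtain ⟨⟨x, hx⟩⟩ := hσ.conn.nonempty
    exact ⟨x, hx⟩
  obtain ⟨Z, hZf, hZc, hZ⟩ := bad_cosets h (K := K) hσne hRf N0 hN
  set S : Set X := σ ∪ R with hSdef
  have hSne : S.Nonempty := hσne.mono Set.subset_union_left
  set a : Finset (Fin m) → A := fun x => ∏ i ∈ x, g i with hadef
  set c : Finset (Fin m') → A := fun y => ∏ j ∈ y, g (m + j) with hcdef
  have ha : Function.Injective (fun x => ((a x : A) : A ⧸ N0)) :=
    prod_inj N0 (r := m) g (fun i hi' => hi i (by omega))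
  have hb : Function.Injective (fun y => ((c y : A) : A ⧸ N0)) := by
    refine prod_inj N0 (r := m') (fun j => g (m + j)) (fun j hj hmem => hi (m + j) (by omega) ?_)
    refine (sup_le_sup_left (Subgroup.closure_mono ?_) N0) hmem
    rintro _ ⟨k, hk, rfl⟩
    exact ⟨m + k, by simpa using hk, rfl⟩
  have hZc' : Z.ncard ≤ ((m + m') * (lam + 1) + 1) ^ 2 * w K := by
    refine hZc.trans (Nat.mul_le_mul_right _ (Nat.pow_le_pow_left ?_ 2))
    omega
  obtain ⟨y, x, hyx, hxx⟩ := core_count (fun x => ((a x : A) : A ⧸ N0)) (fun y => ((c y : A) : A ⧸ N0))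
    ha hb Z hZf hZc' (fun t => mix t) h2 h3
  have farm := qt_r7_far h (S := S) hZ
  let B : Fin n → Set X := fun i => ⋃ s : Finset (Fin m), (a s * c (y i)) • S
  let Q : Fin n → Fin n → Set X := fun i j => ⋃ t : Fin (m' + 1), (a (x i j) * c (mix t (y i) (y j))) • S
  have hBfc : ∀ i, FC Gr (B i) := fun i =>
    fc_row h hS (fun i : Fin m => g i) (fun i => hmeet i (by omega)) (c (y i))
  have hQfc : ∀ i j, FC Gr (Q i j) := fun i j =>
    fc_col h hS (fun j : Fin m' => g (m + j)) (fun j => hmeet (m + j) (by omega)) (a (x i j)) (y i) (y j)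
  have hQi : ∀ i j, (Q i j ∩ B i).Nonempty := by
    intro i j
    obtain ⟨z, hz⟩ := hSne
    refine ⟨(a (x i j) * c (y i)) • z, ?_, ?_⟩
    · refine Set.mem_iUnion.2 ⟨0, ?_⟩
      rw [qt_r7_mix_zero]
      exact Set.smul_mem_smul_set hz
    · exact Set.mem_iUnion.2 ⟨x i j, Set.smul_mem_smul_set hz⟩
  have hQj : ∀ i j, (Q i j ∩ B j).Nonempty := by
    intro i j
    obtain ⟨z, hz⟩ := hSne
    refine ⟨(a (x i j) * c (y j)) • z, ?_, ?_⟩
    · refine Set.mem_iUnion.2 ⟨Fin.last m', ?_⟩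
      rw [qt_r7_mix_last]
      exact Set.smul_mem_smul_set hz
    · exact Set.mem_iUnion.2 ⟨x i j, Set.smul_mem_smul_set hz⟩
  have hBB : ∀ i k, i ≠ k → Far Gr K (B i) (B k) := by
    intro i k hik u hu v hv
    obtain ⟨s, hs⟩ := Set.mem_iUnion.1 hu
    obtain ⟨s', hs'⟩ := Set.mem_iUnion.1 hv
    have h4 := hyx i i k hik.symm hik.symm s s' 0
    rw [qt_r7_mix_self] at h4
    exact farm _ _ (by exact_mod_cast h4) u hs v hs'
  have hQB : ∀ i j k, k ≠ i → k ≠ j → Far Gr K (Q i j) (B k) := by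
    intro i j k hki hkj u hu v hv
    obtain ⟨t, hs⟩ := Set.mem_iUnion.1 hu
    obtain ⟨s', hs'⟩ := Set.mem_iUnion.1 hv
    have h4 := hyx i j k hki hkj (x i j) s' t
    exact farm _ _ (by exact_mod_cast h4) u hs v hs'
  have hQQ : ∀ i j k l, (i, j) ≠ (k, l) → Far Gr K (Q i j) (Q k l) := by
    intro i j k l hne u hu v hv
    obtain ⟨t, hs⟩ := Set.mem_iUnion.1 hu
    obtain ⟨t', hs'⟩ := Set.mem_iUnion.1 hv
    have h4 := hxx i j k l hne t t'
    exact farm _ _ (by exact_mod_cast h4) u hs v hs'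
  have hinf : ∀ i j : Fin n, i < j → (s(i, j) : Sym2 (Fin n)).inf = i := by
    intro i j hij
    simp [hij.le]
  have hsup : ∀ i j : Fin n, i < j → (s(i, j) : Sym2 (Fin n)).sup = j := by
    intro i j hij
    simp [hij.le]
  refine ⟨B, fun e => Q e.inf e.sup, hBfc, ?_, hBB, ?_, ?_⟩
  · intro e he
    refine ⟨hQfc _ _, ?_⟩
    obtain ⟨i, j, hij, rfl⟩ := qt_r7_sym2 e he
    intro k hk
    beta_reduce
    rw [hinf i j hij, hsup i j hij]
    rcases Sym2.mem_iff.1 hk with rfl | rfl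
    · exact hQi _ _
    · exact hQj _ _
  · intro e f he hf hef
    obtain ⟨i, j, hij, rfl⟩ := qt_r7_sym2 e he
    obtain ⟨k, l, hkl, rfl⟩ := qt_r7_sym2 f hf
    beta_reduce
    rw [hinf i j hij, hsup i j hij, hinf k l hkl, hsup k l hkl]
    refine hQQ _ _ _ _ ?_
    rintro hpe
    rw [Prod.mk.injEq] at hpe
    exact hef (by rw [hpe.1, hpe.2])
  · intro e he k hk
    obtain ⟨i, j, hij, rfl⟩ := qt_r7_sym2 e he
    beta_reduce
    rw [hinf i j hij, hsup i j hij]
    rw [Sym2.mem_iff] at hk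
    push Not at hk
    exact hQB _ _ _ hk.1 hk.2

end

end Pool.Agent.Lib.MP_0f7bfe_al.QT
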