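import Pool.Agent.Lib.MP_0f7bfe_al.QT.Defs

open scoped Pointwise

namespace Pool.Agent.Lib.MP_0f7bfe_al.QT

open Pool.Agent.Lib.MP_0f7bfe_al.OE

universe u v

section
variable {X : Type u} {Gr : SimpleGraph X} {A : Type v} [CommGroup A] [MulAction A X]
  {w b : ℕ → ℕ}

theorem qt_r8_pow (C : ℕ) : ∃ m : ℕ, 1 ≤ m ∧ C * m ^ 6 < 2 ^ m := by
  have h := tendsto_pow_const_div_const_pow_of_one_lt 6 (r := (2 : ℝ)) (by norm_num)
  have hC : (0 : ℝ) < 1 / ((C : ℝ) + 1) := by positivity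
  have h1 := (h.eventually (gt_mem_nhds hC)).and (Filter.eventually_ge_atTop 1)
  obtain ⟨m, hm, hm1⟩ := h1.exists
  refine ⟨m, hm1, ?_⟩
  rw [div_lt_div_iff₀ (by positivity) (by positivity)] at hm
  have h2 : ((C * m ^ 6 : ℕ) : ℝ) < ((2 ^ m : ℕ) : ℝ) := by
    push_cast
    have h3 : (0 : ℝ) ≤ (m : ℝ) ^ 6 := by positivity
    nlinarith
  exact_mod_cast h2

/-- HINT: polynomial against exponential; for `m ≥ 1` everything is bounded by
`C * m ^ 8` resp. `C * m ^ 5 * 2 ^ (2 m)` with `C` depending on `K, n, wK`; use e.g.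
`tendsto_pow_const_mul_const_pow_of_abs_lt_one` / `isLittleO_pow_const_const_pow_of_one_lt` or
`m ^ 9 < 2 ^ m` eventually. -/
theorem numeric (K n wK : ℕ) : ∃ m : ℕ,
    n ^ 3 * 2 ^ (2 * m) * (4 * m + 1) *
      (((m + 4 * m) * (2 * K * (m + 4 * m + 1) + 1) + 1) ^ 2 * wK) < 2 ^ (4 * m) ∧
    n ^ 4 * (4 * m + 1) ^ 2 *
      (((m + 4 * m) * (2 * K * (m + 4 * m + 1) + 1) + 1) ^ 2 * wK) < 2 ^ m := by
  obtain ⟨m, hm1, hm⟩ := qt_r8_pow (25 * n ^ 4 * ((60 * K + 6) ^ 2 * wK))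
  refine ⟨m, ?_⟩
  have hE : ((m + 4 * m) * (2 * K * (m + 4 * m + 1) + 1) + 1) ^ 2 * wK ≤
      (60 * K + 6) ^ 2 * wK * m ^ 4 := by
    have h1 : (m + 4 * m) * (2 * K * (m + 4 * m + 1) + 1) + 1 ≤ (60 * K + 6) * m ^ 2 := by
      have h2 : 2 * K * (m + 4 * m + 1) + 1 ≤ (12 * K + 1) * m := by nlinarith
      calc (m + 4 * m) * (2 * K * (m + 4 * m + 1) + 1) + 1
          ≤ (m + 4 * m) * ((12 * K + 1) * m) + m ^ 2 := by
            have h3 := Nat.mul_le_mul_left (m + 4 * m) h2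
            have h4 : 1 ≤ m ^ 2 := Nat.one_le_pow _ _ hm1
            omega
        _ = (60 * K + 6) * m ^ 2 := by ring
    calc ((m + 4 * m) * (2 * K * (m + 4 * m + 1) + 1) + 1) ^ 2 * wK
        ≤ ((60 * K + 6) * m ^ 2) ^ 2 * wK := Nat.mul_le_mul_right _ (Nat.pow_le_pow_left h1 2)
      _ = (60 * K + 6) ^ 2 * wK * m ^ 4 := by ring
  set E := ((m + 4 * m) * (2 * K * (m + 4 * m + 1) + 1) + 1) ^ 2 * wK with hEdef
  set D := (60 * K + 6) ^ 2 * wK with hD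
  have h5 : 4 * m + 1 ≤ 5 * m := by omega
  have hn34 : n ^ 3 ≤ n ^ 4 := by
    rcases Nat.eq_zero_or_pos n with h | h
    · subst h; simp
    · exact Nat.pow_le_pow_right h (by norm_num)
  constructor
  · calc n ^ 3 * 2 ^ (2 * m) * (4 * m + 1) * E
        ≤ n ^ 4 * 2 ^ (2 * m) * (5 * m) * (D * m ^ 4) := by gcongr
      _ = 2 ^ (2 * m) * (5 * n ^ 4 * D * m ^ 5) := by ring
      _ ≤ 2 ^ (2 * m) * (25 * n ^ 4 * D * m ^ 6) := by
          apply Nat.mul_le_mul_left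
          have h6 : m ^ 5 ≤ m ^ 6 := Nat.pow_le_pow_right hm1 (by norm_num)
          gcongr
          norm_num
      _ < 2 ^ (2 * m) * 2 ^ m := by
          apply Nat.mul_lt_mul_of_pos_left hm (by positivity)
      _ ≤ 2 ^ (4 * m) := by
          rw [← pow_add]
          exact Nat.pow_le_pow_right (by norm_num) (by omega)
  · calc n ^ 4 * (4 * m + 1) ^ 2 * E ≤ n ^ 4 * (5 * m) ^ 2 * (D * m ^ 4) := by gcongr
      _ = 25 * n ^ 4 * D * m ^ 6 := by ring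
      _ < 2 ^ m := hm

end

end Pool.Agent.Lib.MP_0f7bfe_al.QT
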