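import Pool.Agent.Lib.MP_0f7bfe_al.QT.R7
import Pool.Agent.Lib.MP_0f7bfe_al.QT.R8

namespace Pool.Agent.Lib.MP_0f7bfe_al.QT

open Pool.Agent.Lib.MP_0f7bfe_al.OE

universe u v

theorem exists_noChain (K n : ℕ) (w : ℕ → ℕ) : ∃ I : ℕ, ∀ (X : Type u) (Gr : SimpleGraph X)
    (A : Type v) [CommGroup A] [MulAction A X], Act Gr A w → ¬ FatClique Gr K n →
    NoChain Gr A K I := by
  obtain ⟨m, h2, h3⟩ := numeric K n (w K)
  refine ⟨m + 4 * m, ?_⟩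
  intro X Gr A _ _ hA hno σ hσ N0 hN g hg
  by_contra hcon
  push Not at hcon
  exact hno (lemmaR hA (m := m) (m' := 4 * m) h2 h3 hσ N0 hN g hg hcon)

end Pool.Agent.Lib.MP_0f7bfe_al.QT
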