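import Pool.Agent.Lib.MP_0f7bfe_al.QT.Defs

open scoped Pointwise

namespace Pool.Agent.Lib.MP_0f7bfe_al.QT

open Pool.Agent.Lib.MP_0f7bfe_al.OE

universe u v

section
variable {X : Type u} {Gr : SimpleGraph X} {A : Type v} [CommGroup A] [MulAction A X]
  {w b : ℕ → ℕ}

theorem Dm_mono {J J' : Set X} (hJ : J ⊆ J') {κ κ' : ℕ} (hκ : κ ≤ κ') :
    Dm Gr A J κ ⊆ Dm Gr A J' κ' := by
  rintro a ⟨x, hx, y, hy, hd⟩
  exact ⟨x, hJ hx, y, hJ hy, hd.trans hκ⟩

theorem Mm_mono {J J' : Set X} (hJ : J ⊆ J') {κ κ' : ℕ} (hκ : κ ≤ κ') :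
    Mm Gr A J κ ≤ Mm Gr A J' κ' :=
  Subgroup.closure_mono (Dm_mono hJ hκ)

theorem exists_gap {K I : ℕ} (hc : NoChain Gr A K I) (hK : 1 ≤ K) {J : Set X} (hJ : FC Gr J) :
    ∃ i < I, Mm Gr A J (2 * (K * (i + 1)) + 2 * K) = Mm Gr A J (2 * (K * (i + 1))) := by
  classical
  by_contra hcon
  push Not at hcon
  have h1 : ∀ i, ∃ g : A, i < I → g ∈ Dm Gr A J (2 * (K * (i + 1)) + 2 * K) ∧
      g ∉ Mm Gr A J (2 * (K * (i + 1))) := by
    intro i
    by_cases hi : i < I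
    · by_contra h2
      push Not at h2
      apply hcon i hi
      apply le_antisymm
      · refine (Subgroup.closure_le _).2 ?_
        intro g hg
        exact (h2 g).2 hg
      · exact Mm_mono subset_rfl (Nat.le_add_right _ _)
    · exact ⟨1, fun h => absurd h hi⟩
  choose g hg using h1
  have hKI : ∀ i, i < I → 2 * (K * (i + 1)) + 2 * K ≤ 2 * K * (I + 1) := by
    intro i hi
    have : K * (i + 1) + K ≤ K * (I + 1) := by
      have := Nat.mul_le_mul_left K (show i + 1 + 1 ≤ I + 1 by omega)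
      nlinarith
    nlinarith
  obtain ⟨i, hi, hmem⟩ := hc J hJ (Mm Gr A J (2 * K))
    (fun a ha => Subgroup.subset_closure (Dm_mono subset_rfl (by omega) ha)) g
    (fun i hi => Dm_mono subset_rfl (hKI i hi) (hg i hi).1)
  apply (hg i hi).2
  have hle : Mm Gr A J (2 * K) ⊔ Subgroup.closure (g '' Set.Iio i) ≤
      Mm Gr A J (2 * (K * (i + 1))) := by
    refine sup_le (Mm_mono subset_rfl (by nlinarith)) ?_
    rw [Subgroup.closure_le]
    rintro _ ⟨j, hj, rfl⟩
    have hj' : j < i := hj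
    refine Subgroup.subset_closure (Dm_mono subset_rfl ?_ (hg j (hj'.trans hi)).1)
    have := Nat.mul_le_mul_left K (show j + 1 + 1 ≤ i + 1 by omega)
    nlinarith
  exact hle hmem

end

end Pool.Agent.Lib.MP_0f7bfe_al.QT
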