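import Pool.Agent.Lib.MP_0f7bfe_al.QT.G2

open scoped Pointwise

namespace Pool.Agent.Lib.MP_0f7bfe_al.QT

open Pool.Agent.Lib.MP_0f7bfe_al.OE

universe u v

section
variable {X : Type u} {Gr : SimpleGraph X} {A : Type v} [CommGroup A] [MulAction A X]
  {w b : ℕ → ℕ}

private abbrev qt_s10_Idx {W : Type*} (E : W → W → Prop) (T : Set W) : Type _ :=
  {x : W // x ∈ T} ⊕ {p : W × W // p.1 ∈ T ∧ p.2 ∈ T ∧ E p.1 p.2}

private def qt_s10_S {W : Type*} (E : W → W → Prop) (Bl : W → Set X) (St : W → W → Set X)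
    (T : Set W) : qt_s10_Idx E T → Set X
  | Sum.inl x => Bl x.1
  | Sum.inr p => St p.1.1 p.1.2

private theorem qt_s10_chain {W : Type*} (E : W → W → Prop) (Bl : W → Set X)
    (St : W → W → Set X) (T : Set W)
    (hm : ∀ x y, E x y → (St x y ∩ Bl x).Nonempty ∧ (St x y ∩ Bl y).Nonempty)
    {x y : W} (hx : x ∈ T)
    (h : Relation.ReflTransGen (fun x y => (E x y ∨ E y x) ∧ x ∈ T ∧ y ∈ T) x y) :
    ∀ hy : y ∈ T, Relation.ReflTransGen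
      (fun i j => (qt_s10_S E Bl St T i ∩ qt_s10_S E Bl St T j).Nonempty)
      (Sum.inl ⟨x, hx⟩) (Sum.inl ⟨y, hy⟩) := by
  induction h with
  | refl => intro hy; exact Relation.ReflTransGen.refl
  | tail _ hbc ih =>
    rename_i b c _
    intro hc
    obtain ⟨hE, hb, _⟩ := hbc
    refine (ih hb).trans ?_
    rcases hE with hE | hE
    · have h1 := hm b c hE
      refine Relation.ReflTransGen.head (b := Sum.inr ⟨(b, c), hb, hc, hE⟩) ?_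
        (Relation.ReflTransGen.single ?_)
      · obtain ⟨z, hz1, hz2⟩ := h1.1
        exact ⟨z, hz2, hz1⟩
      · exact h1.2
    · have h1 := hm c b hE
      refine Relation.ReflTransGen.head (b := Sum.inr ⟨(c, b), hc, hb, hE⟩) ?_
        (Relation.ReflTransGen.single ?_)
      · obtain ⟨z, hz1, hz2⟩ := h1.2
        exact ⟨z, hz2, hz1⟩
      · exact h1.1

private theorem qt_s10_mem {W : Type*} (E : W → W → Prop) (Bl : W → Set X) (St : W → W → Set X)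
    (T : Set W) {p : X} (hp : p ∈ ⋃ j, qt_s10_S E Bl St T j) :
    (∃ x ∈ T, p ∈ Bl x) ∨ (∃ x ∈ T, ∃ y ∈ T, E x y ∧ p ∈ St x y) := by
  rw [Set.mem_iUnion] at hp
  obtain ⟨j, hj⟩ := hp
  rcases j with ⟨x, hx⟩ | ⟨⟨x, y⟩, hx, hy, hE⟩
  · exact Or.inl ⟨x, hx, hj⟩
  · exact Or.inr ⟨x, hx, y, hy, hE, hj⟩

/-- HINT: `V i = (⋃ x ∈ U i, Bl x) ∪ ⋃ x ∈ U i, ⋃ y ∈ U i with E x y, St x y`. `FC` by `fc_iUnion`
with index type e.g. `{x // x ∈ U i} ⊕ {p : W × W // p.1 ∈ U i ∧ p.2 ∈ U i ∧ E p.1 p.2}`. Far: the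
vertices of `V i` and `V j` are different elements of `W`. -/
theorem blowup {W : Type*} [Finite W] {K : ℕ} (E : W → W → Prop) (Bl : W → Set X)
    (St : W → W → Set X) (hBl : ∀ x, FC Gr (Bl x)) (hSt : ∀ x y, E x y → FC Gr (St x y))
    (hm : ∀ x y, E x y → (St x y ∩ Bl x).Nonempty ∧ (St x y ∩ Bl y).Nonempty)
    (hBB : ∀ x y, x ≠ y → Far Gr K (Bl x) (Bl y))
    (hSS : ∀ x y x' y', E x y → E x' y' → (x, y) ≠ (x', y') → Far Gr K (St x y) (St x' y'))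
    (hBS : ∀ x y t, E x y → t ≠ x → t ≠ y → Far Gr K (St x y) (Bl t))
    {N : ℕ} (U : Fin N → Set W) (hU : ∀ i j, i ≠ j → Disjoint (U i) (U j))
    (hne : ∀ i, (U i).Nonempty)
    (hconn : ∀ i, ∀ x ∈ U i, ∀ y ∈ U i,
      Relation.ReflTransGen (fun x y => (E x y ∨ E y x) ∧ x ∈ U i ∧ y ∈ U i) x y) :
    ∃ V : Fin N → Set X, (∀ i, FC Gr (V i)) ∧ (∀ i j, i ≠ j → Far Gr K (V i) (V j)) ∧
      (∀ i, ∀ x ∈ U i, Bl x ⊆ V i) ∧ (∀ i, ∀ x ∈ U i, ∀ y ∈ U i, E x y → St x y ⊆ V i) ∧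
      (∀ i, ∀ p ∈ V i, (∃ x, p ∈ Bl x) ∨ (∃ x y, E x y ∧ p ∈ St x y)) := by
  have hfar_symm : ∀ {P Q : Set X}, Far Gr K P Q → Far Gr K Q P := by
    intro P Q h a ha b hb
    rw [SimpleGraph.dist_comm]
    exact h b hb a ha
  refine ⟨fun i => ⋃ j, qt_s10_S E Bl St (U i) j, ?_, ?_, ?_, ?_, ?_⟩
  · intro i
    obtain ⟨x0, hx0⟩ := hne i
    refine fc_iUnion (qt_s10_S E Bl St (U i)) (Sum.inl ⟨x0, hx0⟩) ?_ ?_
    · rintro (⟨x, hx⟩ | ⟨⟨x, y⟩, hx, hy, hE⟩)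
      · exact hBl x
      · exact hSt x y hE
    · rintro (⟨x, hx⟩ | ⟨⟨x, y⟩, hx, hy, hE⟩)
      · exact qt_s10_chain E Bl St (U i) hm hx0 (hconn i x0 hx0 x hx) hx
      · refine (qt_s10_chain E Bl St (U i) hm hx0 (hconn i x0 hx0 x hx) hx).tail ?_
        obtain ⟨z, hz1, hz2⟩ := (hm x y hE).1
        exact ⟨z, hz2, hz1⟩
  · intro i j hij
    have hd : ∀ x ∈ U i, ∀ y ∈ U j, x ≠ y := by
      intro x hx y hy hxy
      exact Set.disjoint_left.1 (hU i j hij) hx (hxy ▸ hy)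
    intro p hp q hq
    rcases qt_s10_mem E Bl St (U i) hp with ⟨x, hx, hpx⟩ | ⟨x, hx, y, hy, hE, hpx⟩
    · rcases qt_s10_mem E Bl St (U j) hq with ⟨x', hx', hqx⟩ | ⟨x', hx', y', hy', hE', hqx⟩
      · exact hBB x x' (hd x hx x' hx') p hpx q hqx
      · exact hfar_symm (hBS x' y' x hE' (hd x hx x' hx') (hd x hx y' hy')) p hpx q hqx
    · rcases qt_s10_mem E Bl St (U j) hq with ⟨x', hx', hqx⟩ | ⟨x', hx', y', hy', hE', hqx⟩
      · exact hBS x y x' hE (hd x hx x' hx').symm (hd y hy x' hx').symm p hpx q hqx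
      · refine hSS x y x' y' hE hE' ?_ p hpx q hqx
        intro h
        exact hd x hx x' hx' (congrArg Prod.fst h)
  · intro i x hx p hp
    exact Set.mem_iUnion.2 ⟨Sum.inl ⟨x, hx⟩, hp⟩
  · intro i x hx y hy hE p hp
    exact Set.mem_iUnion.2 ⟨Sum.inr ⟨(x, y), hx, hy, hE⟩, hp⟩
  · intro i p hp
    rcases qt_s10_mem E Bl St (U i) hp with ⟨x, hx, hpx⟩ | ⟨x, hx, y, hy, hE, hpx⟩
    · exact Or.inl ⟨x, hpx⟩
    · exact Or.inr ⟨x, y, hE, hpx⟩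


end

end Pool.Agent.Lib.MP_0f7bfe_al.QT
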