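import Pool.Agent.Lib.MP_0f7bfe_al.QT.Defs

open scoped Pointwise

namespace Pool.Agent.Lib.MP_0f7bfe_al.QT

open Pool.Agent.Lib.MP_0f7bfe_al.OE

universe u v

section
variable {X : Type u} {Gr : SimpleGraph X} {A : Type v} [CommGroup A] [MulAction A X]
  {w b : ℕ → ℕ}

theorem spine_sync (h : Act Gr A w) {P : ℕ → X} (hP : Spine Gr A P) (f g : A) (s s' : ℕ) :
    s ≤ s' + Gr.dist (f • P s) (g • P s') := by
  have h1 := hP.lev (f⁻¹ * g) s s'
  have h2 := h.iso f (P s) ((f⁻¹ * g) • P s')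
  rw [smul_smul, mul_inv_cancel_left] at h2
  rw [h2]
  exact h1

theorem blk_far_level (h : Act Gr A w) {P : ℕ → X} (hP : Spine Gr A P) {K a b a' b' r r' : ℕ}
    (hab : b + (r + r' + K) < a') (M M' : Subgroup A) (c : A ⧸ M) (c' : A ⧸ M') :
    Far Gr K (Blk Gr M (P '' Set.Icc a b) r c) (Blk Gr M' (P '' Set.Icc a' b') r' c') := by
  rintro x ⟨f, -, y, ⟨z, ⟨s, hs, rfl⟩, rfl⟩, hy⟩ x' ⟨f', -, y', ⟨z', ⟨s', hs', rfl⟩, rfl⟩, hy'⟩
  by_contra hcon
  push Not at hcon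
  have h1 := spine_sync h hP f' f s' s
  have h2 := h.nice.conn.dist_triangle (u := f' • P s') (v := x') (w := x)
  have h3 := h.nice.conn.dist_triangle (u := f' • P s') (v := x) (w := f • P s)
  rw [SimpleGraph.dist_comm (u := x') (v := x)] at h2
  rw [SimpleGraph.dist_comm (u := x) (v := f • P s)] at h3
  simp only at hy hy'
  have h4 := hs.2
  have h5 := hs'.1
  omega

theorem strand_blk_far_level (h : Act Gr A w) {P : ℕ → X} (hP : Spine Gr A P)
    {K a b a' b' r : ℕ} (hab : b + (r + K) < a' ∨ b' + (r + K) < a) (M : Subgroup A)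
    (c : A ⧸ M) (f : A) :
    Far Gr K (f • (P '' Set.Icc a' b')) (Blk Gr M (P '' Set.Icc a b) r c) := by
  rintro _ ⟨_, ⟨s, hs, rfl⟩, rfl⟩ x ⟨g, -, y, ⟨z, ⟨s', hs', rfl⟩, rfl⟩, hy⟩
  by_contra hcon
  push Not at hcon
  simp only at hcon hy
  have h1 := spine_sync h hP f g s s'
  have h1' := spine_sync h hP g f s' s
  rw [SimpleGraph.dist_comm] at h1'
  have h2 := h.nice.conn.dist_triangle (u := f • P s) (v := x) (w := g • P s')
  rw [SimpleGraph.dist_comm (u := x) (v := g • P s')] at h2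
  have h4 := hs.1
  have h5 := hs.2
  have h6 := hs'.1
  have h7 := hs'.2
  omega

end

end Pool.Agent.Lib.MP_0f7bfe_al.QT
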