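import Pool.Agent.Lib.MP_0f7bfe_al.QT.S11

open scoped Pointwise

namespace Pool.Agent.Lib.MP_0f7bfe_al.QT

open Pool.Agent.Lib.MP_0f7bfe_al.OE

universe u v

section
variable {X : Type u} {Gr : SimpleGraph X} {A : Type v} [CommGroup A] [MulAction A X]
  {w b : ℕ → ℕ}

theorem spine_dist (h : Act Gr A w) {P : ℕ → X} (hP : Spine Gr A P) {s s' : ℕ} (hs : s ≤ s') :
    Gr.dist (P s) (P s') ≤ s' - s := by
  induction s', hs using Nat.le_induction with
  | base => simp
  | succ k hk ih =>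
    have h1 := h.nice.conn.dist_triangle (u := P s) (v := P k) (w := P (k + 1))
    have h2 := hP.step k
    omega

theorem spine_dist_smul (h : Act Gr A w) {P : ℕ → X} (hP : Spine Gr A P) (f : A) {s s' : ℕ}
    (hs : s ≤ s') : Gr.dist (f • P s) (f • P s') ≤ s' - s := by
  rw [h.iso]
  exact spine_dist h hP hs

theorem strand_blk_far (h : Act Gr A w) {P : ℕ → X} (hP : Spine Gr A P)
    {K a b a' b' r : ℕ} (hab : a ≤ b) (hadj : a' = b ∨ b' = a) (M : Subgroup A)
    (hM : Dm Gr A (P '' Set.Icc a b) (2 * r + 2 * K) ⊆ M)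
    (c : A ⧸ M) (f : A) (hf : (f : A ⧸ M) ≠ c) :
    Far Gr K (f • (P '' Set.Icc a' b')) (Blk Gr M (P '' Set.Icc a b) r c) := by
  rintro _ ⟨_, ⟨s, hs, rfl⟩, rfl⟩ x ⟨g, rfl, y, ⟨z, ⟨s', hs', rfl⟩, rfl⟩, hy⟩
  by_contra hcon
  push Not at hcon
  simp only at hcon hy
  have h1 := spine_sync h hP f g s s'
  have h1' := spine_sync h hP g f s' s
  rw [SimpleGraph.dist_comm] at h1'
  have h2 := h.nice.conn.dist_triangle (u := f • P s) (v := x) (w := g • P s')
  rw [SimpleGraph.dist_comm (u := x) (v := g • P s')] at h2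
  apply hf
  rw [QuotientGroup.eq]
  apply hM
  have key : ∀ t, t ∈ Set.Icc a b → Gr.dist (f • P t) (g • P s') ≤ 2 * r + 2 * K →
      f⁻¹ * g ∈ Dm Gr A (P '' Set.Icc a b) (2 * r + 2 * K) := by
    intro t ht hd
    refine ⟨P t, ⟨t, ht, rfl⟩, P s', ⟨s', hs', rfl⟩, ?_⟩
    have h3 := h.iso f (P t) ((f⁻¹ * g) • P s')
    rw [smul_smul, mul_inv_cancel_left] at h3
    rw [← h3]
    exact hd
  rcases hadj with rfl | rfl
  · apply key a' ⟨hab, le_rfl⟩
    have h3 := spine_dist_smul h hP f hs.1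
    have h4 := h.nice.conn.dist_triangle (u := f • P a') (v := f • P s) (w := g • P s')
    have h5 := hs'.2
    have h6 := hs.1
    omega
  · apply key b' ⟨le_rfl, hab⟩
    have h3 := spine_dist_smul h hP f hs.2
    rw [SimpleGraph.dist_comm] at h3
    have h4 := h.nice.conn.dist_triangle (u := f • P b') (v := f • P s) (w := g • P s')
    have h5 := hs'.1
    have h6 := hs.2
    omega

theorem fc_spine (h : Act Gr A w) {P : ℕ → X} (hP : Spine Gr A P) {a b : ℕ} (hab : a ≤ b) :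
    FC Gr (P '' Set.Icc a b) := fc_seg h.nice hP.step hab

end

end Pool.Agent.Lib.MP_0f7bfe_al.QT
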