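import Pool.Agent.Lib.MP_0f7bfe_al.QT.S5

open scoped Pointwise

namespace Pool.Agent.Lib.MP_0f7bfe_al.QT

open Pool.Agent.Lib.MP_0f7bfe_al.OE

open Pool.Agent.Lib.MP_4d119b_lc (RIn)

universe u v

section
variable {X : Type u} {Gr : SimpleGraph X} {A : Type v} [CommGroup A] [MulAction A X]
  {w b : ℕ → ℕ}

/-- vertices of the coset graph -/
abbrev CV (M : ℕ → Subgroup A) (T : ℕ) : Type v := Σ t : Fin T, A ⧸ M t

/-- adjacency in the coset graph -/
def CE {M : ℕ → Subgroup A} {T : ℕ} (x y : CV M T) : Prop :=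
  (x.1 : ℕ) + 1 = y.1 ∧ ∃ f : A, (f : A ⧸ M x.1) = x.2 ∧ (f : A ⧸ M y.1) = y.2

private theorem qt_s6_fiber [Finite A] (H : Subgroup A) (c : A ⧸ H) :
    {f : A | (f : A ⧸ H) = c}.ncard ≤ Nat.card H := by
  obtain ⟨f0, rfl⟩ := QuotientGroup.mk_surjective c
  have hsub : {f : A | (f : A ⧸ H) = (f0 : A ⧸ H)} ⊆ (fun m => f0 * m) '' (H : Set A) := by
    intro f hf
    refine ⟨f0⁻¹ * f, ?_, by simp⟩
    have hf' : (f : A ⧸ H) = (f0 : A ⧸ H) := hf
    exact QuotientGroup.eq.1 hf'.symm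
  calc {f : A | (f : A ⧸ H) = (f0 : A ⧸ H)}.ncard
      ≤ ((fun m => f0 * m) '' (H : Set A)).ncard := Set.ncard_le_ncard hsub (Set.toFinite _)
    _ ≤ (H : Set A).ncard := Set.ncard_image_le (Set.toFinite _)
    _ = Nat.card H := (Nat.card_coe_set_eq _).symm ▸ rfl

private theorem qt_s6_avoid [Finite A] (M : ℕ → Subgroup A) {N : ℕ}
    (hM : ∀ t, N * Nat.card (M t) ≤ Nat.card A) {T : ℕ} (S : Finset (CV M T))
    (hS : S.card < N) : ∃ f : A, ∀ t : Fin T, (⟨t, (f : A ⧸ M t)⟩ : CV M T) ∉ S := by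
  classical
  by_contra hcon
  push Not at hcon
  have hcov : (Set.univ : Set A) ⊆ ⋃ x ∈ S, {f : A | (f : A ⧸ M x.1) = x.2} := by
    intro f _
    obtain ⟨t, ht⟩ := hcon f
    exact Set.mem_iUnion₂.2 ⟨_, ht, rfl⟩
  have h1 : Nat.card A ≤ ∑ x ∈ S, Nat.card (M x.1) := by
    calc Nat.card A = (Set.univ : Set A).ncard := (Set.ncard_univ A).symm
      _ ≤ (⋃ x ∈ S, {f : A | (f : A ⧸ M x.1) = x.2}).ncard :=
          Set.ncard_le_ncard hcov (Set.toFinite _)
      _ ≤ ∑ x ∈ S, {f : A | (f : A ⧸ M x.1) = x.2}.ncard := by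
          exact Finset.set_ncard_biUnion_le S _
      _ ≤ ∑ x ∈ S, Nat.card (M x.1) := Finset.sum_le_sum fun x _ => qt_s6_fiber _ _
  have h2 : N * Nat.card A ≤ S.card * Nat.card A := by
    calc N * Nat.card A ≤ N * ∑ x ∈ S, Nat.card (M x.1) := Nat.mul_le_mul_left _ h1
      _ = ∑ x ∈ S, N * Nat.card (M x.1) := by rw [Finset.mul_sum]
      _ ≤ ∑ _x ∈ S, Nat.card A := Finset.sum_le_sum fun x _ => hM _
      _ = S.card * Nat.card A := by simp
  have h3 : 0 < Nat.card A := Nat.card_pos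
  exact absurd (Nat.le_of_mul_le_mul_right h2 h3) (by omega)

/-- HINT: `menger_sets` for `SimpleGraph.fromRel CE` on `CV M T` (finite), `B` = vertices in layer
`0`, `C` = vertices in layer `T - 1`. If `S.card < N`, the set of `f : A` with
`⟨t, f⟩ ∈ S` for some `t` has at most `∑_{x ∈ S} card (M x.1)` elements, and
`N * ∑ ≤ S.card * card A < N * card A`; so some `f` avoids `S`, and the vertices `⟨t, f⟩`,
`t < T`, form a path outside `S`. The last two properties: a connected set which meets the layers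
`0` and `T - 1` meets all layers and contains an edge between the layers `t` and `t + 1`
(adjacent vertices have consecutive layers; discrete intermediate value along the chain). -/
theorem coset_menger [Finite A] (M : ℕ → Subgroup A) {N : ℕ}
    (hM : ∀ t, N * Nat.card (M t) ≤ Nat.card A) {T : ℕ} (hT : 0 < T) :
    ∃ U : Fin N → Set (CV M T), (∀ i j, i ≠ j → Disjoint (U i) (U j)) ∧
      (∀ i, ∀ x ∈ U i, ∀ y ∈ U i,
        Relation.ReflTransGen (fun x y => (CE x y ∨ CE y x) ∧ x ∈ U i ∧ y ∈ U i) x y) ∧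
      (∀ i, ∀ t : Fin T, ∃ c, (⟨t, c⟩ : CV M T) ∈ U i) ∧
      (∀ i, ∀ t : ℕ, t + 1 < T → ∃ x ∈ U i, ∃ y ∈ U i, (x.1 : ℕ) = t ∧ CE x y) := by
  classical
  have hadj : ∀ x y : CV M T, CE x y → (SimpleGraph.fromRel (CE (M := M) (T := T))).Adj x y := by
    intro x y h
    refine (SimpleGraph.fromRel_adj _ _ _).2 ⟨?_, Or.inl h⟩
    rintro rfl
    have := h.1
    omega
  obtain ⟨U, hU, hdisj⟩ := menger_sets (SimpleGraph.fromRel (CE (M := M) (T := T)))
    {x : CV M T | (x.1 : ℕ) = 0} {x : CV M T | (x.1 : ℕ) = T - 1} N (by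
      intro S hS
      obtain ⟨f, hf⟩ := qt_s6_avoid M hM S hS
      have hpath : ∀ n : ℕ, ∀ hn : n < T,
          RIn (SimpleGraph.fromRel (CE (M := M) (T := T))) (↑S)ᶜ
            (⟨⟨0, hT⟩, (f : A ⧸ M 0)⟩ : CV M T) (⟨⟨n, hn⟩, (f : A ⧸ M n)⟩ : CV M T) := by
        intro n
        induction n with
        | zero => intro hn; exact Relation.ReflTransGen.refl
        | succ n ih =>
          intro hn
          refine Relation.ReflTransGen.tail (ih (by omega)) ⟨hadj _ _ ⟨rfl, f, rfl, rfl⟩, ?_, ?_⟩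
          · simpa using hf ⟨n, by omega⟩
          · simpa using hf ⟨n + 1, hn⟩
      refine ⟨⟨⟨0, hT⟩, (f : A ⧸ M 0)⟩, rfl, ⟨⟨T - 1, by omega⟩, (f : A ⧸ M (T - 1))⟩, rfl,
        hf ⟨0, hT⟩, hf ⟨T - 1, by omega⟩, hpath (T - 1) (by omega)⟩)
  have hedge : ∀ i, ∀ t : ℕ, t + 1 < T → ∃ x ∈ U i, ∃ y ∈ U i, (x.1 : ℕ) = t ∧ CE x y := by
    intro i t ht
    obtain ⟨⟨x, hxU, hx0⟩, ⟨y, hyU, hyT⟩, hconn⟩ := hU i
    have hx0' : (x.1 : ℕ) = 0 := hx0
    have hyT' : (y.1 : ℕ) = T - 1 := hyT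
    obtain ⟨a, c, -, ha, hc, hac, haU, hcU⟩ :=
      (hconn x hxU y hyU).exit (T := {z : CV M T | (z.1 : ℕ) ≤ t}) (by
        show (x.1 : ℕ) ≤ t
        omega) (by
        show ¬ (y.1 : ℕ) ≤ t
        omega)
    have ha' : (a.1 : ℕ) ≤ t := ha
    have hc' : ¬ (c.1 : ℕ) ≤ t := hc
    rcases ((SimpleGraph.fromRel_adj _ _ _).1 hac).2 with h | h
    · have h1 := h.1
      exact ⟨a, haU, c, hcU, by omega, h⟩
    · have h1 := h.1
      omega
  refine ⟨U, hdisj, ?_, ?_, hedge⟩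
  · intro i x hx y hy
    have hxy : Relation.ReflTransGen
        (fun a c => (SimpleGraph.fromRel (CE (M := M) (T := T))).Adj a c ∧ a ∈ U i ∧ c ∈ U i) x y :=
      (hU i).2.2 x hx y hy
    clear hx hy
    induction hxy with
    | refl => exact Relation.ReflTransGen.refl
    | tail _ h ih =>
      exact ih.tail ⟨((SimpleGraph.fromRel_adj _ _ _).1 h.1).2, h.2.1, h.2.2⟩
  · intro i t
    by_cases ht : (t : ℕ) + 1 < T
    · obtain ⟨x, hx, -, -, hxt, -⟩ := hedge i t ht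
      obtain ⟨s, c⟩ := x
      have : s = t := Fin.ext hxt
      subst this
      exact ⟨c, hx⟩
    · obtain ⟨-, ⟨y, hyU, hyT⟩, -⟩ := hU i
      obtain ⟨s, c⟩ := y
      have hyT' : (s : ℕ) = T - 1 := hyT
      have : s = t := Fin.ext (by omega)
      subst this
      exact ⟨c, hyU⟩

end

end Pool.Agent.Lib.MP_0f7bfe_al.QT
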