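import Pool.Agent.Lib.MP_0f7bfe_al.QT.Defs

open scoped Pointwise

namespace Pool.Agent.Lib.MP_0f7bfe_al.QT

open Pool.Agent.Lib.MP_0f7bfe_al.OE

universe u v

section
variable {X : Type u} {Gr : SimpleGraph X} {A : Type v} [CommGroup A] [MulAction A X]
  {w b : ℕ → ℕ}

/-- HINT: greedy choice / induction on a `Finset` of indices: when choosing `f i`, every previously
chosen `f j` excludes the values `a` with `(f j)⁻¹ * a ∈ D` (at most `D.ncard`), and
`a⁻¹ * f j ∈ D` is equivalent (`hD`). -/
theorem choose_general {ι : Type*} [Finite ι] {A : Type*} [Group A] [Finite A] (S : ι → Set A)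
    (D : Set A) (hD : ∀ a ∈ D, a⁻¹ ∈ D) (hS : ∀ i, Nat.card ι * D.ncard < (S i).ncard) :
    ∃ f : ι → A, (∀ i, f i ∈ S i) ∧ ∀ i j, i ≠ j → (f i)⁻¹ * f j ∉ D := by
  classical
  have _ : Fintype ι := Fintype.ofFinite ι
  have key : ∀ s : Finset ι, ∃ f : ι → A, (∀ i ∈ s, f i ∈ S i) ∧
      ∀ i ∈ s, ∀ j ∈ s, i ≠ j → (f i)⁻¹ * f j ∉ D := by
    intro s
    induction s using Finset.induction_on with
    | empty => exact ⟨fun _ => 1, by simp, by simp⟩
    | @insert i0 s hi0 ih =>
      obtain ⟨f, hf1, hf2⟩ := ih
      have hbad : ∃ a ∈ S i0, a ∉ ⋃ j ∈ s, (fun d => f j * d) '' D := by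
        by_contra hcon
        push Not at hcon
        have hsub : S i0 ⊆ ⋃ j ∈ s, (fun d => f j * d) '' D := hcon
        have h1 : (S i0).ncard ≤ (⋃ j ∈ s, (fun d => f j * d) '' D).ncard :=
          Set.ncard_le_ncard hsub (Set.toFinite _)
        have h2 : (⋃ j ∈ s, (fun d => f j * d) '' D).ncard ≤ s.card * D.ncard := by
          clear h1 hsub hcon
          induction s using Finset.induction_on with
          | empty => simp
          | @insert j s hj ih2 =>
            rw [Finset.set_biUnion_insert]
            refine (Set.ncard_union_le _ _).trans ?_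
            rw [Finset.card_insert_of_notMem hj, add_mul, one_mul, add_comm]
            refine add_le_add (ih2 ?_ ?_ ?_) ?_
            · intro h
              exact hi0 (Finset.mem_insert_of_mem h)
            · intro i hi
              exact hf1 i (Finset.mem_insert_of_mem hi)
            · intro i hi k hk
              exact hf2 i (Finset.mem_insert_of_mem hi) k (Finset.mem_insert_of_mem hk)
            · exact Set.ncard_image_le (Set.toFinite _)
        have h3 : s.card ≤ Nat.card ι := by
          rw [Nat.card_eq_fintype_card]
          exact Finset.card_le_univ s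
        have h4 := hS i0
        have h5 := Nat.mul_le_mul_right D.ncard h3
        omega
      obtain ⟨a, haS, ha⟩ := hbad
      have ha' : ∀ j ∈ s, (f j)⁻¹ * a ∉ D := by
        intro j hj hD'
        apply ha
        simp only [Set.mem_iUnion, Set.mem_image, exists_prop]
        exact ⟨j, hj, (f j)⁻¹ * a, hD', by group⟩
      refine ⟨Function.update f i0 a, ?_, ?_⟩
      · intro i hi
        rcases Finset.mem_insert.1 hi with rfl | hi
        · rw [Function.update_self]
          exact haS
        · have hne : i ≠ i0 := fun h => hi0 (h ▸ hi)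
          rw [Function.update_of_ne hne]
          exact hf1 i hi
      · intro i hi j hj hij
        rcases Finset.mem_insert.1 hi with hi' | hi'
        · rcases Finset.mem_insert.1 hj with hj' | hj'
          · exact absurd (hi'.trans hj'.symm) hij
          · have hne : j ≠ i0 := fun h => hi0 (h ▸ hj')
            rw [hi', Function.update_self, Function.update_of_ne hne]
            intro h
            have h2 := hD _ h
            rw [mul_inv_rev, inv_inv] at h2
            exact ha' j hj' h2
        · have hne : i ≠ i0 := fun h => hi0 (h ▸ hi')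
          rcases Finset.mem_insert.1 hj with hj' | hj'
          · rw [hj', Function.update_self, Function.update_of_ne hne]
            exact ha' i hi'
          · have hne' : j ≠ i0 := fun h => hi0 (h ▸ hj')
            rw [Function.update_of_ne hne, Function.update_of_ne hne']
            exact hf2 i hi' j hj' hij
  obtain ⟨f, h1, h2⟩ := key Finset.univ
  exact ⟨f, fun i => h1 i (Finset.mem_univ i), fun i j hij =>
    h2 i (Finset.mem_univ i) j (Finset.mem_univ j) hij⟩

end

end Pool.Agent.Lib.MP_0f7bfe_al.QT
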