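import Pool.Agent.Lib.MP_0f7bfe_al.QT.Defs

open scoped Pointwise

namespace Pool.Agent.Lib.MP_0f7bfe_al.QT

open Pool.Agent.Lib.MP_0f7bfe_al.OE

universe u v

section
variable {X : Type u} {Gr : SimpleGraph X} {A : Type v} [CommGroup A] [MulAction A X]
  {w b : ℕ → ℕ}

private theorem qt_s8_inj (h : Act Gr A w) (y : X) : Function.Injective fun a : A => a • y := by
  intro a a' haa
  have h1 : (a'⁻¹ * a) • y = y := by
    have h2 : a • y = a' • y := haa
    rw [mul_smul, h2, inv_smul_smul]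
  have h3 := h.free _ _ h1
  exact (inv_mul_eq_one.1 h3).symm

/-- HINT: for fixed `x, y ∈ J` the map `a ↦ a • y` is injective (freeness) from
`{a | dist x (a • y) ≤ K}` into the ball. -/
theorem Dm_ncard (h : Act Gr A w) {J : Set X} (hJ : J.Finite) (K : ℕ) :
    (Dm Gr A J K).Finite ∧ (Dm Gr A J K).ncard ≤ J.ncard ^ 2 * w K := by
  classical
  have hmaps : ∀ p : X × X, Set.MapsTo (fun a : A => a • p.2)
      {a : A | Gr.dist p.1 (a • p.2) ≤ K} {z | Gr.dist p.1 z ≤ K} := fun p a ha => ha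
  have hfin : ∀ p : X × X, {a : A | Gr.dist p.1 (a • p.2) ≤ K}.Finite := fun p =>
    Set.Finite.of_injOn (hmaps p) ((qt_s8_inj h p.2).injOn) (h.nice.ball p.1 K)
  have hcard : ∀ p : X × X, {a : A | Gr.dist p.1 (a • p.2) ≤ K}.ncard ≤ w K := fun p =>
    (Set.ncard_le_ncard_of_injOn (fun a : A => a • p.2) (hmaps p) ((qt_s8_inj h p.2).injOn)
      (h.nice.ball p.1 K)).trans (h.ball p.1 K)
  have hcov : Dm Gr A J K = ⋃ p ∈ hJ.toFinset ×ˢ hJ.toFinset,
      {a : A | Gr.dist p.1 (a • p.2) ≤ K} := by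
    ext a
    simp only [Set.mem_iUnion, Finset.mem_product, Set.Finite.mem_toFinset, exists_prop]
    constructor
    · rintro ⟨x, hx, y, hy, hxy⟩
      exact ⟨(x, y), ⟨hx, hy⟩, hxy⟩
    · rintro ⟨p, ⟨hx, hy⟩, hxy⟩
      exact ⟨p.1, hx, p.2, hy, hxy⟩
  have hJc : hJ.toFinset.card = J.ncard := (Set.ncard_eq_toFinset_card J hJ).symm
  constructor
  · rw [hcov]
    exact Set.Finite.biUnion (Finset.finite_toSet _) fun p _ => hfin p
  · rw [hcov]
    calc (⋃ p ∈ hJ.toFinset ×ˢ hJ.toFinset, {a : A | Gr.dist p.1 (a • p.2) ≤ K}).ncard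
        ≤ ∑ p ∈ hJ.toFinset ×ˢ hJ.toFinset, {a : A | Gr.dist p.1 (a • p.2) ≤ K}.ncard :=
          Finset.set_ncard_biUnion_le _ _
      _ ≤ ∑ _p ∈ hJ.toFinset ×ˢ hJ.toFinset, w K := Finset.sum_le_sum fun p _ => hcard p
      _ = J.ncard ^ 2 * w K := by
          rw [Finset.sum_const, Finset.card_product, hJc, smul_eq_mul, sq]

/-- HINT: the set is the coset `f * (M ⊓ M')`, of cardinality `card (M ⊓ M')`, and
`card M * card M' = card (M ⊓ M') * card (M ⊔ M') ≤ card (M ⊓ M') * card A`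
(or: the index of `M ⊓ M'` is at most the product of the indices, `Subgroup.index_inf_le`). -/
theorem coset_inter_card [Finite A] (M M' : Subgroup A) {N2 : ℕ}
    (hM : Nat.card A ≤ N2 * Nat.card M) (hM' : Nat.card A ≤ N2 * Nat.card M') (f : A) :
    Nat.card A ≤ N2 ^ 2 * Set.ncard {g : A | (g : A ⧸ M) = f ∧ (g : A ⧸ M') = f} := by
  have hset : (fun m => f * m) '' ((M ⊓ M' : Subgroup A) : Set A) ⊆
      {g : A | (g : A ⧸ M) = f ∧ (g : A ⧸ M') = f} := by
    rintro _ ⟨m, hm, rfl⟩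
    have hm1 : m ∈ M := (Subgroup.mem_inf.1 hm).1
    have hm2 : m ∈ M' := (Subgroup.mem_inf.1 hm).2
    constructor
    · exact (QuotientGroup.eq.2 (by simpa using hm1)).symm
    · exact (QuotientGroup.eq.2 (by simpa using hm2)).symm
  have h1 : Nat.card (M ⊓ M' : Subgroup A) ≤
      {g : A | (g : A ⧸ M) = f ∧ (g : A ⧸ M') = f}.ncard := by
    calc Nat.card (M ⊓ M' : Subgroup A) = ((M ⊓ M' : Subgroup A) : Set A).ncard := rfl
      _ = ((fun m => f * m) '' ((M ⊓ M' : Subgroup A) : Set A)).ncard :=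
          (Set.ncard_image_of_injective _ (mul_right_injective f)).symm
      _ ≤ _ := Set.ncard_le_ncard hset (Set.toFinite _)
  have hidx : ∀ H : Subgroup A, Nat.card A ≤ N2 * Nat.card H → H.index ≤ N2 := by
    intro H hH
    rw [← H.card_mul_index, mul_comm N2] at hH
    exact Nat.le_of_mul_le_mul_left hH Nat.card_pos
  have h2 : (M ⊓ M').index ≤ N2 ^ 2 := by
    calc (M ⊓ M').index ≤ M.index * M'.index := Subgroup.index_inf_le
      _ ≤ N2 * N2 := Nat.mul_le_mul (hidx M hM) (hidx M' hM')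
      _ = N2 ^ 2 := (sq N2).symm
  calc Nat.card A = Nat.card (M ⊓ M' : Subgroup A) * (M ⊓ M').index :=
        ((M ⊓ M').card_mul_index).symm
    _ ≤ {g : A | (g : A ⧸ M) = f ∧ (g : A ⧸ M') = f}.ncard * N2 ^ 2 := Nat.mul_le_mul h1 h2
    _ = _ := mul_comm _ _

end

end Pool.Agent.Lib.MP_0f7bfe_al.QT
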