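import Pool.Agent.Lib.MP_0f7bfe_al.QT.S6
import Pool.Agent.Lib.MP_0f7bfe_al.QT.S7
import Pool.Agent.Lib.MP_0f7bfe_al.QT.S8

open scoped Pointwise

namespace Pool.Agent.Lib.MP_0f7bfe_al.QT

open Pool.Agent.Lib.MP_0f7bfe_al.OE

universe u v

section
variable {X : Type u} {Gr : SimpleGraph X} {A : Type v} [CommGroup A] [MulAction A X]
  {w b : ℕ → ℕ}

private theorem qt_s9_card [Finite A] (M : ℕ → Subgroup A) {N2 : ℕ}
    (hM : ∀ t, Nat.card A ≤ N2 * Nat.card (M t)) (T t : ℕ) :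
    Nat.card {p : CV M T × CV M T // CE p.1 p.2 ∧ (p.1.1 : ℕ) = t} ≤ N2 ^ 2 := by
  classical
  have hidx : ∀ s, (M s).index ≤ N2 := by
    intro s
    have h1 := (M s).card_mul_index
    have h2 := hM s
    have h3 : 0 < Nat.card (M s) := Nat.card_pos
    rw [← h1, mul_comm] at h2
    exact Nat.le_of_mul_le_mul_right h2 h3
  have hinf : (M t ⊓ M (t + 1)).index ≤ N2 ^ 2 := by
    calc (M t ⊓ M (t + 1)).index ≤ (M t).index * (M (t + 1)).index := Subgroup.index_inf_le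
      _ ≤ N2 * N2 := Nat.mul_le_mul (hidx _) (hidx _)
      _ = N2 ^ 2 := by ring
  refine le_trans ?_ hinf
  have hf : ∀ p : {p : CV M T × CV M T // CE p.1 p.2 ∧ (p.1.1 : ℕ) = t},
      ∃ f : A, (f : A ⧸ M p.1.1.1) = p.1.1.2 ∧ (f : A ⧸ M p.1.2.1) = p.1.2.2 := fun p => p.2.1.2
  choose f hf1 hf2 using hf
  refine Nat.card_le_card_of_injective (fun p => (f p : A ⧸ (M t ⊓ M (t + 1)))) ?_
  intro p q hpq
  have hpq' : (f p)⁻¹ * f q ∈ M t ⊓ M (t + 1) := QuotientGroup.eq.mp hpq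
  obtain ⟨m1, m2⟩ := Subgroup.mem_inf.mp hpq'
  have a1 := hf1 p
  have a2 := hf2 p
  have b1 := hf1 q
  have b2 := hf2 q
  generalize f p = fp at *
  generalize f q = fq at *
  obtain ⟨⟨⟨i, c⟩, ⟨j, d⟩⟩, hp1, hp2⟩ := p
  obtain ⟨⟨⟨i', c'⟩, ⟨j', d'⟩⟩, hq1, hq2⟩ := q
  have hij : (i : ℕ) + 1 = j := hp1.1
  have hij' : (i' : ℕ) + 1 = j' := hq1.1
  have ei : i' = i := by
    apply Fin.ext
    exact hq2.trans hp2.symm
  subst ei
  have ej : j' = j := by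
    apply Fin.ext
    rw [← hij, ← hij']
  subst ej
  have hi : (i' : ℕ) = t := hp2
  have hj : (j' : ℕ) = t + 1 := by rw [← hij, hi]
  have e1 : c = c' := by
    rw [← show ((fp : A) : A ⧸ M i') = c from a1, ← show ((fq : A) : A ⧸ M i') = c' from b1]
    apply QuotientGroup.eq.mpr
    rw [hi]; exact m1
  have e2 : d = d' := by
    rw [← show ((fp : A) : A ⧸ M j') = d from a2, ← show ((fq : A) : A ⧸ M j') = d' from b2]
    apply QuotientGroup.eq.mpr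
    rw [hj]; exact m2
  subst e1
  subst e2
  rfl

private theorem qt_s9_inv (h : Act Gr A w) {J : Set X} {K : ℕ} {a : A} (ha : a ∈ Dm Gr A J K) :
    a⁻¹ ∈ Dm Gr A J K := by
  obtain ⟨x, hx, y, hy, hd⟩ := ha
  refine ⟨y, hy, x, hx, ?_⟩
  have := h.iso a y (a⁻¹ • x)
  rw [smul_inv_smul] at this
  rw [← this, SimpleGraph.dist_comm]
  exact hd

/-- HINT: for every `t` apply `choose_general` with index type
`{p : CV M T × CV M T // CE p.1 p.2 ∧ (p.1.1 : ℕ) = t}` (at most `N2 ^ 2` elements: the index of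
`M t` is at most `N2`), `S p = {g | (g : A ⧸ M p.1.1) = p.1.2 ∧ (g : A ⧸ M p.2.1) = p.2.2}` (at least
`card A / N2 ^ 2` elements by `coset_inter_card`), `D = Dm Gr A (Z t) K` (at most
`(z + 1) ^ 2 * w K` elements by `Dm_ncard`, closed under inverses by isometry). -/
theorem zone_strands (h : Act Gr A w) [Finite A] (M : ℕ → Subgroup A) {N2 z K : ℕ}
    (hM : ∀ t, Nat.card A ≤ N2 * Nat.card (M t)) (Z : ℕ → Set X)
    (hZ : ∀ t, (Z t).Finite ∧ (Z t).ncard ≤ z + 1)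
    (hbig : N2 ^ 4 * ((z + 1) ^ 2 * w K) < Nat.card A) (T : ℕ) :
    ∃ f : CV M T → CV M T → A,
      (∀ x y, CE x y → (f x y : A ⧸ M x.1) = x.2 ∧ (f x y : A ⧸ M y.1) = y.2) ∧
      ∀ x y x' y', CE x y → CE x' y' → (x.1 : ℕ) = x'.1 → (x, y) ≠ (x', y') →
        (f x y)⁻¹ * f x' y' ∉ Dm Gr A (Z x.1) K := by
  classical
  have key : ∀ t : ℕ, ∃ F : {p : CV M T × CV M T // CE p.1 p.2 ∧ (p.1.1 : ℕ) = t} → A,
      (∀ p, (F p : A ⧸ M p.1.1.1) = p.1.1.2 ∧ (F p : A ⧸ M p.1.2.1) = p.1.2.2) ∧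
      ∀ p q, p ≠ q → (F p)⁻¹ * F q ∉ Dm Gr A (Z t) K := by
    intro t
    refine choose_general (ι := {p : CV M T × CV M T // CE p.1 p.2 ∧ (p.1.1 : ℕ) = t})
      (fun p => {g : A | (g : A ⧸ M p.1.1.1) = p.1.1.2 ∧ (g : A ⧸ M p.1.2.1) = p.1.2.2})
      (Dm Gr A (Z t) K) (fun a ha => qt_s9_inv h ha) ?_
    intro p
    obtain ⟨f, hf1, hf2⟩ := p.2.1.2
    have h1 := coset_inter_card (M p.1.1.1) (M p.1.2.1) (hM _) (hM _) f
    rw [hf1, hf2] at h1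
    have h2 : Nat.card {p : CV M T × CV M T // CE p.1 p.2 ∧ (p.1.1 : ℕ) = t} ≤ N2 ^ 2 :=
      qt_s9_card M hM T t
    have h3 := (Dm_ncard h (hZ t).1 K).2
    have h4 : (Dm Gr A (Z t) K).ncard ≤ (z + 1) ^ 2 * w K :=
      h3.trans (Nat.mul_le_mul_right _ (Nat.pow_le_pow_left (hZ t).2 2))
    refine lt_of_le_of_lt (Nat.mul_le_mul h2 h4) ?_
    by_contra hcon
    push Not at hcon
    have h5 : Nat.card A ≤ N2 ^ 2 * (N2 ^ 2 * ((z + 1) ^ 2 * w K)) :=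
      h1.trans (Nat.mul_le_mul_left _ hcon)
    have h6 : N2 ^ 2 * (N2 ^ 2 * ((z + 1) ^ 2 * w K)) = N2 ^ 4 * ((z + 1) ^ 2 * w K) := by ring
    rw [h6] at h5
    exact absurd hbig (not_lt.mpr h5)
  choose F hF1 hF2 using key
  have hdef : ∀ (t : ℕ) (x y : CV M T) (hc : CE x y) (e : (x.1 : ℕ) = t),
      (if hc : CE x y then F x.1 ⟨(x, y), hc, rfl⟩ else 1) = F t ⟨(x, y), hc, e⟩ := by
    intro t x y hc e
    subst e
    rw [dif_pos hc]
  refine ⟨fun x y => if hc : CE x y then F x.1 ⟨(x, y), hc, rfl⟩ else 1, ?_, ?_⟩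
  · intro x y hc
    beta_reduce
    rw [dif_pos hc]
    exact hF1 _ ⟨(x, y), hc, rfl⟩
  · intro x y x' y' hc hc' hxx hne
    beta_reduce
    rw [hdef x.1 x y hc rfl, hdef x.1 x' y' hc' hxx.symm]
    apply hF2
    intro heq
    apply hne
    exact congrArg Subtype.val heq

end

end Pool.Agent.Lib.MP_0f7bfe_al.QT
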