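import Pool.Agent.Lib.MP_0f7bfe_al.QT.G1
import Pool.Agent.Lib.MP_0f7bfe_al.QT.G4
import Pool.Agent.Lib.MP_0f7bfe_al.QT.G5
import Pool.Agent.Lib.MP_0f7bfe_al.QT.S6
import Pool.Agent.Lib.MP_0f7bfe_al.QT.S9
import Pool.Agent.Lib.MP_0f7bfe_al.QT.S10
import Pool.Agent.Lib.MP_0f7bfe_al.QT.S11
import Pool.Agent.Lib.MP_0f7bfe_al.QT.S12

open scoped Pointwise

namespace Pool.Agent.Lib.MP_0f7bfe_al.QT

open Pool.Agent.Lib.MP_0f7bfe_al.OE

universe u v

section
variable {X : Type u} {Gr : SimpleGraph X} {A : Type v} [CommGroup A] [MulAction A X]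
  {w b : ℕ → ℕ}

/-- tokens along a spine decomposed into pieces -/
theorem tokens_pieces (h : Act Gr A w) [Finite A] {P : ℕ → X} (hP : Spine Gr A P)
    {K z N N2 : ℕ} (p : Pieces Gr A P K z N N2)
    (hbig : N2 ^ 4 * ((z + 1) ^ 2 * w K) < Nat.card A) {hI : ℕ} (hhI : ∀ t, p.h t ≤ hI)
    (b1 : ℕ) :
    ∃ V : Fin N → Set X, (∀ i, FC Gr (V i)) ∧ (∀ i j, i ≠ j → Far Gr K (V i) (V j)) ∧
      (∀ i, ∀ x ∈ V i, ∃ (a : A) (s : ℕ), Gr.dist x (a • P s) ≤ hI) ∧
      (∀ i, ∀ s ≤ b1, ∃ a : A, a • P s ∈ V i) := by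
  classical
  obtain ⟨M, hMdef⟩ : ∃ M : ℕ → Subgroup A,
      ∀ t, M t = Mm Gr A (P '' Set.Icc (p.a t) (p.b t)) (2 * p.h t) := ⟨_, fun t => rfl⟩
  obtain ⟨Z, hZdef⟩ : ∃ Z : ℕ → Set X, ∀ t, Z t = P '' Set.Icc (p.b t) (p.a (t + 1)) :=
    ⟨_, fun t => rfl⟩
  have hab : ∀ t, p.a t ≤ p.b t := fun t => le_trans (Nat.le_add_right _ _) (p.hab t)
  have hz1 : K < z := by have := p.hz 0 0; omega
  have hab1 : ∀ t, p.b t + z = p.a (t + 1) := fun t => (p.hba t).symm
  have hmono : ∀ t k, p.a (t + k + 1) ≥ p.b t + z := by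
    intro t k
    induction k with
    | zero => exact le_of_eq (hab1 t)
    | succ k ih =>
      have h1 := hab (t + k + 1)
      have h2 := hab1 (t + k + 1)
      have h3 : t + (k + 1) + 1 = t + k + 1 + 1 := by omega
      rw [h3]
      omega
  have hlt : ∀ t t', t < t' → p.b t + z ≤ p.a t' := by
    intro t t' htt
    obtain ⟨k, rfl⟩ := Nat.exists_eq_add_of_lt htt
    exact hmono t k
  have hbt : ∀ t, t ≤ p.b t := by
    intro t
    induction t with
    | zero => exact Nat.zero_le _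
    | succ t ih =>
      have h1 := hab (t + 1)
      have h2 := hab1 t
      omega
  -- the coset graph
  have hMbig : ∀ t, N * Nat.card (M t) ≤ Nat.card A := fun t => by rw [hMdef]; exact p.big t
  have hMsmall : ∀ t, Nat.card A ≤ N2 * Nat.card (M t) := fun t => by rw [hMdef]; exact p.small t
  have hZ : ∀ t, (Z t).Finite ∧ (Z t).ncard ≤ z + 1 := by
    intro t
    rw [hZdef]
    refine ⟨(Set.finite_Icc _ _).image _, ?_⟩
    refine (Set.ncard_image_le (Set.finite_Icc _ _)).trans ?_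
    rw [← hab1 t, ← Finset.coe_Icc, Set.ncard_coe_finset, Nat.card_Icc]
    omega
  obtain ⟨T, hT⟩ : ∃ T, T = b1 + 1 := ⟨_, rfl⟩
  obtain ⟨U, hU, hconn, hlay, hedge⟩ := coset_menger M hMbig (T := T) (by omega)
  obtain ⟨f, hf1, hf2⟩ := zone_strands h M hMsmall Z hZ hbig T
  let Bl : CV M T → Set X := fun x =>
    Blk Gr (M x.1) (P '' Set.Icc (p.a x.1) (p.b x.1)) (p.h x.1) x.2
  let St : CV M T → CV M T → Set X := fun x y => f x y • Z x.1
  have hZfc : ∀ t, FC Gr (Z t) := fun t => by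
    rw [hZdef]; exact fc_spine h hP (by have := hab1 t; omega)
  obtain ⟨V, hV1, hV2, hV3, hV4, hV5⟩ := blowup (Gr := Gr) (K := K) CE Bl St
    (fun x => fc_blk h (fc_spine h hP (hab x.1)) le_rfl _ (hMdef x.1) _)
    (fun x y _ => fc_smul h (hZfc _) _)
    (by
      intro x y hxy
      obtain ⟨e1, e2⟩ := hf1 x y hxy
      have hxy1 : (x.1 : ℕ) + 1 = y.1 := hxy.1
      constructor
      · refine ⟨f x y • P (p.b x.1), Set.smul_mem_smul_set ?_, f x y, e1, ?_⟩
        · rw [hZdef]
          exact ⟨_, ⟨le_rfl, by have := hab1 x.1; omega⟩, rfl⟩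
        · exact ⟨_, Set.smul_mem_smul_set ⟨_, ⟨hab _, le_rfl⟩, rfl⟩, by simp⟩
      · refine ⟨f x y • P (p.a y.1), Set.smul_mem_smul_set ?_, f x y, e2, ?_⟩
        · rw [hZdef]
          exact ⟨_, ⟨by have := hab1 x.1; rw [← hxy1]; omega, by rw [← hxy1]⟩, rfl⟩
        · exact ⟨_, Set.smul_mem_smul_set ⟨_, ⟨le_rfl, hab _⟩, rfl⟩, by simp⟩)
    (by
      intro x y hxy
      by_cases ht : x.1 = y.1
      · obtain ⟨t, c⟩ := x
        obtain ⟨t', c'⟩ := y
        simp only at ht
        subst ht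
        have hc : c ≠ c' := fun hc => hxy (by rw [hc])
        refine far_blk h _ ?_ hc
        intro g hg
        have hg' : g ∈ Mm Gr A (P '' Set.Icc (p.a t) (p.b t)) (2 * p.h t + 2 * K) := by
          obtain ⟨x1, hx1, y1, hy1, hd⟩ := hg
          have hd' : Gr.dist x1 (g • y1) ≤ 2 * p.h t + K := hd
          exact Subgroup.subset_closure ⟨x1, hx1, y1, hy1, by omega⟩
        rw [p.gap t, ← hMdef t] at hg'
        exact hg'
      · have ht' : (x.1 : ℕ) ≠ y.1 := fun h1 => ht (Fin.ext h1)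
        rcases lt_or_gt_of_ne ht' with h1 | h1
        · exact blk_far_level h hP (by have := hlt _ _ h1; have := p.hz x.1 y.1; omega) _ _ _ _
        · exact (blk_far_level h hP (by have := hlt _ _ h1; have := p.hz y.1 x.1; omega)
            _ _ _ _).symm)
    (by
      intro x y x' y' hxy hxy' hne
      by_cases ht : (x.1 : ℕ) = x'.1
      · have hfin := hf2 x y x' y' hxy hxy' ht hne
        intro p1 hp1 p2 hp2
        by_contra hcon
        apply hfin
        obtain ⟨q1, hq1, rfl⟩ := hp1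
        obtain ⟨q2, hq2, rfl⟩ := hp2
        refine ⟨q1, hq1, q2, ?_, ?_⟩
        · rw [ht]; exact hq2
        · have := h.iso (f x y)⁻¹ (f x y • q1) (f x' y' • q2)
          rw [inv_smul_smul, smul_smul] at this
          rw [this]
          exact not_lt.1 hcon
      · have key : ∀ x y x' y' : CV M T, (x.1 : ℕ) < x'.1 → Far Gr K (St x y) (St x' y') := by
          intro x y x' y' hlt'
          intro p1 hp1 p2 hp2
          obtain ⟨q1, hq1, rfl⟩ := hp1
          obtain ⟨q2, hq2, rfl⟩ := hp2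
          rw [hZdef] at hq1 hq2
          obtain ⟨s1, hs1, rfl⟩ := hq1
          obtain ⟨s2, hs2, rfl⟩ := hq2
          have h1 := spine_sync h hP (f x' y') (f x y) s2 s1
          rw [SimpleGraph.dist_comm] at h1
          have h2 := hlt _ _ hlt'
          have h3 := hs1.2
          have h4 := hs2.1
          have h5 := hab1 x.1
          have h6 := p.hab x'.1
          by_contra hcon
          push Not at hcon
          change Gr.dist (f x y • P s1) (f x' y' • P s2) ≤ K at hcon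
          omega
        rcases lt_or_gt_of_ne ht with h1 | h1
        · exact key _ _ _ _ h1
        · exact (key _ _ _ _ h1).symm)
    (by
      intro x y t hxy htx hty
      obtain ⟨e1, e2⟩ := hf1 x y hxy
      have hxy1 : (x.1 : ℕ) + 1 = y.1 := hxy.1
      have hSt : St x y = f x y • (P '' Set.Icc (p.b x.1) (p.a (x.1 + 1))) := by
        change f x y • Z x.1 = _
        rw [hZdef]
      rw [hSt]
      by_cases h1 : t.1 = x.1
      · obtain ⟨x1, c1⟩ := x
        obtain ⟨t1, c⟩ := t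
        simp only at h1
        subst h1
        refine strand_blk_far h hP (hab _) (Or.inl rfl) _ ?_ _ _ ?_
        · rw [hMdef, ← p.gap]
          exact Subgroup.subset_closure
        · rw [e1]
          exact fun hc => htx (Sigma.ext rfl (heq_of_eq hc.symm))
      · by_cases h2 : t.1 = y.1
        · obtain ⟨y1, c1⟩ := y
          obtain ⟨t1, c⟩ := t
          simp only at h2
          subst h2
          refine strand_blk_far h hP (hab _) (Or.inr ?_) _ ?_ _ _ ?_
          · exact congrArg p.a hxy1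
          · rw [hMdef, ← p.gap]
            exact Subgroup.subset_closure
          · rw [e2]
            exact fun hc => hty (Sigma.ext rfl (heq_of_eq hc.symm))
        · have h1' : (t.1 : ℕ) ≠ x.1 := fun h3 => h1 (Fin.ext h3)
          have h2' : (t.1 : ℕ) ≠ y.1 := fun h3 => h2 (Fin.ext h3)
          refine strand_blk_far_level h hP ?_ _ _ _
          have h5 := p.hz t.1 t.1
          rcases lt_or_gt_of_ne h1' with h3 | h3
          · left
            have := hlt _ _ h3
            have := hab x.1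
            omega
          · right
            have h4 : (x.1 : ℕ) + 1 < t.1 := by omega
            have := hlt _ _ h4
            have := hab (x.1 + 1)
            omega)
    U hU (fun i => (by obtain ⟨c, hc⟩ := hlay i ⟨0, by omega⟩; exact ⟨_, hc⟩)) hconn
  refine ⟨V, hV1, hV2, ?_, ?_⟩
  · intro i q hq
    rcases hV5 i q hq with ⟨x, hx⟩ | ⟨x, y, _, hx⟩
    · obtain ⟨g, _, y, ⟨y', ⟨s, _, rfl⟩, rfl⟩, hy⟩ := hx
      refine ⟨g, s, ?_⟩
      rw [SimpleGraph.dist_comm]
      exact hy.trans (hhI _)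
    · change q ∈ f x y • Z x.1 at hx
      rw [hZdef] at hx
      obtain ⟨q', ⟨s, _, rfl⟩, rfl⟩ := hx
      exact ⟨f x y, s, by simp⟩
  · intro i s hs
    -- the layer or zone of `s`
    have hs' : s ≤ p.b (T - 1) := by have := hbt (T - 1); omega
    have hcase : ∀ t, s ≤ p.b t → (∃ t' ≤ t, p.a t' ≤ s ∧ s ≤ p.b t') ∨
        (∃ t', t' + 1 ≤ t ∧ p.b t' ≤ s ∧ s ≤ p.a (t' + 1)) := by
      intro t
      induction t with
      | zero => intro h0; exact Or.inl ⟨0, le_rfl, by rw [p.a0]; exact Nat.zero_le _, h0⟩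
      | succ t ih =>
        intro h0
        by_cases h1 : p.a (t + 1) ≤ s
        · exact Or.inl ⟨t + 1, le_rfl, h1, h0⟩
        · by_cases h2 : p.b t ≤ s
          · exact Or.inr ⟨t, le_rfl, h2, by omega⟩
          · rcases ih (by omega) with ⟨t', h3, h4⟩ | ⟨t', h3, h4⟩
            · exact Or.inl ⟨t', by omega, h4⟩
            · exact Or.inr ⟨t', by omega, h4⟩
    rcases hcase (T - 1) hs' with ⟨t, ht, h1, h2⟩ | ⟨t, ht, h1, h2⟩
    · obtain ⟨c, hc⟩ := hlay i ⟨t, by omega⟩
      obtain ⟨g, rfl⟩ := QuotientGroup.mk_surjective c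
      refine ⟨g, hV3 i _ hc ⟨g, rfl, g • P s, Set.smul_mem_smul_set ⟨s, ⟨h1, h2⟩, rfl⟩, by simp⟩⟩
    · obtain ⟨x, hx, y, hy, hxt, hxy⟩ := hedge i t (by omega)
      refine ⟨f x y, hV4 i x hx y hy hxy (Set.smul_mem_smul_set ?_)⟩
      rw [hxt, hZdef]
      exact ⟨s, ⟨h1, h2⟩, rfl⟩

end

end Pool.Agent.Lib.MP_0f7bfe_al.QT
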