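import Pool.Agent.Lib.MP_0f7bfe_al.QT.G1
import Pool.Agent.Lib.MP_0f7bfe_al.QT.S12

open scoped Pointwise

namespace Pool.Agent.Lib.MP_0f7bfe_al.QT

open Pool.Agent.Lib.MP_0f7bfe_al.OE

universe u v

section
variable {X : Type u} {Gr : SimpleGraph X} {A : Type v} [CommGroup A] [MulAction A X]
  {w b : ℕ → ℕ}

theorem tokens_straight (h : Act Gr A w) [Finite A] {P : ℕ → X} (hP : Spine Gr A P)
    {K κ N s0 b1 : ℕ} (hK : K ≤ κ) (hs : s0 ≤ b1)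
    (hN : N * Nat.card (Mm Gr A (P '' Set.Icc s0 b1) κ) ≤ Nat.card A) :
    ∃ V : Fin N → Set X, (∀ i, FC Gr (V i)) ∧ (∀ i j, i ≠ j → Far Gr K (V i) (V j)) ∧
      (∀ i, ∀ x ∈ V i, ∃ (a : A) (s : ℕ), x = a • P s) ∧
      (∀ i, ∀ s, s0 ≤ s → s ≤ b1 → ∃ a : A, a • P s ∈ V i) := by
  classical
  obtain ⟨M, hM⟩ : ∃ M, M = Mm Gr A (P '' Set.Icc s0 b1) κ := ⟨_, rfl⟩
  rw [← hM] at hN
  have hcard : N ≤ Nat.card (A ⧸ M) := by
    have h1 : Nat.card A = Nat.card (A ⧸ M) * Nat.card M :=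
      Subgroup.card_eq_card_quotient_mul_card_subgroup M
    rw [h1] at hN
    exact Nat.le_of_mul_le_mul_right hN Nat.card_pos
  haveI : Fintype (A ⧸ M) := Fintype.ofFinite _
  have e : ∃ e : Fin N → A ⧸ M, Function.Injective e := by
    have h2 : Fintype.card (Fin N) ≤ Fintype.card (A ⧸ M) := by
      rw [Fintype.card_fin, ← Nat.card_eq_fintype_card]
      exact hcard
    obtain ⟨e⟩ := Function.Embedding.nonempty_of_card_le h2
    exact ⟨e, e.injective⟩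
  obtain ⟨e, he⟩ := e
  choose f hf using fun i => QuotientGroup.mk_surjective (e i)
  refine ⟨fun i => f i • (P '' Set.Icc s0 b1), fun i => fc_smul h (fc_spine h hP hs) _, ?_, ?_, ?_⟩
  · rintro i j hij _ ⟨_, ⟨s, hs, rfl⟩, rfl⟩ _ ⟨_, ⟨s', hs', rfl⟩, rfl⟩
    by_contra hcon
    push Not at hcon
    apply hij
    apply he
    rw [← hf i, ← hf j]
    rw [QuotientGroup.eq, hM]
    refine Subgroup.subset_closure ⟨P s, ⟨s, hs, rfl⟩, P s', ⟨s', hs', rfl⟩, ?_⟩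
    have h3 := h.iso (f i) (P s) (((f i)⁻¹ * f j) • P s')
    rw [smul_smul, mul_inv_cancel_left] at h3
    rw [← h3]
    exact le_trans hcon hK
  · rintro i _ ⟨_, ⟨s, hs, rfl⟩, rfl⟩
    exact ⟨f i, s, rfl⟩
  · intro i s h1 h2
    exact ⟨f i, Set.smul_mem_smul_set ⟨s, ⟨h1, h2⟩, rfl⟩⟩

end

end Pool.Agent.Lib.MP_0f7bfe_al.QT
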