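import Pool.Agent.Lib.MP_0f7bfe_al.QT.Defs

open scoped Pointwise

namespace Pool.Agent.Lib.MP_0f7bfe_al.QT

open Pool.Agent.Lib.MP_0f7bfe_al.OE

universe u v

section
variable {X : Type u} {Gr : SimpleGraph X} {A : Type v} [CommGroup A] [MulAction A X]
  {w b : ℕ → ℕ}

private theorem qt_s2_path (h : Act Gr A w) {P : ℕ → X} (hP : Spine Gr A P) (s k : ℕ) :
    Gr.dist (P s) (P (s + k)) ≤ k := by
  induction k with
  | zero => simp
  | succ k ih =>
    have h1 := h.nice.conn.dist_triangle (u := P s) (v := P (s + k)) (w := P (s + (k + 1)))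
    have h2 := hP.step (s + k)
    rw [← add_assoc] at h1 ⊢
    omega

private theorem qt_s2_inv (h : Act Gr A w) (g : A) (x y : X) :
    Gr.dist x (g⁻¹ • y) = Gr.dist y (g • x) := by
  rw [← h.iso g x (g⁻¹ • y), smul_inv_smul, SimpleGraph.dist_comm]

private theorem qt_s2_move (h : Act Gr A w) {P : ℕ → X} (hP : Spine Gr A P) {s t κ : ℕ} {g : A}
    (hd : Gr.dist (P s) (g • P t) ≤ κ) :
    Gr.dist (P s) (g • P s) ≤ 2 * κ ∧ Gr.dist (P t) (g • P t) ≤ 2 * κ := by
  have h1 := hP.lev g s t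
  have h2 := hP.lev g⁻¹ t s
  rw [qt_s2_inv h] at h2
  have h3 : Gr.dist (P s) (P t) ≤ κ := by
    rcases le_total s t with hst | hst
    · obtain ⟨k, rfl⟩ := Nat.exists_eq_add_of_le hst
      have := qt_s2_path h hP s k
      omega
    · obtain ⟨k, rfl⟩ := Nat.exists_eq_add_of_le hst
      have := qt_s2_path h hP t k
      rw [SimpleGraph.dist_comm]
      omega
  have h4 := h.nice.conn.dist_triangle (u := P s) (v := g • P t) (w := g • P s)
  have h5 := h.nice.conn.dist_triangle (u := P t) (v := P s) (w := g • P t)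
  rw [h.iso g (P t) (P s), SimpleGraph.dist_comm (u := P t)] at h4
  rw [SimpleGraph.dist_comm (u := P t) (v := P s)] at h5
  constructor <;> omega

private theorem qt_s2_sup [Finite A] (H K : Subgroup A) :
    Nat.card (H ⊔ K : Subgroup A) ≤ Nat.card H * Nat.card K := by
  have h1 : ((H ⊔ K : Subgroup A) : Set A) = (H : Set A) * (K : Set A) := Subgroup.mul_normal H K
  have h2 : Nat.card (H ⊔ K : Subgroup A) = Nat.card ((H : Set A) * (K : Set A) : Set A) := by
    rw [← h1]; rfl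
  rw [h2]
  exact Set.natCard_mul_le

private theorem qt_s2_mono [Finite A] {H K : Subgroup A} (h : H ≤ K) :
    Nat.card H ≤ Nat.card K :=
  Nat.card_mono (Set.toFinite (K : Set A)) h

/-- HINT: by `hP.lev`, `P s1` and `g • P s2` with `dist ≤ κ` have `|s1 - s2| ≤ κ`, so
`dist (P s1) (g • P s1) ≤ 2 * κ` (and the same with `s2`). Hence every element of
`Dm (P '' Icc s (s'+1)) κ` is in `Dm (P '' Icc s s') κ` or moves `x = P (s'+1)` by at most `2 κ`;
`Mm (..(s'+1)) ≤ Mm (.. s') ⊔ closure {a | dist x (a • x) ≤ 2 * κ}` and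
`card (H ⊔ K) ≤ card H * card K` in a commutative group. (If `s' + 1 < s` everything is `⊥`.) -/
theorem card_add (h : Act Gr A w) [Finite A] (hb : OrdB Gr A b) {P : ℕ → X}
    (hP : Spine Gr A P) (s s' κ : ℕ) :
    Nat.card (Mm Gr A (P '' Set.Icc s (s' + 1)) κ) ≤
      Nat.card (Mm Gr A (P '' Set.Icc s s') κ) * b (2 * κ) := by
  have h1 : Mm Gr A (P '' Set.Icc s (s' + 1)) κ ≤ Mm Gr A (P '' Set.Icc s s') κ ⊔
      Subgroup.closure {a : A | Gr.dist (P (s' + 1)) (a • P (s' + 1)) ≤ 2 * κ} := by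
    unfold Mm
    rw [Subgroup.closure_le]
    rintro g ⟨x, ⟨s1, hs1, rfl⟩, y, ⟨s2, hs2, rfl⟩, hd⟩
    have h2 := qt_s2_move h hP hd
    rw [Set.mem_Icc] at hs1 hs2
    by_cases h3 : s1 = s' + 1
    · subst h3
      exact Subgroup.mem_sup_right (Subgroup.subset_closure h2.1)
    · by_cases h4 : s2 = s' + 1
      · subst h4
        exact Subgroup.mem_sup_right (Subgroup.subset_closure h2.2)
      · refine Subgroup.mem_sup_left (Subgroup.subset_closure ?_)
        exact ⟨P s1, ⟨s1, ⟨hs1.1, by omega⟩, rfl⟩, P s2, ⟨s2, ⟨hs2.1, by omega⟩, rfl⟩, hd⟩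
  refine (qt_s2_mono h1).trans ((qt_s2_sup _ _).trans ?_)
  exact Nat.mul_le_mul le_rfl (hb _ _)

theorem card_len (h : Act Gr A w) [Finite A] (hb : OrdB Gr A b) {P : ℕ → X}
    (hP : Spine Gr A P) (s z κ : ℕ) :
    Nat.card (Mm Gr A (P '' Set.Icc s (s + z)) κ) ≤ b (2 * κ) ^ (z + 1) := by
  induction z with
  | zero =>
    rw [add_zero, Set.Icc_self, Set.image_singleton, zero_add, pow_one]
    refine le_trans (qt_s2_mono ?_) (hb (P s) (2 * κ))
    unfold Mm
    refine Subgroup.closure_mono ?_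
    rintro g ⟨x, rfl, y, rfl, hd⟩
    rw [Set.mem_ofPred_eq]
    omega
  | succ z ih =>
    rw [pow_succ, ← add_assoc]
    exact (card_add h hb hP s (s + z) κ).trans (Nat.mul_le_mul ih le_rfl)

end

end Pool.Agent.Lib.MP_0f7bfe_al.QT
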