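import Pool.Agent.Lib.MP_0f7bfe_al.QT.Defs

open scoped Pointwise

namespace Pool.Agent.Lib.MP_0f7bfe_al.QT

open Pool.Agent.Lib.MP_0f7bfe_al.OE

universe u v

section
variable {X : Type u} {Gr : SimpleGraph X} {A : Type v} [CommGroup A] [MulAction A X]
  {w b : ℕ → ℕ}

private theorem qt_s3_path (h : Act Gr A w) {P : ℕ → X} (hP : Spine Gr A P) (s k : ℕ) :
    Gr.dist (P s) (P (s + k)) ≤ k := by
  induction k with
  | zero => simp
  | succ k ih =>
    have h1 := h.nice.conn.dist_triangle (u := P s) (v := P (s + k)) (w := P (s + (k + 1)))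
    have h2 := hP.step (s + k)
    rw [← add_assoc] at h1 ⊢
    omega

private theorem qt_s3_inv (h : Act Gr A w) (g : A) (x y : X) :
    Gr.dist x (g⁻¹ • y) = Gr.dist y (g • x) := by
  rw [← h.iso g x (g⁻¹ • y), smul_inv_smul, SimpleGraph.dist_comm]

private theorem qt_s3_move (h : Act Gr A w) {P : ℕ → X} (hP : Spine Gr A P) {s t κ : ℕ} {g : A}
    (hd : Gr.dist (P s) (g • P t) ≤ κ) :
    Gr.dist (P s) (g • P s) ≤ 2 * κ ∧ Gr.dist (P t) (g • P t) ≤ 2 * κ := by
  have h1 := hP.lev g s t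
  have h2 := hP.lev g⁻¹ t s
  rw [qt_s3_inv h] at h2
  have h3 : Gr.dist (P s) (P t) ≤ κ := by
    rcases le_total s t with hst | hst
    · obtain ⟨k, rfl⟩ := Nat.exists_eq_add_of_le hst
      have := qt_s3_path h hP s k
      omega
    · obtain ⟨k, rfl⟩ := Nat.exists_eq_add_of_le hst
      have := qt_s3_path h hP t k
      rw [SimpleGraph.dist_comm]
      omega
  have h4 := h.nice.conn.dist_triangle (u := P s) (v := g • P t) (w := g • P s)
  have h5 := h.nice.conn.dist_triangle (u := P t) (v := P s) (w := g • P t)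
  rw [h.iso g (P t) (P s), SimpleGraph.dist_comm (u := P t)] at h4
  rw [SimpleGraph.dist_comm (u := P t) (v := P s)] at h5
  constructor <;> omega

private theorem qt_s3_sup [Finite A] (H K : Subgroup A) :
    Nat.card (H ⊔ K : Subgroup A) ≤ Nat.card H * Nat.card K := by
  have h1 : ((H ⊔ K : Subgroup A) : Set A) = (H : Set A) * (K : Set A) := Subgroup.mul_normal H K
  have h2 : Nat.card (H ⊔ K : Subgroup A) = Nat.card ((H : Set A) * (K : Set A) : Set A) := by
    rw [← h1]; rfl
  rw [h2]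
  exact Set.natCard_mul_le

private theorem qt_s3_mono [Finite A] {H K : Subgroup A} (h : H ≤ K) :
    Nat.card H ≤ Nat.card K :=
  Nat.card_mono (Set.toFinite (K : Set A)) h

/-- HINT: `J = P '' Icc s s'` is `FC` (consecutive points are equal or adjacent; `fc_seg` of B1).
Suppose the inequality fails. `N0 = Mm J κ ⊇ Dm J K`. Every `g ∈ Dm J (2K(I+1))` moves some `P s1`
by at most `4K(I+1)` (see the hint of `card_add`), so the order of `g` is at most
`β = b (4 * K * (I + 1))`. Choose recursively `g i ∈ Dm J (2K(I+1))`, `g i ∉ N0 ⊔ closure (g '' Iio i)`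
for `i < I`: possible since `card (N0 ⊔ closure (g '' Iio i)) ≤ card N0 * β ^ i <
card (Mm J (2K(I+1)))`. This contradicts `hc`. (To build `g` use strong recursion or prove by
induction on `i` that a suitable `g` exists for the first `i` terms, with `Function.update`.) -/
theorem card_chain (h : Act Gr A w) [Finite A] {K I : ℕ} (hc : NoChain Gr A K I)
    (hb : OrdB Gr A b) {P : ℕ → X} (hP : Spine Gr A P) {s s' : ℕ} (hs : s ≤ s') {κ : ℕ}
    (hκ : K ≤ κ) :
    Nat.card (Mm Gr A (P '' Set.Icc s s') (2 * K * (I + 1))) ≤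
      Nat.card (Mm Gr A (P '' Set.Icc s s') κ) * b (4 * K * (I + 1)) ^ I := by
  classical
  have hJ : FC Gr (P '' Set.Icc s s') := fc_seg h.nice hP.step hs
  set J := P '' Set.Icc s s' with hJd
  set N0 := Mm Gr A J κ with hN0
  set β := b (4 * K * (I + 1)) with hβ
  by_contra hcon
  push Not at hcon
  have hβ1 : 1 ≤ β := by
    have h1 := hb (P s) (4 * K * (I + 1))
    have h2 : 0 < Nat.card (Subgroup.closure
      {a : A | Gr.dist (P s) (a • P s) ≤ 4 * K * (I + 1)}) := Nat.card_pos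
    omega
  have hsub : Dm Gr A J K ⊆ N0 := by
    rintro g ⟨x, hx, y, hy, hd⟩
    exact Subgroup.subset_closure ⟨x, hx, y, hy, hd.trans hκ⟩
  have hord : ∀ g ∈ Dm Gr A J (2 * K * (I + 1)), Nat.card (Subgroup.closure {g}) ≤ β := by
    rintro g ⟨x, ⟨s1, hs1, rfl⟩, y, ⟨s2, hs2, rfl⟩, hd⟩
    have h2 := qt_s3_move h hP hd
    refine le_trans (qt_s3_mono (Subgroup.closure_mono ?_)) (hb (P s1) (4 * K * (I + 1)))
    rintro a rfl
    rw [Set.mem_ofPred_eq]
    refine h2.1.trans (le_of_eq (by ring))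
  have hpick : ∀ H : Subgroup A, ∃ g : A,
      Nat.card H < Nat.card (Mm Gr A J (2 * K * (I + 1))) →
        g ∈ Dm Gr A J (2 * K * (I + 1)) ∧ g ∉ H := by
    intro H
    by_cases hH : ∃ g ∈ Dm Gr A J (2 * K * (I + 1)), g ∉ H
    · obtain ⟨g, h1, h2⟩ := hH
      exact ⟨g, fun _ => ⟨h1, h2⟩⟩
    · push Not at hH
      refine ⟨1, fun hlt => absurd hlt (not_lt.2 (qt_s3_mono ?_))⟩
      unfold Mm
      rw [Subgroup.closure_le]
      exact hH
  choose pick hpk using hpick
  let H : ℕ → Subgroup A := fun n =>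
    Nat.rec N0 (fun _ H' => H' ⊔ Subgroup.closure {pick H'}) n
  have hH0 : H 0 = N0 := rfl
  have hHs : ∀ i, H (i + 1) = H i ⊔ Subgroup.closure {pick (H i)} := fun i => rfl
  have hmono : Monotone H := monotone_nat_of_le_succ (fun i => by rw [hHs]; exact le_sup_left)
  have hcard : ∀ i : ℕ, i ≤ I → Nat.card ↥(H i) ≤ Nat.card N0 * β ^ i := by
    intro i
    induction i with
    | zero => intro _; rw [hH0, pow_zero, mul_one]
    | succ i ih =>
      intro hi
      have h1 := ih (by omega)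
      have h2 : Nat.card ↥(H i) < Nat.card (Mm Gr A J (2 * K * (I + 1))) := by
        refine lt_of_le_of_lt h1 (lt_of_le_of_lt ?_ hcon)
        exact Nat.mul_le_mul le_rfl (Nat.pow_le_pow_right hβ1 (by omega))
      have h3 := hpk (H i) h2
      rw [hHs, pow_succ, ← mul_assoc]
      exact (qt_s3_sup _ _).trans (Nat.mul_le_mul h1 (hord _ h3.1))
  have hlt : ∀ i : ℕ, i < I → Nat.card ↥(H i) < Nat.card (Mm Gr A J (2 * K * (I + 1))) := by
    intro i hi
    refine lt_of_le_of_lt (hcard i hi.le) (lt_of_le_of_lt ?_ hcon)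
    exact Nat.mul_le_mul le_rfl (Nat.pow_le_pow_right hβ1 (by omega))
  obtain ⟨i, hi, hmem⟩ := hc J hJ N0 hsub (fun i => pick (H i))
    (fun i hi => (hpk (H i) (hlt i hi)).1)
  refine (hpk (H i) (hlt i hi)).2 ?_
  have hle : N0 ⊔ Subgroup.closure ((fun i => pick (H i)) '' Set.Iio i) ≤ H i := by
    refine sup_le ?_ ?_
    · rw [← hH0]; exact hmono (Nat.zero_le i)
    · rw [Subgroup.closure_le]
      rintro _ ⟨j, hj, rfl⟩
      have h1 : H (j + 1) ≤ H i := hmono hj
      refine h1 ?_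
      rw [hHs]
      exact Subgroup.mem_sup_right (Subgroup.subset_closure rfl)
  exact hle hmem

end

end Pool.Agent.Lib.MP_0f7bfe_al.QT
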