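import Pool.Agent.Lib.MP_0f7bfe_al.QT.S1
import Pool.Agent.Lib.MP_0f7bfe_al.QT.S2
import Pool.Agent.Lib.MP_0f7bfe_al.QT.S3
import Pool.Agent.Lib.MP_0f7bfe_al.QT.S12

open scoped Pointwise

namespace Pool.Agent.Lib.MP_0f7bfe_al.QT

open Pool.Agent.Lib.MP_0f7bfe_al.OE

universe u v

section
variable {X : Type u} {Gr : SimpleGraph X} {A : Type v} [CommGroup A] [MulAction A X]
  {w b : ℕ → ℕ}

private theorem qt_s4_Mm_mono {J J' : Set X} {κ κ' : ℕ} (hJ : J ⊆ J') (hκ : κ ≤ κ') :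
    Mm Gr A J κ ≤ Mm Gr A J' κ' := by
  refine Subgroup.closure_mono ?_
  rintro a ⟨x, hx, y, hy, hd⟩
  exact ⟨x, hJ hx, y, hJ hy, hd.trans hκ⟩

private theorem qt_s4_card_mono [Finite A] {J J' : Set X} {κ κ' : ℕ} (hJ : J ⊆ J')
    (hκ : κ ≤ κ') : Nat.card (Mm Gr A J κ) ≤ Nat.card (Mm Gr A J' κ') :=
  Subgroup.card_le_of_le (qt_s4_Mm_mono hJ hκ)

private theorem qt_s4_step (h : Act Gr A w) [Finite A] {K I N z : ℕ} (hK : 1 ≤ K)
    (hc : NoChain Gr A K I) (hb : OrdB Gr A b) {P : ℕ → X} (hP : Spine Gr A P)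
    (hcase : ∀ s, ∃ s', s ≤ s' ∧
      Nat.card A < N * Nat.card (Mm Gr A (P '' Set.Icc s s') (2 * K * (I + 1))))
    (hbig : N * b (4 * K * (I + 1)) ^ (z + 1) ≤ Nat.card A) (a : ℕ) :
    ∃ B H : ℕ, a + z ≤ B ∧ H ≤ K * (I + 1) ∧
      Mm Gr A (P '' Set.Icc a B) (2 * H + 2 * K) = Mm Gr A (P '' Set.Icc a B) (2 * H) ∧
      N * Nat.card (Mm Gr A (P '' Set.Icc a B) (2 * H)) ≤ Nat.card A ∧
      Nat.card A ≤ (N * b (4 * K * (I + 1)) * b (4 * K * (I + 1)) ^ I) *
        Nat.card (Mm Gr A (P '' Set.Icc a B) (2 * H)) := by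
  classical
  have h4 : 2 * (2 * K * (I + 1)) = 4 * K * (I + 1) := by ring
  have hex : ∃ s', a + z ≤ s' ∧
      Nat.card A < N * Nat.card (Mm Gr A (P '' Set.Icc a (s' + 1)) (2 * K * (I + 1))) := by
    obtain ⟨s', hs, hlt⟩ := hcase a
    refine ⟨a + z + s', by omega, hlt.trans_le ?_⟩
    refine Nat.mul_le_mul_left _ (qt_s4_card_mono (Set.image_mono ?_) le_rfl)
    exact Set.Icc_subset_Icc le_rfl (by omega)
  set B := Nat.find hex with hB
  obtain ⟨hB1, hB2⟩ := Nat.find_spec hex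
  rw [← hB] at hB1 hB2
  have hprop : N * Nat.card (Mm Gr A (P '' Set.Icc a B) (2 * K * (I + 1))) ≤ Nat.card A := by
    rcases eq_or_lt_of_le hB1 with heq | hlt
    · rw [← heq]
      refine le_trans (Nat.mul_le_mul_left _ (card_len h hb hP a z _)) ?_
      rw [h4]
      exact hbig
    · have hm := Nat.find_min hex (m := B - 1) (by omega)
      rw [not_and, not_lt] at hm
      have := hm (by omega)
      rwa [show B - 1 + 1 = B by omega] at this
  have haB : a ≤ B := by omega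
  obtain ⟨i, hi, hgap⟩ := exists_gap hc hK (fc_spine h hP haB)
  have hle : 2 * (K * (i + 1)) ≤ 2 * K * (I + 1) := by
    have : K * (i + 1) ≤ K * (I + 1) := Nat.mul_le_mul_left _ (by omega)
    nlinarith
  have hKle : K ≤ 2 * (K * (i + 1)) := by nlinarith [Nat.zero_le (K * i)]
  refine ⟨B, K * (i + 1), hB1, Nat.mul_le_mul_left _ (by omega), hgap, ?_, ?_⟩
  · exact le_trans (Nat.mul_le_mul_left _ (qt_s4_card_mono subset_rfl hle)) hprop
  · have h1 := card_add h hb hP a B (2 * K * (I + 1))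
    rw [h4] at h1
    have h2 := card_chain h hc hb hP haB hKle
    calc Nat.card A ≤ N * Nat.card (Mm Gr A (P '' Set.Icc a (B + 1)) (2 * K * (I + 1))) := hB2.le
      _ ≤ N * (Nat.card (Mm Gr A (P '' Set.Icc a B) (2 * K * (I + 1))) *
            b (4 * K * (I + 1))) := Nat.mul_le_mul_left _ h1
      _ ≤ N * ((Nat.card (Mm Gr A (P '' Set.Icc a B) (2 * (K * (i + 1)))) *
            b (4 * K * (I + 1)) ^ I) * b (4 * K * (I + 1))) :=
          Nat.mul_le_mul_left _ (Nat.mul_le_mul_right _ h2)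
      _ = _ := by ring

/-- HINT: for given `a` let `b` be the largest `s' ≥ a + z` with
`N * card (Mm (P '' Icc a s') κI) ≤ card A`, `κI = 2 * K * (I + 1)`: `a + z` has the property by
`card_len` and `hbig`, large `s'` do not (`hcase`, monotonicity of `Mm`). `exists_gap` for
`J = P '' Icc a b` (`fc_spine`) gives `i < I`, put `h = K * (i + 1)`. `big`: monotonicity
(`2 * h ≤ κI`). `small`: `card A < N * card (Mm (Icc a (b+1)) κI) ≤ N * card (Mm (Icc a b) κI) * β`
(`card_add`) and `card_chain` with `κ = 2 * h`. Then define the sequences by recursion on `t`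
(`a 0 = 0`, `a (t+1) = b t + z`). -/
theorem pieces_exist (h : Act Gr A w) [Finite A] {K I N z : ℕ} (hK : 1 ≤ K)
    (hc : NoChain Gr A K I) (hb : OrdB Gr A b) {P : ℕ → X} (hP : Spine Gr A P)
    (hcase : ∀ s, ∃ s', s ≤ s' ∧
      Nat.card A < N * Nat.card (Mm Gr A (P '' Set.Icc s s') (2 * K * (I + 1))))
    (hz : z = 2 * K * (I + 1) + K + 1)
    (hbig : N * b (4 * K * (I + 1)) ^ (z + 1) ≤ Nat.card A) :
    ∃ p : Pieces Gr A P K z N (N * b (4 * K * (I + 1)) * b (4 * K * (I + 1)) ^ I),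
      ∀ t, p.h t ≤ K * (I + 1) := by
  choose B H h1 h2 h3 h4 h5 using qt_s4_step (z := z) h hK hc hb hP hcase hbig
  let a : ℕ → ℕ := fun t => Nat.rec 0 (fun _ x => B x + z) t
  refine ⟨{ a := a, b := fun t => B (a t), h := fun t => H (a t), a0 := rfl,
            hab := fun t => h1 _, hba := fun t => rfl, hz := ?_, gap := fun t => h3 _,
            big := fun t => h4 _, small := fun t => h5 _ }, fun t => h2 _⟩
  intro t t'
  have e1 := h2 (a t)
  have e2 := h2 (a t')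
  have e3 : 2 * K * (I + 1) = K * (I + 1) + K * (I + 1) := by ring
  show H (a t) + H (a t') + K < z
  omega

end

end Pool.Agent.Lib.MP_0f7bfe_al.QT
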