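import Pool.Agent.Lib.MP_0f7bfe_al.QT.R9
import Pool.Agent.Lib.MP_0f7bfe_al.QT.S4
import Pool.Agent.Lib.MP_0f7bfe_al.QT.S13
import Pool.Agent.Lib.MP_0f7bfe_al.QT.S14

namespace Pool.Agent.Lib.MP_0f7bfe_al.QT

open Pool.Agent.Lib.MP_0f7bfe_al.OE

universe u v

/-- spine lemma -/
theorem spine_lemma {K : ℕ} (hK : 1 ≤ K) (n : ℕ) (w b : ℕ → ℕ) :
    ∃ hI : ℕ, ∀ N : ℕ, ∃ N3 : ℕ, ∀ (X : Type u) (Gr : SimpleGraph X) (A : Type v) [CommGroup A]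
      [MulAction A X] [Finite A], Act Gr A w → OrdB Gr A b → ¬ FatClique Gr K n →
      N3 ≤ Nat.card A → ∀ P : ℕ → X, Spine Gr A P → ∃ a0 : ℕ, ∀ b1 : ℕ,
      ∃ V : Fin N → Set X, (∀ i, FC Gr (V i)) ∧ (∀ i j, i ≠ j → Far Gr K (V i) (V j)) ∧
      (∀ i, ∀ x ∈ V i, ∃ (a : A) (s : ℕ), Gr.dist x (a • P s) ≤ hI) ∧
      (∀ i, ∀ s, a0 ≤ s → s ≤ b1 → ∃ a : A, a • P s ∈ V i) := by
  obtain ⟨I, hI⟩ := exists_noChain.{u, v} K n w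
  refine ⟨K * (I + 1), fun N => ?_⟩
  obtain ⟨z, hz⟩ : ∃ z, z = 2 * K * (I + 1) + K + 1 := ⟨_, rfl⟩
  obtain ⟨β, hβ⟩ : ∃ β, β = b (4 * K * (I + 1)) := ⟨_, rfl⟩
  refine ⟨max (N * β ^ (z + 1)) ((N * β * β ^ I) ^ 4 * ((z + 1) ^ 2 * w K) + 1), ?_⟩
  intro X Gr A _ _ _ hA hb hno hcard P hP
  have hc := hI X Gr A hA hno
  have h1 : N * β ^ (z + 1) ≤ Nat.card A := (le_max_left _ _).trans hcard
  have h2 : (N * β * β ^ I) ^ 4 * ((z + 1) ^ 2 * w K) < Nat.card A :=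
    lt_of_lt_of_le (Nat.lt_succ_self _) ((le_max_right _ _).trans hcard)
  by_cases hcase : ∀ s, ∃ s', s ≤ s' ∧
      Nat.card A < N * Nat.card (Mm Gr A (P '' Set.Icc s s') (2 * K * (I + 1)))
  · obtain ⟨p, hp⟩ := pieces_exist hA hK hc hb hP hcase hz (by rw [← hβ]; exact h1)
    refine ⟨0, fun b1 => ?_⟩
    rw [← hβ] at p
    obtain ⟨p, hp⟩ : ∃ p : Pieces Gr A P K z N (N * β * β ^ I), ∀ t, p.h t ≤ K * (I + 1) := by
      have := pieces_exist hA hK hc hb hP hcase hz (by rw [← hβ]; exact h1)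
      rw [← hβ] at this
      exact this
    obtain ⟨V, hV1, hV2, hV3, hV4⟩ := tokens_pieces hA hP p h2 hp b1
    exact ⟨V, hV1, hV2, hV3, fun i s _ hs => hV4 i s hs⟩
  · push Not at hcase
    obtain ⟨s0, hs0⟩ := hcase
    refine ⟨s0, fun b1 => ?_⟩
    obtain ⟨V, hV1, hV2, hV3, hV4⟩ := tokens_straight hA hP (K := K) (κ := 2 * K * (I + 1))
      (N := N) (s0 := s0) (b1 := max s0 b1) (by nlinarith) (le_max_left _ _)
      (hs0 _ (le_max_left _ _))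
    refine ⟨V, hV1, hV2, ?_, fun i s h3 h4 => hV4 i s h3 (h4.trans (le_max_right _ _))⟩
    intro i x hx
    obtain ⟨a, s, rfl⟩ := hV3 i x hx
    exact ⟨a, s, by simp⟩

end Pool.Agent.Lib.MP_0f7bfe_al.QT
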