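import Pool.Agent.Lib.MP_0f7bfe_al.QT.Defs
import Pool.Agent.Lib.MP_4d119b_lc.Menger

open scoped Pointwise

namespace Pool.Agent.Lib.MP_0f7bfe_al.QT

open Pool.Agent.Lib.MP_0f7bfe_al.OE

open Pool.Agent.Lib.MP_4d119b_lc (RIn)

universe u v

section

theorem menger_sets {V : Type*} [Finite V] (G : SimpleGraph V) (B C : Set V) (k : ℕ)
    (h : ∀ S : Finset V, S.card < k → ∃ x ∈ B, ∃ y ∈ C, x ∉ S ∧ y ∉ S ∧ RIn G (↑S)ᶜ x y) :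
    ∃ U : Fin k → Set V, (∀ i, (U i ∩ B).Nonempty ∧ (U i ∩ C).Nonempty ∧
      ∀ x ∈ U i, ∀ y ∈ U i, RIn G (U i) x y) ∧ ∀ i j, i ≠ j → Disjoint (U i) (U j) := by
  obtain ⟨P, h1, h2⟩ := Pool.Agent.Lib.MP_4d119b_lc.menger G B C k
    (fun S hS => h S hS)
  refine ⟨fun i => (P i).supp, fun i => ⟨⟨(P i).p 0, ⟨0, Nat.zero_le _, rfl⟩, (h1 i).1⟩,
    ⟨(P i).p (P i).len, ⟨_, le_rfl, rfl⟩, (h1 i).2.1⟩, (P i).supp_conn.2⟩, h2⟩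

end

end Pool.Agent.Lib.MP_0f7bfe_al.QT
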