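import Pool.Agent.Lib.MP_0f7bfe_al.QT.TDefs

open scoped Pointwise

namespace Pool.Agent.Lib.MP_0f7bfe_al.QT

open Pool.Agent.Lib.MP_0f7bfe_al.OE

universe u v

section
variable {X : Type u} {Gr : SimpleGraph X} {Q : Type v} [CommGroup Q] [MulAction Q X]
  {w b : ℕ → ℕ}

/-- HINT: `E = closure {e | dist o (e • o) ≤ L}`; this set is finite (freeness: `e ↦ e • o` is
injective into a ball). `Q \ E` is nonempty since `Q` is infinite; `q` minimises
`dist o (q • o)` there. `p` = a shortest walk (`Walk.getVert`), constant after its end. -/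
theorem leg_exists (h : Act Gr Q w) (hT : ∀ s : Set Q, s.Finite → Finite (Subgroup.closure s))
    [Infinite Q] (o : X) (L : ℕ) : Nonempty (Leg Gr Q o L) := by
  classical
  have hfinS : ({e : Q | Gr.dist o (e • o) ≤ L}).Finite := by
    refine Set.Finite.of_finite_image (f := fun e : Q => e • o)
      ((h.nice.ball o L).subset ?_) ?_
    · rintro _ ⟨e, he, rfl⟩
      exact he
    · intro e _ e' _ hee
      have h1 : (e'⁻¹ * e) • o = o := by
        rw [mul_smul]
        change e • o = e' • o at hee
        rw [hee, inv_smul_smul]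
      have h2 := h.free _ _ h1
      have : e = e' * (e'⁻¹ * e) := by group
      rw [this, h2, mul_one]
  have hE : Finite (Subgroup.closure {e : Q | Gr.dist o (e • o) ≤ L}) := hT _ hfinS
  set E : Subgroup Q := Subgroup.closure {e : Q | Gr.dist o (e • o) ≤ L} with hEdef
  have hex : ∃ q : Q, q ∉ E := by
    by_contra hcon
    push Not at hcon
    have h1 : (E : Set Q) = Set.univ := Set.eq_univ_of_forall hcon
    have h2 : (E : Set Q).Finite := Set.toFinite _
    rw [h1] at h2
    exact Set.infinite_univ h2
  have hex2 : ∃ n : ℕ, ∃ q : Q, q ∉ E ∧ Gr.dist o (q • o) = n := by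
    obtain ⟨q, hq⟩ := hex
    exact ⟨_, q, hq, rfl⟩
  obtain ⟨q, hq, hqn⟩ := Nat.find_spec hex2
  have hmin : ∀ x : Q, x ∉ E → Gr.dist o (q • o) ≤ Gr.dist o (x • o) := by
    intro x hx
    rw [hqn]
    exact Nat.find_min' hex2 ⟨x, hx, rfl⟩
  obtain ⟨p, hp⟩ := h.nice.conn.exists_walk_length_eq_dist o (q • o)
  refine ⟨{ E := E, q := q, len := Gr.dist o (q • o), p := p.getVert, fin := hE,
            mem := ?_, q_not := hq, hlen := rfl, min := hmin, p0 := p.getVert_zero,
            pl := ?_, geo := ?_, pconst := ?_ }⟩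
  · intro e he
    exact Subgroup.subset_closure he
  · rw [← hp]
    exact p.getVert_length
  · intro i j hij hj
    rw [← hp] at hj
    have h1 : Gr.dist (p.getVert i) (p.getVert j) ≤ j - i := by
      have hw : ∀ k, i ≤ k → Gr.dist (p.getVert i) (p.getVert k) ≤ k - i := by
        intro k hk
        induction k, hk using Nat.le_induction with
        | base => simp
        | succ k hk ih =>
          have h2 := h.nice.conn.dist_triangle (u := p.getVert i) (v := p.getVert k)
            (w := p.getVert (k + 1))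
          have h3 : Gr.dist (p.getVert k) (p.getVert (k + 1)) ≤ 1 := by
            by_cases hk' : k < p.length
            · exact (SimpleGraph.dist_eq_one_iff_adj.2 (p.adj_getVert_succ hk')).le
            · push Not at hk'
              rw [p.getVert_of_length_le hk', p.getVert_of_length_le (by omega)]
              simp
          omega
      exact hw j hij
    have h0 : Gr.dist o (p.getVert i) ≤ i := by
      have := SimpleGraph.dist_le (p.take i)
      refine this.trans ?_
      rw [SimpleGraph.Walk.take_length]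
      exact min_le_left _ _
    have h2 : Gr.dist (p.getVert j) (q • o) ≤ p.length - j := by
      have := SimpleGraph.dist_le (p.drop j)
      rwa [SimpleGraph.Walk.drop_length] at this
    have h3 := h.nice.conn.dist_triangle (u := o) (v := p.getVert i) (w := q • o)
    have h4 := h.nice.conn.dist_triangle (u := p.getVert i) (v := p.getVert j) (w := q • o)
    omega
  · intro s hs
    rw [← hp] at hs ⊢
    rw [p.getVert_of_length_le hs, p.getVert_length]

theorem Leg.L_lt {o : X} {L : ℕ} (l : Leg Gr Q o L) : L < l.len := by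
  by_contra hcon
  push Not at hcon
  apply l.q_not
  apply l.mem
  rw [l.hlen]
  exact hcon

/-- HINT: `e⁻¹ * q ∉ E`, so `len ≤ dist o ((e⁻¹ * q) • o) = dist (e • o) (q • o)
≤ dist (e • o) (p s) + (len - s)`. -/
theorem Leg.dist_E (h : Act Gr Q w) {o : X} {L : ℕ} (l : Leg Gr Q o L) {e : Q} (he : e ∈ l.E)
    {s : ℕ} (hs : s ≤ l.len) : s ≤ Gr.dist (l.p s) (e • o) := by
  have h1 : e⁻¹ * l.q ∉ l.E := by
    intro hcon
    apply l.q_not
    have : l.q = e * (e⁻¹ * l.q) := by group
    rw [this]
    exact l.E.mul_mem he hcon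
  have h2 := l.min _ h1
  have h3 : Gr.dist o ((e⁻¹ * l.q) • o) = Gr.dist (e • o) (l.q • o) := by
    rw [← h.iso e o ((e⁻¹ * l.q) • o), ← mul_smul]
    congr 2
    group
  have h4 := h.nice.conn.dist_triangle (u := e • o) (v := l.p s) (w := l.q • o)
  have h5 := l.geo s l.len hs le_rfl
  rw [l.pl] at h5
  rw [SimpleGraph.dist_comm (u := e • o) (v := l.p s)] at h4
  omega

theorem Leg.dist_notE (h : Act Gr Q w) {o : X} {L : ℕ} (l : Leg Gr Q o L) {e : Q} (he : e ∉ l.E)
    {s : ℕ} (hs : s ≤ l.len) : l.len ≤ s + Gr.dist (l.p s) (e • o) := by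
  have h2 := l.min _ he
  have h4 := h.nice.conn.dist_triangle (u := o) (v := l.p s) (w := e • o)
  have h5 := l.geo 0 s (Nat.zero_le _) hs
  rw [l.p0] at h5
  omega

end

end Pool.Agent.Lib.MP_0f7bfe_al.QT
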