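import Pool.Agent.Lib.MP_0f7bfe_al.QT.T1

open scoped Pointwise

namespace Pool.Agent.Lib.MP_0f7bfe_al.QT

open Pool.Agent.Lib.MP_0f7bfe_al.OE

universe u v

section
variable {X : Type u} {Gr : SimpleGraph X} {Q : Type v} [CommGroup Q] [MulAction Q X]
  {w b : ℕ → ℕ}

/-- HINT: compactness. For fixed `s` the vertices `(l L).p s` lie in the ball of radius `s` around
`o`. With the ultrafilter `Filter.hyperfilter ℕ` there is a vertex `P s` with
`{L | (l L).p s = P s}` in it (finite image); finite intersections are in it, hence infinite. -/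
theorem ray_exists (h : Act Gr Q w) {o : X} (l : ∀ L, Leg Gr Q o L) :
    ∃ P : ℕ → X, ∀ R L0, ∃ L ≥ L0, ∀ s ≤ R, (l L).p s = P s := by
  have hball : ∀ s L, (l L).p s ∈ {y | Gr.dist o y ≤ s} := by
    intro s L
    have h0 := (l L).p0
    simp only [Set.mem_setOf_eq]
    rcases le_total s (l L).len with hs | hs
    · have h1 := (l L).geo 0 s (Nat.zero_le _) hs
      rw [h0] at h1
      omega
    · have h1 := (l L).geo 0 (l L).len (Nat.zero_le _) le_rfl
      rw [h0] at h1
      rw [(l L).pconst s hs]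
      omega
  have hex : ∀ s, ∃ v, {L | (l L).p s = v} ∈ Filter.hyperfilter ℕ := by
    intro s
    have hfin := h.nice.ball o s
    have h1 : (⋃ v ∈ {y | Gr.dist o y ≤ s}, {L | (l L).p s = v}) ∈ Filter.hyperfilter ℕ := by
      have h2 : (⋃ v ∈ {y | Gr.dist o y ≤ s}, {L | (l L).p s = v}) = Set.univ := by
        ext L
        simp only [Set.mem_iUnion, Set.mem_univ, iff_true, exists_prop]
        exact ⟨(l L).p s, hball s L, rfl⟩
      rw [h2]
      exact Filter.univ_mem
    rw [Ultrafilter.finite_biUnion_mem_iff hfin] at h1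
    obtain ⟨v, _, hv⟩ := h1
    exact ⟨v, hv⟩
  choose P hP using hex
  refine ⟨P, fun R L0 => ?_⟩
  have h1 : (⋂ s ∈ Set.Iic R, {L | (l L).p s = P s}) ∈ (Filter.hyperfilter ℕ : Filter ℕ) :=
    (Filter.biInter_mem (Set.finite_Iic R)).2 fun s _ => hP s
  have h2 : {L | L0 ≤ L} ∈ (Filter.hyperfilter ℕ : Filter ℕ) := by
    apply Filter.hyperfilter_le_cofinite
    rw [Filter.mem_cofinite]
    refine (Set.finite_Iio L0).subset ?_
    intro L hL
    simp only [Set.mem_compl_iff, Set.mem_setOf_eq, not_le] at hL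
    exact hL
  have h3 := Filter.inter_mem h1 h2
  obtain ⟨L, hL1, hL2⟩ := (Filter.hyperfilter ℕ).neBot.nonempty_of_mem h3
  refine ⟨L, hL2, fun s hs => ?_⟩
  simp only [Set.mem_iInter] at hL1
  exact hL1 s hs

/-- HINT: take `L ≥ dist o (q • o)`, `L ≥ s` with `(l L).p s = P s`; then `q ∈ (l L).E`. -/
theorem IsLim.dist (h : Act Gr Q w) {o : X} {l : ∀ L, Leg Gr Q o L} {P : ℕ → X}
    (hP : IsLim l P) (q : Q) (s : ℕ) : s ≤ Gr.dist (P s) (q • o) := by
  obtain ⟨L, hL, hLP⟩ := hP s (max (Gr.dist o (q • o)) s)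
  have hq : q ∈ (l L).E := (l L).mem q ((le_max_left _ _).trans hL)
  have hs : s ≤ (l L).len := ((le_max_right _ _).trans hL).trans (l L).L_lt.le
  rw [← hLP s le_rfl]
  exact (l L).dist_E h hq hs

theorem IsLim.geo {o : X} {l : ∀ L, Leg Gr Q o L} {P : ℕ → X}
    (hP : IsLim l P) : P 0 = o ∧ ∀ s s', s ≤ s' → s + Gr.dist (P s) (P s') = s' := by
  constructor
  · obtain ⟨L, _, hLP⟩ := hP 0 0
    rw [← hLP 0 le_rfl]
    exact (l L).p0
  · intro s s' hss
    obtain ⟨L, hL, hLP⟩ := hP s' s'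
    rw [← hLP s hss, ← hLP s' le_rfl]
    exact (l L).geo s s' hss (le_trans hL (l L).L_lt.le)

end

end Pool.Agent.Lib.MP_0f7bfe_al.QT
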