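import Pool.Agent.Lib.MP_0f7bfe_al.QT.T2
import Pool.Agent.Lib.MP_0f7bfe_al.QT.T3
import Pool.Agent.Lib.MP_0f7bfe_al.QT.G2

open scoped Pointwise

namespace Pool.Agent.Lib.MP_0f7bfe_al.QT

open Pool.Agent.Lib.MP_0f7bfe_al.OE

universe u v

section
variable {X : Type u} {Gr : SimpleGraph X} {Q : Type v} [CommGroup Q] [MulAction Q X]
  {w b : ℕ → ℕ}

private theorem qt_t4_notE {o : X} {L : ℕ} (l : Leg Gr Q o L) {F : Subgroup Q}
    (hF : F ≤ l.E) (a f : F) : (a : Q)⁻¹ * (f : Q) * l.q ∉ l.E := by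
  intro h1
  have h2 : (a : Q)⁻¹ * (f : Q) ∈ l.E := l.E.mul_mem (l.E.inv_mem (hF a.2)) (hF f.2)
  exact l.q_not ((Subgroup.mul_mem_cancel_left l.E h2).1 h1)

private theorem qt_t4_shift (h : Act Gr Q w) {o x : X} {q f : Q} {Rp : ℕ}
    (hf : Gr.dist (f • q • o) x ≤ Rp) {F : Subgroup Q} (a : F) (y : X) :
    Gr.dist y (((a : Q)⁻¹ * f * q) • o) ≤ Gr.dist x ((a : Q) • y) + Rp := by
  have h1 : Gr.dist y (((a : Q)⁻¹ * f * q) • o) = Gr.dist ((a : Q) • y) (f • q • o) := by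
    rw [← h.iso (a : Q) y (((a : Q)⁻¹ * f * q) • o), mul_smul, mul_smul, smul_inv_smul]
  have h2 : Gr.dist ((a : Q) • y) (f • q • o) ≤ Gr.dist ((a : Q) • y) x + Gr.dist x (f • q • o) :=
    h.nice.conn.dist_triangle
  rw [SimpleGraph.dist_comm (u := (a : Q) • y) (v := x),
    SimpleGraph.dist_comm (u := x) (v := f • q • o)] at h2
  omega

/-- HINT: `s ≤ dist (P s) (a • o) ≤ dist (P s) (a • P s') + dist (a • P s') (a • o)`, and the last
distance is `s'` (`IsLim.dist`, `IsLim.geo`). -/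
theorem spine_of_lim (h : Act Gr Q w) {o : X} {l : ∀ L, Leg Gr Q o L} {P : ℕ → X}
    (hP : IsLim l P) (F : Subgroup Q) : Spine Gr F P := by
  have hc := h.nice.conn
  obtain ⟨h0, hgeo⟩ := IsLim.geo hP
  refine ⟨fun s => ?_, fun a s s' => ?_⟩
  · have := hgeo s (s + 1) (Nat.le_succ s)
    omega
  · have h1 := IsLim.dist h hP (a : Q) s
    have h2 : Gr.dist (P s) ((a : Q) • o) ≤
        Gr.dist (P s) ((a : Q) • P s') + Gr.dist ((a : Q) • P s') ((a : Q) • o) := hc.dist_triangle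
    rw [h.iso] at h2
    have h3 := hgeo 0 s' (Nat.zero_le _)
    rw [h0, SimpleGraph.dist_comm] at h3
    have h4 : Gr.dist (P s) (a • P s') = Gr.dist (P s) ((a : Q) • P s') := rfl
    rw [h4]
    omega

theorem lv_lim (h : Act Gr Q w) {o : X} {l : ∀ L, Leg Gr Q o L} {P : ℕ → X}
    (hP : IsLim l P) (F : Subgroup Q) (s : ℕ) : lv Gr F o (P s) = s := by
  obtain ⟨h0, hgeo⟩ := IsLim.geo hP
  refine le_antisymm ?_ ?_
  · unfold lv
    refine (ciInf_le (OrderBot.bddBelow _) (1 : F)).trans ?_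
    have h3 := hgeo 0 s (Nat.zero_le _)
    rw [h0, SimpleGraph.dist_comm] at h3
    rw [one_smul]
    omega
  · unfold lv
    exact le_ciInf fun a => IsLim.dist h hP (a : Q) s

theorem lv_leg (h : Act Gr Q w) {o : X} {L : ℕ} (l : Leg Gr Q o L) {F : Subgroup Q}
    (hF : F ≤ l.E) {s : ℕ} (hs : s ≤ l.len) : lv Gr F o (l.p s) = s := by
  refine le_antisymm ?_ ?_
  · unfold lv
    refine (ciInf_le (OrderBot.bddBelow _) (1 : F)).trans ?_
    have h3 := l.geo 0 s (Nat.zero_le _) hs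
    rw [l.p0, SimpleGraph.dist_comm] at h3
    rw [one_smul]
    omega
  · unfold lv
    exact le_ciInf fun a => Leg.dist_E h l (hF a.2) hs

/-- HINT: let `x` be `Rp`-close to `f • q • o`. Then `(a⁻¹ * f * q) ∉ E`, so its length is at least
`len`; `dist (P s) ((a⁻¹ f q) • o) ≥ s` (`IsLim.dist`) and `≥ len - s` (triangle with
`dist o (P s) = s`). -/
theorem pod_far_lim (h : Act Gr Q w) {o : X} {l : ∀ L, Leg Gr Q o L} {P : ℕ → X}
    (hP : IsLim l P) {L : ℕ} {F : Subgroup Q} (hF : F ≤ (l L).E) {Rp : ℕ} {x : X}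
    (hx : x ∈ pod (l L) F Rp) (a : F) (s : ℕ) :
    (l L).len ≤ 2 * (Rp + Gr.dist x (a • P s)) := by
  have hc := h.nice.conn
  obtain ⟨h0, hgeo⟩ := IsLim.geo hP
  obtain ⟨f, hf⟩ := hx
  have hE := qt_t4_notE (l L) hF a f
  have h1 := IsLim.dist h hP ((a : Q)⁻¹ * (f : Q) * (l L).q) s
  have h2 := (l L).min _ hE
  have h3 : Gr.dist o (((a : Q)⁻¹ * (f : Q) * (l L).q) • o) ≤
      Gr.dist o (P s) + Gr.dist (P s) (((a : Q)⁻¹ * (f : Q) * (l L).q) • o) := hc.dist_triangle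
  have h4 := hgeo 0 s (Nat.zero_le _)
  rw [h0] at h4
  have h5 := qt_t4_shift h hf a (P s)
  have h6 : Gr.dist x (a • P s) = Gr.dist x ((a : Q) • P s) := rfl
  rw [h6]
  omega

/-- HINT: `Leg.dist_notE`. -/
theorem pod_far_leg (h : Act Gr Q w) {o : X} {L : ℕ} (l : Leg Gr Q o L) {F : Subgroup Q}
    (hF : F ≤ l.E) {Rp : ℕ} {x : X} (hx : x ∈ pod l F Rp) (a : F) {s : ℕ} (hs : s ≤ l.len) :
    l.len ≤ s + Rp + Gr.dist x (a • l.p s) := by
  obtain ⟨f, hf⟩ := hx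
  have hE := qt_t4_notE l hF a f
  have h1 := Leg.dist_notE h l hE hs
  have h5 := qt_t4_shift h hf a (l.p s)
  have h6 : Gr.dist x (a • l.p s) = Gr.dist x ((a : Q) • l.p s) := rfl
  rw [h6]
  omega

theorem pod_lv (h : Act Gr Q w) {o : X} {L : ℕ} (l : Leg Gr Q o L) {F : Subgroup Q}
    (hF : F ≤ l.E) {Rp : ℕ} {x : X} (hx : x ∈ pod l F Rp) :
    l.len ≤ lv Gr F o x + Rp ∧ lv Gr F o x ≤ l.len + Rp := by
  have hc := h.nice.conn
  obtain ⟨f, hf⟩ := hx
  constructor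
  · have h1 : l.len - Rp ≤ lv Gr F o x := by
      unfold lv
      refine le_ciInf fun a => ?_
      have hE := qt_t4_notE l hF a f
      have h2 := l.min _ hE
      have h5 := qt_t4_shift h hf a o
      have h6 : Gr.dist x (a • o) = Gr.dist x ((a : Q) • o) := rfl
      rw [h6]
      omega
    omega
  · unfold lv
    refine (ciInf_le (OrderBot.bddBelow _) f).trans ?_
    have h6 : Gr.dist x (f • o) = Gr.dist x ((f : Q) • o) := rfl
    rw [h6]
    have h1 : Gr.dist x ((f : Q) • o) ≤ Gr.dist x ((f : Q) • l.q • o) +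
        Gr.dist ((f : Q) • l.q • o) ((f : Q) • o) := hc.dist_triangle
    rw [h.iso, SimpleGraph.dist_comm (u := x) (v := (f : Q) • l.q • o),
      SimpleGraph.dist_comm (u := l.q • o) (v := o), l.hlen] at h1
    omega

theorem pod_inv (h : Act Gr Q w) {o : X} {L : ℕ} (l : Leg Gr Q o L) {F : Subgroup Q} {Rp : ℕ}
    {x : X} (hx : x ∈ pod l F Rp) (a : F) : a • x ∈ pod l F Rp := by
  obtain ⟨f, hf⟩ := hx
  refine ⟨a * f, ?_⟩
  have h1 : ((a * f : F) : Q) • l.q • o = (a : Q) • (f : Q) • l.q • o := by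
    rw [Subgroup.coe_mul, mul_smul]
  have h2 : a • x = (a : Q) • x := rfl
  rw [h1, h2, h.iso]
  exact hf

/-- HINT: the pod is the union of the balls of radius `Rp` around `f • q • o`, `f ∈ F`, all of which
contain `q • o` (`dist (f • q • o) (q • o) = dist (q • f • o) (q • o) = dist (f • o) o`, `Q` is
commutative); `fc_ball`, `fc_iUnion` (index type `F`). -/
theorem pod_fc (h : Act Gr Q w) {o : X} {L : ℕ} (l : Leg Gr Q o L) (F : Subgroup Q) [Finite F]
    {Rp : ℕ} (hRp : ∀ f : F, Gr.dist o ((f : Q) • o) ≤ Rp) : FC Gr (pod l F Rp) := by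
  have h0 : pod l F Rp = ⋃ f : F, {x | Gr.dist ((f : Q) • l.q • o) x ≤ Rp} := by
    ext x
    simp [pod]
  rw [h0]
  refine fc_iUnion _ (1 : F) (fun f => fc_ball h.nice _ _) ?_
  intro f
  refine Relation.ReflTransGen.single ⟨l.q • o, ?_, ?_⟩
  · show Gr.dist (((1 : F) : Q) • l.q • o) (l.q • o) ≤ Rp
    rw [Subgroup.coe_one, one_smul, SimpleGraph.dist_self]
    exact Nat.zero_le _
  · show Gr.dist ((f : Q) • l.q • o) (l.q • o) ≤ Rp
    rw [smul_comm, h.iso, SimpleGraph.dist_comm]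
    exact hRp f

/-- HINT: `dist (l.p s) (a • P s') ≤ κ` gives `s ≤ s' + κ` (levels) and, since `a⁻¹ * q` has
`dist (P s') ((a⁻¹ * q) • o) ≥ s'` (`IsLim.dist`), `s' ≤ κ + (len - s)`. -/
theorem leg_close (h : Act Gr Q w) {o : X} {l : ∀ L, Leg Gr Q o L} {P : ℕ → X}
    (hP : IsLim l P) {L : ℕ} {F : Subgroup Q} (hF : F ≤ (l L).E) {s s' κ : ℕ} (a : F)
    (hs : s ≤ (l L).len) (hd : Gr.dist ((l L).p s) (a • P s') ≤ κ) :
    2 * s ≤ (l L).len + 2 * κ ∧ s ≤ s' + κ ∧ s' ≤ s + κ := by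
  have hc := h.nice.conn
  obtain ⟨h0, hgeo⟩ := IsLim.geo hP
  have hd' : Gr.dist ((l L).p s) ((a : Q) • P s') ≤ κ := hd
  have g0 : Gr.dist (P s') o = s' := by
    have := hgeo 0 s' (Nat.zero_le _)
    rw [h0, SimpleGraph.dist_comm] at this
    omega
  have g1 : Gr.dist ((l L).p s) o = s := by
    have := (l L).geo 0 s (Nat.zero_le _) hs
    rw [(l L).p0, SimpleGraph.dist_comm] at this
    omega
  have g2 : s + Gr.dist ((l L).p s) ((l L).q • o) = (l L).len := by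
    have := (l L).geo s (l L).len hs le_rfl
    rwa [(l L).pl] at this
  have e1 : s ≤ s' + κ := by
    have h1 := Leg.dist_E h (l L) (hF a.2) hs
    have h2 : Gr.dist ((l L).p s) ((a : Q) • o) ≤
        Gr.dist ((l L).p s) ((a : Q) • P s') + Gr.dist ((a : Q) • P s') ((a : Q) • o) :=
      hc.dist_triangle
    rw [h.iso, g0] at h2
    omega
  have e2 : s' ≤ s + κ := by
    have h1 := IsLim.dist h hP ((a : Q)⁻¹) s'
    have h2 : Gr.dist (P s') ((a : Q)⁻¹ • o) = Gr.dist ((a : Q) • P s') o := by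
      rw [← h.iso (a : Q) (P s') ((a : Q)⁻¹ • o), smul_inv_smul]
    have h3 : Gr.dist ((a : Q) • P s') o ≤ Gr.dist ((a : Q) • P s') ((l L).p s) +
        Gr.dist ((l L).p s) o := hc.dist_triangle
    rw [SimpleGraph.dist_comm (u := (a : Q) • P s') (v := (l L).p s)] at h3
    omega
  refine ⟨?_, e1, e2⟩
  have h1 := IsLim.dist h hP ((a : Q)⁻¹ * (l L).q) s'
  have h2 : Gr.dist (P s') (((a : Q)⁻¹ * (l L).q) • o) =
      Gr.dist ((a : Q) • P s') ((l L).q • o) := by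
    rw [← h.iso (a : Q) (P s') (((a : Q)⁻¹ * (l L).q) • o), mul_smul, smul_inv_smul]
  have h3 : Gr.dist ((a : Q) • P s') ((l L).q • o) ≤ Gr.dist ((a : Q) • P s') ((l L).p s) +
      Gr.dist ((l L).p s) ((l L).q • o) := hc.dist_triangle
  rw [SimpleGraph.dist_comm (u := (a : Q) • P s') (v := (l L).p s)] at h3
  omega

end

end Pool.Agent.Lib.MP_0f7bfe_al.QT
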