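import Pool.Agent.Lib.MP_0f7bfe_al.QT.Defs

open scoped Pointwise

namespace Pool.Agent.Lib.MP_0f7bfe_al.QT

open Pool.Agent.Lib.MP_0f7bfe_al.OE

universe u v

section
variable {X : Type u} {Gr : SimpleGraph X} {Q : Type v} [CommGroup Q] [MulAction Q X]
  {w b : ℕ → ℕ}

/-- a geodesic from `o` to `q • o`, where `q` is a shortest element outside the finite subgroup
`E`, which contains all elements of length at most `L` -/
structure Leg (Gr : SimpleGraph X) (Q : Type v) [CommGroup Q] [MulAction Q X] (o : X)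
    (L : ℕ) where
  E : Subgroup Q
  q : Q
  len : ℕ
  p : ℕ → X
  fin : Finite E
  mem : ∀ e : Q, Gr.dist o (e • o) ≤ L → e ∈ E
  q_not : q ∉ E
  hlen : Gr.dist o (q • o) = len
  min : ∀ x : Q, x ∉ E → len ≤ Gr.dist o (x • o)
  p0 : p 0 = o
  pl : p len = q • o
  geo : ∀ s s', s ≤ s' → s' ≤ len → s + Gr.dist (p s) (p s') = s'
  pconst : ∀ s, len ≤ s → p s = p len

/-- `P` is a limit of the legs `l` -/
def IsLim {o : X} (l : ∀ L, Leg Gr Q o L) (P : ℕ → X) : Prop :=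
  ∀ R L0, ∃ L ≥ L0, ∀ s ≤ R, (l L).p s = P s

/-- the pod at the end of a leg -/
def pod {o : X} {L : ℕ} (l : Leg Gr Q o L) (F : Subgroup Q) (Rp : ℕ) : Set X :=
  {x | ∃ f : F, Gr.dist ((f : Q) • l.q • o) x ≤ Rp}

end

end Pool.Agent.Lib.MP_0f7bfe_al.QT
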